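import Mathlib

open Module Filter Topology Complex

noncomputable section
namespace Pool.Agent.Lib.Ribet4b482e

/-- The Weierstrass elementary factor `(1 - w) exp (w + w² / 2)`. -/
def elemFac (w : ℂ) : ℂ := (1 - w) * exp (w + w ^ 2 / 2)

lemma hasDerivAt_elemFac (w : ℂ) :
    HasDerivAt elemFac (-(w ^ 2) * exp (w + w ^ 2 / 2)) w := by
  have h1 : HasDerivAt (fun w : ℂ => 1 - w) (-1) w := by
    simpa using (hasDerivAt_id w).const_sub 1
  have h2 : HasDerivAt (fun w : ℂ => w + w ^ 2 / 2) (1 + w) w := by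
    have := (hasDerivAt_id w).add (((hasDerivAt_id w).pow 2).div_const 2)
    refine this.congr_deriv ?_
    simp
  have h3 := h1.mul h2.cexp
  refine h3.congr_deriv ?_
  ring

lemma norm_elemFac_sub_one_le {w : ℂ} (hw : ‖w‖ ≤ 1 / 2) :
    ‖elemFac w - 1‖ ≤ 2 * ‖w‖ ^ 3 := by
  have h0 : elemFac 0 = 1 := by simp [elemFac]
  have key := (convex_closedBall (0 : ℂ) ‖w‖).norm_image_sub_le_of_norm_hasDerivWithin_le
    (f := elemFac) (f' := fun w => -(w ^ 2) * exp (w + w ^ 2 / 2)) (C := 2 * ‖w‖ ^ 2)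
    (fun x _ => (hasDerivAt_elemFac x).hasDerivWithinAt) ?_
    (x := 0) (y := w) (by simp) (by simp)
  · rw [h0, sub_zero] at key
    calc _ ≤ _ := key
      _ = _ := by ring
  · intro x hx
    have hx' : ‖x‖ ≤ ‖w‖ := by simpa using hx
    have hx2 : ‖x‖ ≤ 1 / 2 := hx'.trans hw
    rw [norm_mul, norm_neg, norm_pow, Complex.norm_exp]
    have h1 : (x + x ^ 2 / 2).re ≤ 5 / 8 := by
      calc (x + x ^ 2 / 2).re ≤ ‖x + x ^ 2 / 2‖ := Complex.re_le_norm _
        _ ≤ ‖x‖ + ‖x ^ 2 / 2‖ := norm_add_le _ _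
        _ = ‖x‖ + ‖x‖ ^ 2 / 2 := by simp
        _ ≤ 5 / 8 := by nlinarith [norm_nonneg x]
    have h2 : Real.exp ((x + x ^ 2 / 2).re) ≤ 2 := by
      calc Real.exp ((x + x ^ 2 / 2).re) ≤ Real.exp (5 / 8) := Real.exp_le_exp.mpr h1
        _ ≤ 2 := by
          have := Real.log_two_gt_d9
          rw [← Real.exp_log (show (0 : ℝ) < 2 by norm_num)]
          exact Real.exp_le_exp.mpr (by linarith)
    calc ‖x‖ ^ 2 * Real.exp ((x + x ^ 2 / 2).re) ≤ ‖w‖ ^ 2 * 2 := by gcongr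
      _ = _ := by ring

/-- A crude bound valid for all `w`. -/
lemma norm_elemFac_le (w : ℂ) : ‖elemFac w‖ ≤ Real.exp (16 * ‖w‖ ^ 3) := by
  by_cases hw : ‖w‖ ≤ 1 / 2
  · calc ‖elemFac w‖ = ‖(elemFac w - 1) + 1‖ := by ring_nf
      _ ≤ ‖elemFac w - 1‖ + ‖(1 : ℂ)‖ := norm_add_le _ _
      _ ≤ 2 * ‖w‖ ^ 3 + 1 := by
        have := norm_elemFac_sub_one_le hw
        simpa using this
      _ ≤ Real.exp (2 * ‖w‖ ^ 3) := Real.add_one_le_exp _
      _ ≤ Real.exp (16 * ‖w‖ ^ 3) := by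
        gcongr
        norm_num
  · push Not at hw
    rw [elemFac, norm_mul, Complex.norm_exp]
    have h1 : ‖1 - w‖ ≤ Real.exp ‖w‖ := by
      calc ‖1 - w‖ ≤ ‖(1 : ℂ)‖ + ‖w‖ := norm_sub_le _ _
        _ = ‖w‖ + 1 := by simp [add_comm]
        _ ≤ _ := Real.add_one_le_exp _
    have h2 : (w + w ^ 2 / 2).re ≤ ‖w‖ + ‖w‖ ^ 2 / 2 := by
      calc (w + w ^ 2 / 2).re ≤ ‖w + w ^ 2 / 2‖ := Complex.re_le_norm _
        _ ≤ ‖w‖ + ‖w ^ 2 / 2‖ := norm_add_le _ _
        _ = ‖w‖ + ‖w‖ ^ 2 / 2 := by simp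
    calc ‖1 - w‖ * Real.exp ((w + w ^ 2 / 2).re)
        ≤ Real.exp ‖w‖ * Real.exp (‖w‖ + ‖w‖ ^ 2 / 2) := by gcongr
      _ = Real.exp (‖w‖ + (‖w‖ + ‖w‖ ^ 2 / 2)) := by rw [← Real.exp_add]
      _ ≤ Real.exp (16 * ‖w‖ ^ 3) := by
        gcongr
        have h3 : ‖w‖ ≤ 4 * ‖w‖ ^ 3 := by nlinarith [sq_nonneg (‖w‖ - 1/2), norm_nonneg w, mul_pos (show (0:ℝ) < ‖w‖ by linarith) (show (0:ℝ) < ‖w‖ by linarith)]
        have h4 : ‖w‖ ^ 2 ≤ 2 * ‖w‖ ^ 3 := by nlinarith [sq_nonneg (‖w‖)]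
        linarith

lemma elemFac_ne_zero {w : ℂ} (hw : w ≠ 1) : elemFac w ≠ 0 := by
  rw [elemFac]
  exact mul_ne_zero (sub_ne_zero.mpr hw.symm) (exp_ne_zero _)

lemma differentiable_elemFac : Differentiable ℂ elemFac :=
  fun w => (hasDerivAt_elemFac w).differentiableAt

variable (L : PeriodPair)

/-- The Weierstrass `σ`-function. -/
def sigmaW (z : ℂ) : ℂ := z * ∏' l : L.lattice, (1 - z / l) * exp (z / l + (z / l) ^ 2 / 2)

/-- The Weierstrass `ζ`-function. -/
def zetaW (z : ℂ) : ℂ := ∑' l : L.lattice, (1 / (z - l) + 1 / l + z / (l : ℂ) ^ 2)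

lemma sigmaW_eq (z : ℂ) : sigmaW L z = z * ∏' l : L.lattice, elemFac (z / l) := rfl

lemma eventually_le_norm (R : ℝ) : ∀ᶠ l : L.lattice in cofinite, R ≤ ‖(l : ℂ)‖ := by
  refine (isCompact_iff_finite.mp (isCompact_closedBall (0 : L.lattice) R)).subset ?_
  intro l hl
  have : ‖(l : ℂ)‖ < R := by simpa using hl
  simpa using this.le

lemma summable_norm_inv_three : Summable (fun l : L.lattice => ‖(l : ℂ)‖ ^ (-3 : ℤ)) := by
  have := ZLattice.summable_norm_zpow (L := L.lattice) (-3) (by simp)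
  simpa using this

lemma norm_elemFac_div_sub_one_le {r : ℝ} {z l : ℂ} (hz : ‖z‖ ≤ r) (hr : 0 < r)
    (hl : 2 * r ≤ ‖l‖) : ‖elemFac (z / l) - 1‖ ≤ 2 * r ^ 3 * ‖l‖ ^ (-3 : ℤ) := by
  have hl0 : 0 < ‖l‖ := by linarith
  have h1 : ‖z / l‖ ≤ 1 / 2 := by
    rw [norm_div, div_le_iff₀ hl0]
    linarith
  calc ‖elemFac (z / l) - 1‖ ≤ 2 * ‖z / l‖ ^ 3 := norm_elemFac_sub_one_le h1
    _ = 2 * ‖z‖ ^ 3 * ‖l‖ ^ (-3 : ℤ) := by
      rw [norm_div, div_pow]
      simp [zpow_neg, div_eq_mul_inv]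
      norm_cast
      ring
    _ ≤ _ := by gcongr

lemma hasProdLocallyUniformlyOn_elemFac {r : ℝ} (hr : 0 < r) :
    HasProdLocallyUniformlyOn (fun (l : L.lattice) (z : ℂ) => elemFac (z / l))
      (fun z => ∏' l : L.lattice, elemFac (z / l)) (Metric.ball 0 r) := by
  have := Summable.hasProdLocallyUniformlyOn_one_add (K := Metric.ball (0 : ℂ) r)
    (f := fun (l : L.lattice) (z : ℂ) => elemFac (z / l) - 1)
    (u := fun l : L.lattice => 2 * r ^ 3 * ‖(l : ℂ)‖ ^ (-3 : ℤ)) Metric.isOpen_ball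
    ((summable_norm_inv_three L).mul_left _) ?_ ?_
  · simpa using this
  · filter_upwards [eventually_le_norm L (2 * r)] with l hl z hz
    exact norm_elemFac_div_sub_one_le (by simpa using (Metric.mem_ball.mp hz).le) hr hl
  · intro l
    have : Continuous fun z : ℂ => elemFac (z / l) :=
      differentiable_elemFac.continuous.comp (continuous_id.div_const _)
    exact (this.sub continuous_const).continuousOn

lemma differentiable_tprod_elemFac :
    Differentiable ℂ (fun z => ∏' l : L.lattice, elemFac (z / l)) := by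
  intro z
  have hr : 0 < ‖z‖ + 1 := by positivity
  have h := hasProdLocallyUniformlyOn_elemFac L hr
  have h2 : DifferentiableOn ℂ (fun z => ∏' l : L.lattice, elemFac (z / l))
      (Metric.ball 0 (‖z‖ + 1)) := by
    refine TendstoLocallyUniformlyOn.differentiableOn (φ := atTop) h (.of_forall fun s => ?_)
      Metric.isOpen_ball
    refine DifferentiableOn.fun_finsetProd fun i _ => ?_
    exact (differentiable_elemFac.comp (differentiable_id.div_const _)).differentiableOn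
  exact h2.differentiableAt (Metric.isOpen_ball.mem_nhds (by simp))

lemma differentiable_sigmaW : Differentiable ℂ (sigmaW L) :=
  differentiable_id.mul (differentiable_tprod_elemFac L)

lemma summable_norm_elemFac_sub_one (z : ℂ) :
    Summable (fun l : L.lattice => ‖elemFac (z / l) - 1‖) := by
  have hr : 0 < ‖z‖ + 1 := by positivity
  refine Summable.of_norm_bounded_eventually
    ((summable_norm_inv_three L).mul_left (2 * (‖z‖ + 1) ^ 3)) ?_
  filter_upwards [eventually_le_norm L (2 * (‖z‖ + 1))] with l hl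
  rw [norm_norm]
  exact norm_elemFac_div_sub_one_le (by linarith) hr hl

lemma tprod_elemFac_ne_zero {z : ℂ} (hz : z = 0 ∨ z ∉ L.lattice) :
    ∏' l : L.lattice, elemFac (z / l) ≠ 0 := by
  have := tprod_one_add_ne_zero_of_summable (f := fun l : L.lattice => elemFac (z / l) - 1) ?_
    (summable_norm_elemFac_sub_one L z)
  · simpa using this
  · intro l
    rw [add_sub_cancel]
    apply elemFac_ne_zero
    rcases hz with rfl | hz
    · simp
    · intro h
      by_cases hl : (l : ℂ) = 0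
      · simp [hl] at h
      · rw [div_eq_one_iff_eq hl] at h
        exact hz (h ▸ l.2)

@[simp] lemma elemFac_zero : elemFac 0 = 1 := by simp [elemFac]

lemma sigmaW_ne_zero {z : ℂ} (hz : z ∉ L.lattice) : sigmaW L z ≠ 0 := by
  rw [sigmaW_eq]
  refine mul_ne_zero ?_ (tprod_elemFac_ne_zero L (Or.inr hz))
  rintro rfl
  exact hz (zero_mem _)

lemma sigmaW_eq_zero_of_mem {z : ℂ} (hz : z ∈ L.lattice) : sigmaW L z = 0 := by
  rw [sigmaW_eq]
  by_cases h0 : z = 0
  · simp [h0]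
  · rw [tprod_of_exists_eq_zero ⟨⟨z, hz⟩, by simp [elemFac, div_self h0]⟩, mul_zero]

lemma sigmaW_eq_zero_iff {z : ℂ} : sigmaW L z = 0 ↔ z ∈ L.lattice :=
  ⟨fun h => by_contra fun h' => sigmaW_ne_zero L h' h, sigmaW_eq_zero_of_mem L⟩

@[simp] lemma sigmaW_zero : sigmaW L 0 = 0 := sigmaW_eq_zero_of_mem L (zero_mem _)

lemma hasDerivAt_sigmaW_zero : HasDerivAt (sigmaW L) 1 0 := by
  have h := (hasDerivAt_id (0 : ℂ)).mul (differentiable_tprod_elemFac L 0).hasDerivAt
  refine h.congr_deriv ?_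
  simp

@[simp] lemma sigmaW_neg (z : ℂ) : sigmaW L (-z) = - sigmaW L z := by
  rw [sigmaW_eq, sigmaW_eq, ← (Equiv.neg L.lattice).tprod_eq]
  simp

lemma zetaW_summand_eq {z l : ℂ} (hl : l ≠ 0) (hz : z ≠ l) :
    1 / (z - l) + 1 / l + z / l ^ 2 = z ^ 2 / (l ^ 2 * (z - l)) := by
  have := sub_ne_zero.mpr hz
  field_simp
  ring

lemma norm_zetaW_summand_le {r : ℝ} {z l : ℂ} (hz : ‖z‖ < r) (hr : 0 < r)
    (hl : 2 * r ≤ ‖l‖) : ‖1 / (z - l) + 1 / l + z / l ^ 2‖ ≤ 2 * r ^ 2 * ‖l‖ ^ (-3 : ℤ) := by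
  have hl0 : 0 < ‖l‖ := by linarith
  have hl0' : l ≠ 0 := norm_pos_iff.mp hl0
  have hzl : z ≠ l := by rintro rfl; linarith
  rw [zetaW_summand_eq hl0' hzl, norm_div, norm_mul, norm_pow, norm_pow]
  have h1 : ‖l‖ / 2 ≤ ‖z - l‖ := by
    rw [norm_sub_rev]
    exact .trans (by linarith) (norm_sub_norm_le l z)
  calc ‖z‖ ^ 2 / (‖l‖ ^ 2 * ‖z - l‖) ≤ r ^ 2 / (‖l‖ ^ 2 * (‖l‖ / 2)) := by gcongr
    _ = _ := by
      simp [zpow_neg]
      norm_cast
      field_simp

lemma hasSumLocallyUniformly_zetaW :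
    HasSumLocallyUniformly (fun (l : L.lattice) (z : ℂ) => 1 / (z - l) + 1 / l + z / (l : ℂ) ^ 2)
      (zetaW L) := by
  refine L.hasSumLocallyUniformly_aux (u := fun r l => 2 * r ^ 2 * ‖(l : ℂ)‖ ^ (-3 : ℤ)) _
    (fun r _ => (summable_norm_inv_three L).mul_left _) fun r hr =>
    Filter.eventually_atTop.mpr ⟨2 * r, ?_⟩
  rintro _ h s hs l rfl
  exact norm_zetaW_summand_le hs hr h

lemma hasSum_zetaW (z : ℂ) :
    HasSum (fun l : L.lattice => (1 / (z - l) + 1 / l + z / (l : ℂ) ^ 2)) (zetaW L z) :=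
  (hasSumLocallyUniformly_zetaW L).hasSum

@[simp] lemma zetaW_neg (z : ℂ) : zetaW L (-z) = - zetaW L z := by
  simp only [zetaW]
  rw [← (Equiv.neg L.lattice).tsum_eq, ← tsum_neg]
  congr with l
  have : (-z - -(l : ℂ)) = -(z - l) := by ring
  simp only [Equiv.neg_apply, NegMemClass.coe_neg, this, neg_sq, one_div, inv_neg]
  ring

lemma differentiableOn_zetaW : DifferentiableOn ℂ (zetaW L) L.latticeᶜ := by
  refine (hasSumLocallyUniformly_zetaW L).hasSumLocallyUniformlyOn.differentiableOn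
    (.of_forall fun s ↦ .fun_sum fun i hi ↦ ?_) L.isClosed_lattice.isOpen_compl
  have : ∀ x ∈ (L.lattice : Set ℂ)ᶜ, x - (i : ℂ) ≠ 0 := by
    intro x hx h
    rw [sub_eq_zero] at h
    exact hx (h ▸ i.2)
  exact ((DifferentiableOn.div (by fun_prop) (by fun_prop) this).add (by fun_prop)).add
    (by fun_prop)

lemma hasDerivAt_zetaW {z : ℂ} (hz : z ∉ L.lattice) :
    HasDerivAt (zetaW L) (-(L.weierstrassP z)) z := by
  have hmem : (L.lattice : Set ℂ)ᶜ ∈ 𝓝 z := L.isClosed_lattice.isOpen_compl.mem_nhds hz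
  have hd := ((differentiableOn_zetaW L).differentiableAt hmem).hasDerivAt
  suffices h : deriv (zetaW L) z = -(L.weierstrassP z) by rwa [h] at hd
  have hEq : Set.EqOn (deriv (zetaW L)) (fun z => -(L.weierstrassP z)) (L.lattice : Set ℂ)ᶜ := by
    refine ((hasSumLocallyUniformly_zetaW L).tendstoLocallyUniformlyOn.deriv
      (.of_forall fun s ↦ ?_) L.isClosed_lattice.isOpen_compl).unique ?_
    · refine .fun_sum fun i hi ↦ ?_
      have : ∀ x ∈ (L.lattice : Set ℂ)ᶜ, x - (i : ℂ) ≠ 0 := by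
        intro x hx h
        rw [sub_eq_zero] at h
        exact hx (h ▸ i.2)
      exact ((DifferentiableOn.div (by fun_prop) (by fun_prop) this).add (by fun_prop)).add
        (by fun_prop)
    · refine (L.hasSumLocallyUniformly_weierstrassP.tendstoLocallyUniformlyOn.neg).congr ?_
      intro s x hx
      have hne : ∀ i : L.lattice, x - (i : ℂ) ≠ 0 := by
        intro i h
        rw [sub_eq_zero] at h
        exact hx (h ▸ i.2)
      simp only [Function.comp_apply, Pi.neg_apply]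
      rw [deriv_fun_sum]
      · rw [← Finset.sum_neg_distrib]
        refine Finset.sum_congr rfl fun i _ => ?_
        have h1 : HasDerivAt (fun x : ℂ => 1 / (x - (i : ℂ))) (-1 / (x - i) ^ 2) x := by
          have := ((hasDerivAt_id' x).sub_const (i : ℂ)).fun_inv (hne i)
          simpa using this
        have h2 : HasDerivAt (fun x : ℂ => x / (i : ℂ) ^ 2) (1 / (i : ℂ) ^ 2) x :=
          (hasDerivAt_id x).div_const _
        have h3 := ((h1.add_const (1 / (i : ℂ))).add h2).deriv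
        simp only [Pi.add_def] at h3
        rw [h3]
        ring
      · intro i _
        have h1 : HasDerivAt (fun x : ℂ => 1 / (x - (i : ℂ))) (-1 / (x - i) ^ 2) x := by
          have := ((hasDerivAt_id' x).sub_const (i : ℂ)).fun_inv (hne i)
          simpa using this
        have h2 : HasDerivAt (fun x : ℂ => x / (i : ℂ) ^ 2) (1 / (i : ℂ) ^ 2) x :=
          (hasDerivAt_id x).div_const _
        exact ((h1.add_const (1 / (i : ℂ))).add h2).differentiableAt
  exact hEq hz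

lemma logDeriv_elemFac_div {z l : ℂ} (hl : l ≠ 0) (hz : z ≠ l) :
    logDeriv (fun z => elemFac (z / l)) z = 1 / (z - l) + 1 / l + z / l ^ 2 := by
  have hw : z / l ≠ 1 := by rwa [ne_eq, div_eq_one_iff_eq hl]
  have h1 : HasDerivAt (fun z => elemFac (z / l))
      (-((z / l) ^ 2) * exp (z / l + (z / l) ^ 2 / 2) * (1 / l)) z :=
    (hasDerivAt_elemFac (z / l)).comp (h₂ := elemFac) z ((hasDerivAt_id' z).div_const l)
  rw [logDeriv_apply, h1.deriv, elemFac, zetaW_summand_eq hl hz]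
  have h2 := sub_ne_zero.mpr hz
  have h3 : 1 - z / l ≠ 0 := sub_ne_zero.mpr hw.symm
  have h4 : l - z ≠ 0 := sub_ne_zero.mpr hz.symm
  have h5 := exp_ne_zero (z / l + (z / l) ^ 2 / 2)
  rw [show (1 - z / l) = (l - z) / l by field_simp]
  generalize exp (z / l + (z / l) ^ 2 / 2) = E at *
  field_simp
  ring

lemma logDeriv_sigmaW {z : ℂ} (hz : z ∉ L.lattice) : logDeriv (sigmaW L) z = zetaW L z := by
  have hz0 : z ≠ 0 := by rintro rfl; exact hz (zero_mem _)
  have hsum : HasSum (fun l : L.lattice => logDeriv (fun z => elemFac (z / l)) z)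
      (zetaW L z - 1 / z) := by
    have h1 := hasSum_zetaW L z
    have h2 : HasSum (fun l : L.lattice => if l = 0 then 1 / z else 0) (1 / z) :=
      hasSum_ite_eq 0 (1 / z)
    refine (h1.sub h2).congr_fun fun l => ?_
    by_cases hl : l = 0
    · subst hl
      have : (fun z : ℂ => elemFac (z / ((0 : L.lattice) : ℂ))) = fun _ => 1 := by
        ext w; simp
      rw [this]
      simp
    · have hl' : (l : ℂ) ≠ 0 := by simpa using hl
      have hzl : z ≠ l := by rintro rfl; exact hz l.2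
      rw [if_neg hl, sub_zero, logDeriv_elemFac_div hl' hzl]
  have hr : 0 < ‖z‖ + 1 := by positivity
  have h := logDeriv_tprod_eq_tsum (f := fun (l : L.lattice) z => elemFac (z / l))
    (s := Metric.ball (0 : ℂ) (‖z‖ + 1)) Metric.isOpen_ball (x := z) (by simp)
    ?_ ?_ hsum.summable (hasProdLocallyUniformlyOn_elemFac L hr).multipliableLocallyUniformlyOn
    (tprod_elemFac_ne_zero L (Or.inr hz))
  · rw [show sigmaW L = fun z => z * ∏' l : L.lattice, elemFac (z / l) from rfl]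
    rw [logDeriv_mul (f := fun z => z) z hz0 (tprod_elemFac_ne_zero L (Or.inr hz))
      differentiableAt_fun_id (differentiable_tprod_elemFac L z), h, hsum.tsum_eq, logDeriv_id']
    ring
  · intro l
    apply elemFac_ne_zero
    intro h
    by_cases hl : (l : ℂ) = 0
    · simp [hl] at h
    · rw [div_eq_one_iff_eq hl] at h
      exact hz (h ▸ l.2)
  · intro l
    exact (differentiable_elemFac.comp (differentiable_id.div_const _)).differentiableOn

end Pool.Agent.Lib.Ribet4b482e
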