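import Mathlib
import Pool.Agent.Lib.Ribet4b482e.Sigma

open Module Filter Topology Complex

noncomputable section
namespace Pool.Agent.Lib.Ribet4b482e

variable (L : PeriodPair)

lemma isOpen_compl : IsOpen (L.lattice : Set ℂ)ᶜ := L.isClosed_lattice.isOpen_compl

lemma isPreconnected_compl : IsPreconnected (L.lattice : Set ℂ)ᶜ := by
  refine (Set.Countable.isConnected_compl_of_one_lt_rank (by simp) ?_).isPreconnected
  exact countable_of_Lindelof_of_discrete (X := L.lattice)

lemma dense_compl : Dense (L.lattice : Set ℂ)ᶜ :=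
  Set.Countable.dense_compl (𝕜 := ℂ) (countable_of_Lindelof_of_discrete (X := L.lattice))

lemma compl_mem_nhds {z : ℂ} (hz : z ∉ L.lattice) : (L.lattice : Set ℂ)ᶜ ∈ 𝓝 z :=
  (isOpen_compl L).mem_nhds hz

lemma add_notMem {z l : ℂ} (hz : z ∉ L.lattice) (hl : l ∈ L.lattice) : z + l ∉ L.lattice :=
  fun h => hz (by simpa using sub_mem h hl)

/-- The quasi-period `η(l) = ζ(z + l) - ζ(z)` (computed at `z = ω₁/2`). -/
def etaW (l : ℂ) : ℂ := zetaW L (L.ω₁ / 2 + l) - zetaW L (L.ω₁ / 2)

lemma zetaW_add {z l : ℂ} (hz : z ∉ L.lattice) (hl : l ∈ L.lattice) :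
    zetaW L (z + l) = zetaW L z + etaW L l := by
  have h : Set.EqOn (fun z => zetaW L (z + l)) (fun z => zetaW L z + etaW L l)
      (L.lattice : Set ℂ)ᶜ := by
    have hd : ∀ x ∈ (L.lattice : Set ℂ)ᶜ, HasDerivAt (fun z => zetaW L (z + l))
        (-(L.weierstrassP x)) x := by
      intro x hx
      have h1 := (hasDerivAt_zetaW L (add_notMem L hx hl)).comp_add_const x l
      rwa [L.weierstrassP_add_coe x ⟨l, hl⟩] at h1
    have hd2 : ∀ x ∈ (L.lattice : Set ℂ)ᶜ, HasDerivAt (fun z => zetaW L z + etaW L l)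
        (-(L.weierstrassP x)) x := by
      intro x hx
      exact (hasDerivAt_zetaW L hx).add_const _
    refine IsOpen.eqOn_of_deriv_eq (𝕜 := ℂ) (isOpen_compl L) (isPreconnected_compl L)
      (fun x hx => (hd x hx).differentiableAt.differentiableWithinAt)
      (fun x hx => (hd2 x hx).differentiableAt.differentiableWithinAt)
      (fun x hx => by rw [(hd x hx).deriv, (hd2 x hx).deriv])
      (x := L.ω₁ / 2) L.ω₁_div_two_notMem_lattice ?_
    simp [etaW]
  exact h hz

lemma etaW_add {l m : ℂ} (hl : l ∈ L.lattice) (hm : m ∈ L.lattice) :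
    etaW L (l + m) = etaW L l + etaW L m := by
  have h0 := L.ω₁_div_two_notMem_lattice
  have h1 := zetaW_add L h0 (add_mem hl hm)
  have h2 := zetaW_add L (add_notMem L h0 hl) hm
  have h3 := zetaW_add L h0 hl
  rw [← add_assoc] at h1
  linear_combination h2 - h1 + h3

@[simp] lemma etaW_zero : etaW L 0 = 0 := by simp [etaW]

lemma etaW_neg {l : ℂ} (hl : l ∈ L.lattice) : etaW L (-l) = - etaW L l := by
  have := etaW_add L hl (neg_mem hl)
  simp only [add_neg_cancel, etaW_zero] at this
  linear_combination -this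

lemma etaW_zsmul (n : ℤ) {l : ℂ} (hl : l ∈ L.lattice) : etaW L (n * l) = n * etaW L l := by
  induction n with
  | zero => simp
  | succ n ih =>
    have h : (n : ℂ) * l ∈ L.lattice := by
      have := L.lattice.smul_mem (n : ℤ) hl
      simpa using this
    push_cast at ih ⊢
    rw [add_mul, one_mul, etaW_add L h hl, ih]
    ring
  | pred n ih =>
    have h : -(n : ℂ) * l ∈ L.lattice := by
      have := L.lattice.smul_mem (-(n : ℤ)) hl
      simpa using this
    push_cast at ih ⊢
    rw [sub_mul, one_mul, sub_eq_add_neg, etaW_add L h (neg_mem hl), ih, etaW_neg L hl]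
    ring

lemma etaW_eq_two_mul {l : ℂ} (hl : l ∈ L.lattice) (hl2 : l / 2 ∉ L.lattice) :
    etaW L l = 2 * zetaW L (l / 2) := by
  have h : -(l / 2) ∉ L.lattice := fun h => hl2 (by simpa using neg_mem h)
  have := zetaW_add L h hl
  rw [show -(l / 2) + l = l / 2 by ring, zetaW_neg] at this
  linear_combination -this

lemma hasDerivAt_sigmaW {z : ℂ} (hz : z ∉ L.lattice) :
    HasDerivAt (sigmaW L) (zetaW L z * sigmaW L z) z := by
  have h := (differentiable_sigmaW L z).hasDerivAt
  have h2 := logDeriv_sigmaW L hz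
  rw [logDeriv_apply, div_eq_iff (sigmaW_ne_zero L hz)] at h2
  rwa [h2] at h

/-- Quasi-periodicity of `σ`. -/
lemma exists_sigmaW_add {l : ℂ} (hl : l ∈ L.lattice) :
    ∃ C : ℂ, C ≠ 0 ∧ ∀ z, sigmaW L (z + l) = C * exp (etaW L l * z) * sigmaW L z := by
  have h0 := L.ω₁_div_two_notMem_lattice
  set w := L.ω₁ / 2 with hw
  set g : ℂ → ℂ := fun z => sigmaW L (z + l) * exp (-(etaW L l * z)) / sigmaW L z with hg
  have hd : ∀ x ∈ (L.lattice : Set ℂ)ᶜ, HasDerivAt g 0 x := by
    intro x hx
    have h1 := (hasDerivAt_sigmaW L (add_notMem L hx hl)).comp_add_const x l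
    have h2 : HasDerivAt (fun z => exp (-(etaW L l * z)))
        (exp (-(etaW L l * x)) * (-(etaW L l * 1))) x :=
      (((hasDerivAt_id' x).const_mul (etaW L l)).fun_neg).cexp
    have h3 := hasDerivAt_sigmaW L hx
    have h4 := (h1.mul h2).div h3 (sigmaW_ne_zero L hx)
    refine h4.congr_deriv ?_
    rw [zetaW_add L hx hl]
    have h5 := sigmaW_ne_zero L hx
    field_simp
    simp only [Pi.mul_apply]
    ring
  have hconst : Set.EqOn g (fun _ => g w) (L.lattice : Set ℂ)ᶜ := by
    refine IsOpen.eqOn_of_deriv_eq (𝕜 := ℂ) (isOpen_compl L) (isPreconnected_compl L)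
      (fun x hx => (hd x hx).differentiableAt.differentiableWithinAt)
      (fun x hx => (differentiableAt_const _).differentiableWithinAt)
      (fun x hx => by rw [(hd x hx).deriv, deriv_const]) (x := w) h0 rfl
  refine ⟨g w, ?_, ?_⟩
  · exact div_ne_zero (mul_ne_zero (sigmaW_ne_zero L (add_notMem L h0 hl)) (exp_ne_zero _))
      (sigmaW_ne_zero L h0)
  · intro z
    by_cases hz : z ∈ L.lattice
    · rw [sigmaW_eq_zero_of_mem L hz, sigmaW_eq_zero_of_mem L (add_mem hz hl), mul_zero]
    · have h5 := sigmaW_ne_zero L hz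
      have := hconst (x := z) hz
      simp only at this
      rw [← this, hg]
      simp only
      rw [exp_neg]
      have := exp_ne_zero (etaW L l * z)
      field_simp

end Pool.Agent.Lib.Ribet4b482e
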