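import Mathlib
import Pool.Agent.Lib.Ribet4b482e.Quasi

open Module Filter Topology Complex

noncomputable section
namespace Pool.Agent.Lib.Ribet4b482e

variable (L : PeriodPair)

lemma eventually_notMem {l : ℂ} : ∀ᶠ w in 𝓝[≠] l, w ∉ L.lattice := by
  have h1 := L.compl_lattice_sdiff_singleton_mem_nhds l
  filter_upwards [mem_nhdsWithin_of_mem_nhds h1, self_mem_nhdsWithin] with w hw hw' hw''
  exact hw ⟨hw'', hw'⟩

/-- Liouville's theorem for elliptic functions with removable singularities at lattice points. -/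
lemma eq_const_of_periodic {f g : ℂ → ℂ} (hf : DifferentiableOn ℂ f (L.lattice : Set ℂ)ᶜ)
    (hper : ∀ z, z ∉ L.lattice → ∀ l ∈ L.lattice, f (z + l) = f z)
    (hg : AnalyticAt ℂ g 0) (hfg : ∀ᶠ z in 𝓝[≠] 0, f z = g z) :
    ∀ z, z ∉ L.lattice → f z = g 0 := by
  classical
  set F : ℂ → ℂ := fun z => if z ∈ L.lattice then g 0 else f z with hF
  have hFper : ∀ z, ∀ l ∈ L.lattice, F (z + l) = F z := by
    intro z l hl
    by_cases hz : z ∈ L.lattice
    · simp [hF, hz, add_mem hz hl]
    · simp [hF, hz, add_notMem L hz hl, hper z hz l hl]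
  have hF0 : ∀ᶠ z in 𝓝 (0 : ℂ), F z = g z := by
    have h1 : ∀ᶠ z in 𝓝[≠] (0 : ℂ), F z = g z := by
      filter_upwards [hfg, eventually_notMem L (l := 0)] with z hz hz'
      simp [hF, hz', hz]
    rw [eventually_nhdsWithin_iff] at h1
    filter_upwards [h1] with z hz
    by_cases h0 : z = 0
    · simp [h0, hF]
    · exact hz h0
  have hFd : Differentiable ℂ F := by
    intro z
    by_cases hz : z ∈ L.lattice
    · have h1 : DifferentiableAt ℂ g (z - z) := by
        rw [sub_self]; exact hg.differentiableAt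
      have h2 : DifferentiableAt ℂ (fun w => g (w - z)) z :=
        h1.fun_comp' (f := fun w => w - z) z (differentiableAt_id.sub_const z)
      refine h2.congr_of_eventuallyEq ?_
      have h3 : Tendsto (fun w => w - z) (𝓝 z) (𝓝 0) := by
        have : ContinuousAt (fun w : ℂ => w - z) z := by fun_prop
        simpa [ContinuousAt] using this
      filter_upwards [h3.eventually hF0] with w hw
      rw [← hw, ← hFper (w - z) z hz, sub_add_cancel]
    · refine (hf.differentiableAt (compl_mem_nhds L hz)).congr_of_eventuallyEq ?_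
      filter_upwards [compl_mem_nhds L hz] with w hw
      have : w ∉ L.lattice := hw
      simp [hF, this]
  intro z hz
  have h := hFd.apply_eq_apply_of_bounded
    (IsZLattice.isCompact_range_of_periodic L.lattice _ hFd.continuous
      fun z w hw ↦ hFper z w hw).isBounded z 0
  simpa [hF, hz] using h

/-- A function analytic at `0` vanishing to order two is divisible by `z²`. -/
lemma exists_eq_sq_mul {h : ℂ → ℂ} (hh : AnalyticAt ℂ h 0) (h0 : h 0 = 0) (h1 : deriv h 0 = 0) :
    ∃ k : ℂ → ℂ, AnalyticAt ℂ k 0 ∧ ∀ᶠ z in 𝓝 0, h z = z ^ 2 * k z := by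
  have h2 : ((2 : ℕ) : ℕ∞) ≤ analyticOrderAt h 0 := by
    rw [natCast_le_analyticOrderAt_iff_iteratedDeriv_eq_zero hh]
    intro i hi
    interval_cases i
    · simpa using h0
    · simpa using h1
  rw [natCast_le_analyticOrderAt hh] at h2
  obtain ⟨k, hk, hk2⟩ := h2
  exact ⟨k, hk, by simpa using hk2⟩

lemma deriv_zero_of_even {h : ℂ → ℂ} (he : ∀ z, h (-z) = h z) : deriv h 0 = 0 := by
  have h1 : deriv (fun z => h (-z)) 0 = - deriv h 0 := by
    simpa using deriv_comp_neg h 0
  have h2 : (fun z => h (-z)) = h := funext he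
  rw [h2] at h1
  have : (2 : ℂ) * deriv h 0 = 0 := by linear_combination h1
  simpa using this

/-- The function `s(z) = σ(z)/z`, entire, even and with `s(0) = 1`. -/
def sig0 (z : ℂ) : ℂ := ∏' l : L.lattice, elemFac (z / l)

lemma sigmaW_eq_mul (z : ℂ) : sigmaW L z = z * sig0 L z := rfl

lemma sig0_zero : sig0 L 0 = 1 := by simp [sig0]

lemma sig0_neg (z : ℂ) : sig0 L (-z) = sig0 L z := by
  rw [sig0, sig0, ← (Equiv.neg L.lattice).tprod_eq]
  simp

lemma differentiable_sig0 : Differentiable ℂ (sig0 L) := differentiable_tprod_elemFac L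

lemma weierstrassP_eq_add {z : ℂ} :
    L.weierstrassP z = L.weierstrassPExcept 0 z + 1 / z ^ 2 := by
  have := L.weierstrassPExcept_add 0 z
  simpa using this.symm

/-- `σ(u+v)σ(u-v) = (℘(v) - ℘(u)) σ(u)² σ(v)²`. -/
lemma sigmaW_mul_sigmaW {u v : ℂ} (hu : u ∉ L.lattice) (hv : v ∉ L.lattice) :
    sigmaW L (u + v) * sigmaW L (u - v) =
      (L.weierstrassP v - L.weierstrassP u) * sigmaW L u ^ 2 * sigmaW L v ^ 2 := by
  have hσv := sigmaW_ne_zero L hv
  have hσu := sigmaW_ne_zero L hu
  set f : ℂ → ℂ := fun u => sigmaW L (u + v) * sigmaW L (u - v) / (sigmaW L u ^ 2 * sigmaW L v ^ 2)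
    + L.weierstrassP u with hf
  set h : ℂ → ℂ := fun u =>
    sigmaW L (u + v) * sigmaW L (u - v) / (sig0 L u ^ 2 * sigmaW L v ^ 2) + 1 with hh
  have hd := differentiable_sigmaW L
  have hd0 := differentiable_sig0 L
  have hda : ∀ z, AnalyticAt ℂ (sigmaW L) z := fun z =>
    (Complex.analyticOnNhd_univ_iff_differentiable.mpr hd) z (Set.mem_univ _)
  have hda0 : ∀ z, AnalyticAt ℂ (sig0 L) z := fun z =>
    (Complex.analyticOnNhd_univ_iff_differentiable.mpr hd0) z (Set.mem_univ _)
  have hne0 : sig0 L 0 ^ 2 * sigmaW L v ^ 2 ≠ 0 := by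
    simp [sig0_zero, hσv]
  have hhan : AnalyticAt ℂ h 0 := by
    have h1 : AnalyticAt ℂ (fun u => sigmaW L (u + v)) 0 := by
      have := (hda (0 + v)).fun_comp (g := sigmaW L) (f := fun u => u + v) (by fun_prop)
      exact this
    have h2 : AnalyticAt ℂ (fun u => sigmaW L (u - v)) 0 := by
      have := (hda (0 - v)).fun_comp (g := sigmaW L) (f := fun u => u - v) (by fun_prop)
      exact this
    have h3 := hda0 0
    exact ((h1.mul h2).div ((h3.pow 2).mul analyticAt_const) hne0).add analyticAt_const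
  have hh0 : h 0 = 0 := by
    simp only [hh, zero_add, zero_sub, sigmaW_neg, sig0_zero]
    field_simp
    ring
  have hheven : ∀ z, h (-z) = h z := by
    intro z
    simp only [hh, sig0_neg]
    rw [show -z + v = -(z - v) by ring, show -z - v = -(z + v) by ring, sigmaW_neg, sigmaW_neg]
    ring
  obtain ⟨k, hk, hk2⟩ := exists_eq_sq_mul hhan hh0 (deriv_zero_of_even hheven)
  have hfdiff : DifferentiableOn ℂ f (L.lattice : Set ℂ)ᶜ := by
    intro z hz
    have hz' := sigmaW_ne_zero L hz
    have h4 := (L.differentiableOn_weierstrassP).differentiableAt (compl_mem_nhds L hz)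
    have h5 : DifferentiableAt ℂ (fun u => sigmaW L (u + v)) z :=
      (hd (z + v)).comp z (differentiableAt_id.add_const v)
    have h6 : DifferentiableAt ℂ (fun u => sigmaW L (u - v)) z :=
      (hd (z - v)).comp z (differentiableAt_id.sub_const v)
    have h7 : DifferentiableAt ℂ (fun u => sigmaW L u ^ 2 * sigmaW L v ^ 2) z :=
      ((hd z).pow 2).mul_const _
    exact (((h5.mul h6).div h7
      (mul_ne_zero (pow_ne_zero 2 hz') (pow_ne_zero 2 hσv))).add h4).differentiableWithinAt
  have hper : ∀ z, z ∉ L.lattice → ∀ l ∈ L.lattice, f (z + l) = f z := by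
    intro z hz l hl
    obtain ⟨C, hC, hCl⟩ := exists_sigmaW_add L hl
    have hz' := sigmaW_ne_zero L hz
    simp only [hf]
    rw [L.weierstrassP_add_coe z ⟨l, hl⟩, show z + l + v = (z + v) + l by ring,
      show z + l - v = (z - v) + l by ring, hCl, hCl, hCl]
    congr 1
    have e1 : exp (etaW L l * (z + v)) * exp (etaW L l * (z - v)) = exp (etaW L l * z) ^ 2 := by
      rw [← exp_add, ← exp_nat_mul]
      congr 1
      push_cast
      ring
    have e2 := exp_ne_zero (etaW L l * z)
    rw [show C * exp (etaW L l * (z + v)) * sigmaW L (z + v) *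
      (C * exp (etaW L l * (z - v)) * sigmaW L (z - v)) =
      C ^ 2 * (exp (etaW L l * (z + v)) * exp (etaW L l * (z - v))) *
        (sigmaW L (z + v) * sigmaW L (z - v)) by ring, e1]
    field_simp
  have hfg : ∀ᶠ z in 𝓝[≠] 0, f z = k z + L.weierstrassPExcept 0 z := by
    filter_upwards [mem_nhdsWithin_of_mem_nhds hk2, self_mem_nhdsWithin,
      eventually_notMem L (l := 0)] with z hz hz0 hz'
    have hz0' : z ≠ 0 := hz0
    have hs : sig0 L z ≠ 0 := by
      have := sigmaW_ne_zero L hz'
      rw [sigmaW_eq_mul] at this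
      exact right_ne_zero_of_mul this
    have hz3 : h z = z ^ 2 * k z := hz
    have : k z = h z / z ^ 2 := by rw [hz3]; field_simp
    rw [this]
    simp only [hf, hh, weierstrassP_eq_add, sigmaW_eq_mul L z]
    field_simp
    ring
  have hg : AnalyticAt ℂ (fun z => k z + L.weierstrassPExcept 0 z) 0 :=
    hk.add (L.analyticAt_weierstrassPExcept 0)
  have key := eq_const_of_periodic L hfdiff hper hg hfg
  have hu2 := key u hu
  have hv2 := key v hv
  have : f u = f v := hu2.trans hv2.symm
  simp only [hf, sub_self, sigmaW_zero, mul_zero, zero_div, zero_add] at this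
  field_simp at this
  linear_combination this

end Pool.Agent.Lib.Ribet4b482e
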