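import Mathlib
import Pool.Agent.Lib.Ribet4b482e.Liouville

open Module Filter Topology Complex

noncomputable section
namespace Pool.Agent.Lib.Ribet4b482e

variable (L : PeriodPair)

lemma weierstrassP_ne {u v : ℂ} (hu : u ∉ L.lattice) (hv : v ∉ L.lattice)
    (huv : u + v ∉ L.lattice) (huv' : u - v ∉ L.lattice) :
    L.weierstrassP u ≠ L.weierstrassP v := by
  intro h
  have := sigmaW_mul_sigmaW L hu hv
  rw [h, sub_self, zero_mul, zero_mul] at this
  exact mul_ne_zero (sigmaW_ne_zero L huv) (sigmaW_ne_zero L huv') this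

lemma hasDerivAt_weierstrassP {z : ℂ} (hz : z ∉ L.lattice) :
    HasDerivAt L.weierstrassP (L.derivWeierstrassP z) z := by
  have := (L.differentiableOn_weierstrassP.differentiableAt (compl_mem_nhds L hz)).hasDerivAt
  rwa [L.deriv_weierstrassP] at this

/-- `℘'(z)` vanishes exactly when `2z ∈ Λ`; more precisely `σ(2v) = -℘'(v) σ(v)⁴`. -/
lemma sigmaW_two_mul {v : ℂ} (hv : v ∉ L.lattice) :
    sigmaW L (2 * v) = - L.derivWeierstrassP v * sigmaW L v ^ 4 := by
  have hd := differentiable_sigmaW L
  -- differentiate the product formula at `u = v`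
  have h1 : HasDerivAt (fun u => sigmaW L (u + v) * sigmaW L (u - v))
      (deriv (sigmaW L) (v + v) * sigmaW L (v - v) + sigmaW L (v + v) * 1) v := by
    have a1 : HasDerivAt (fun u => sigmaW L (u + v)) (deriv (sigmaW L) (v + v)) v :=
      (hd (v + v)).hasDerivAt.comp_add_const v v
    have a2 : HasDerivAt (fun u => sigmaW L (u - v)) 1 v := by
      have : HasDerivAt (sigmaW L) 1 (v - v) := by rw [sub_self]; exact hasDerivAt_sigmaW_zero L
      exact this.comp_sub_const v v
    exact a1.mul a2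
  have h2 : HasDerivAt (fun u => (L.weierstrassP v - L.weierstrassP u) * (sigmaW L u ^ 2 *
      sigmaW L v ^ 2)) ((- L.derivWeierstrassP v) * (sigmaW L v ^ 2 * sigmaW L v ^ 2) +
      (L.weierstrassP v - L.weierstrassP v) *
        deriv (fun u => sigmaW L u ^ 2 * sigmaW L v ^ 2) v) v := by
    have a1 : HasDerivAt (fun u => L.weierstrassP v - L.weierstrassP u)
        (- L.derivWeierstrassP v) v := (hasDerivAt_weierstrassP L hv).const_sub _
    have a2 : DifferentiableAt ℂ (fun u => sigmaW L u ^ 2 * sigmaW L v ^ 2) v :=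
      ((hd v).pow 2).mul_const _
    exact a1.mul a2.hasDerivAt
  have h3 : (fun u => sigmaW L (u + v) * sigmaW L (u - v)) =ᶠ[𝓝 v]
      (fun u => (L.weierstrassP v - L.weierstrassP u) * (sigmaW L u ^ 2 *
      sigmaW L v ^ 2)) := by
    filter_upwards [compl_mem_nhds L hv] with u hu
    rw [sigmaW_mul_sigmaW L hu hv]
    ring
  have h4 := (h1.congr_of_eventuallyEq h3.symm).unique h2
  rw [sub_self, sigmaW_zero, sub_self] at h4
  rw [two_mul]
  linear_combination h4

lemma derivWeierstrassP_ne_zero {v : ℂ} (hv : v ∉ L.lattice) (h2v : 2 * v ∉ L.lattice) :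
    L.derivWeierstrassP v ≠ 0 := by
  intro h
  have := sigmaW_two_mul L hv
  rw [h, neg_zero, zero_mul] at this
  exact sigmaW_ne_zero L h2v this

lemma derivWeierstrassP_eq_zero {v : ℂ} (h2v : 2 * v ∈ L.lattice) :
    L.derivWeierstrassP v = 0 := by
  have h := L.derivWeierstrassP_add_coe (-v) ⟨2 * v, h2v⟩
  rw [show -v + (⟨2 * v, h2v⟩ : L.lattice) = v by simp; ring, L.derivWeierstrassP_neg] at h
  linear_combination h / 2

/-- Addition theorem for `ζ`, first form. -/
lemma zetaW_add_sub {u v : ℂ} (hu : u ∉ L.lattice) (hv : v ∉ L.lattice)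
    (huv : u + v ∉ L.lattice) (huv' : u - v ∉ L.lattice) :
    zetaW L (u + v) + zetaW L (u - v) - 2 * zetaW L u =
      L.derivWeierstrassP u / (L.weierstrassP u - L.weierstrassP v) := by
  have hne := weierstrassP_ne L hu hv huv huv'
  have hne' : L.weierstrassP u - L.weierstrassP v ≠ 0 := sub_ne_zero.mpr hne
  have a1 : HasDerivAt (fun u => sigmaW L (u + v)) (zetaW L (u + v) * sigmaW L (u + v)) u :=
    (hasDerivAt_sigmaW L huv).comp_add_const u v
  have a2 : HasDerivAt (fun u => sigmaW L (u - v)) (zetaW L (u - v) * sigmaW L (u - v)) u :=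
    (hasDerivAt_sigmaW L huv').comp_sub_const u v
  have h1 := a1.mul a2
  have b1 : HasDerivAt (fun u => L.weierstrassP v - L.weierstrassP u)
        (- L.derivWeierstrassP u) u := (hasDerivAt_weierstrassP L hu).const_sub _
  have b2 : HasDerivAt (fun u => sigmaW L u ^ 2) (2 * sigmaW L u ^ 1 *
      (zetaW L u * sigmaW L u)) u := by
    simpa using (hasDerivAt_sigmaW L hu).fun_pow 2
  have h2 := (b1.mul b2).mul_const (sigmaW L v ^ 2)
  have h3 : (fun u => sigmaW L (u + v)) * (fun u => sigmaW L (u - v)) =ᶠ[𝓝 u]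
      (fun y => ((fun u => L.weierstrassP v - L.weierstrassP u) *
        (fun u => sigmaW L u ^ 2)) y * sigmaW L v ^ 2) := by
    filter_upwards [compl_mem_nhds L hu] with w hw
    simp only [Pi.mul_apply]
    rw [sigmaW_mul_sigmaW L hw hv]
  have h4 := (h1.congr_of_eventuallyEq h3.symm).unique h2
  have h5 := sigmaW_mul_sigmaW L hu hv
  have hs1 := sigmaW_ne_zero L hu
  have hs2 := sigmaW_ne_zero L hv
  rw [eq_div_iff hne']
  have h6 : (sigmaW L u ^ 2 * sigmaW L v ^ 2) ≠ 0 := by positivity
  have h7 : (zetaW L (u + v) + zetaW L (u - v)) * (sigmaW L (u + v) * sigmaW L (u - v)) =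
      (- L.derivWeierstrassP u + 2 * zetaW L u * (L.weierstrassP v - L.weierstrassP u)) *
        (sigmaW L u ^ 2 * sigmaW L v ^ 2) := by
    linear_combination h4
  rw [h5] at h7
  have h8 : (zetaW L (u + v) + zetaW L (u - v)) * (L.weierstrassP v - L.weierstrassP u) =
      (- L.derivWeierstrassP u + 2 * zetaW L u * (L.weierstrassP v - L.weierstrassP u)) := by
    apply mul_right_cancel₀ h6
    linear_combination h7
  linear_combination -h8

/-- Addition theorem for `ζ`. -/
lemma zetaW_add_eq {u v : ℂ} (hu : u ∉ L.lattice) (hv : v ∉ L.lattice)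
    (huv : u + v ∉ L.lattice) (huv' : u - v ∉ L.lattice) :
    zetaW L (u + v) = zetaW L u + zetaW L v +
      (L.derivWeierstrassP u - L.derivWeierstrassP v) /
        (L.weierstrassP u - L.weierstrassP v) / 2 := by
  have h1 := zetaW_add_sub L hu hv huv huv'
  have hvu' : v - u ∉ L.lattice := fun h => huv' (by simpa using neg_mem h)
  have h2 := zetaW_add_sub L hv hu (by rwa [add_comm]) hvu'
  have hne' : L.weierstrassP u - L.weierstrassP v ≠ 0 :=
    sub_ne_zero.mpr (weierstrassP_ne L hu hv huv huv')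
  have h3 : zetaW L (v - u) = - zetaW L (u - v) := by
    rw [← zetaW_neg]; congr 1; ring
  rw [h3, add_comm v u, show L.weierstrassP v - L.weierstrassP u =
    -(L.weierstrassP u - L.weierstrassP v) by ring, div_neg] at h2
  rw [sub_div]
  linear_combination (h1 + h2) / 2

/-- `℘'' = 6℘² - g₂/2`. -/
lemma hasDerivAt_derivWeierstrassP {z : ℂ} (hz : z ∉ L.lattice) :
    HasDerivAt L.derivWeierstrassP (6 * L.weierstrassP z ^ 2 - L.g₂ / 2) z := by
  have hd : ∀ {z : ℂ}, z ∉ L.lattice → HasDerivAt L.derivWeierstrassP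
      (deriv L.derivWeierstrassP z) z := fun {z} hz =>
    (L.differentiableOn_derivWeierstrassP.differentiableAt (compl_mem_nhds L hz)).hasDerivAt
  -- it suffices to compute the derivative
  suffices h : Set.EqOn (deriv L.derivWeierstrassP) (fun z => 6 * L.weierstrassP z ^ 2 - L.g₂ / 2)
      (L.lattice : Set ℂ)ᶜ by
    have := hd hz
    rwa [h hz] at this
  have hmul : ∀ z ∈ (L.lattice : Set ℂ)ᶜ, L.derivWeierstrassP z *
      (deriv L.derivWeierstrassP z - (6 * L.weierstrassP z ^ 2 - L.g₂ / 2)) = 0 := by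
    intro z hz
    have h1 : HasDerivAt (fun z => L.derivWeierstrassP z ^ 2) (2 * L.derivWeierstrassP z ^ 1 *
        deriv L.derivWeierstrassP z) z := by simpa using (hd hz).fun_pow 2
    have h2 : HasDerivAt (fun z => 4 * L.weierstrassP z ^ 3 - L.g₂ * L.weierstrassP z - L.g₃)
        (4 * (3 * L.weierstrassP z ^ 2 * L.derivWeierstrassP z) -
          L.g₂ * L.derivWeierstrassP z) z := by
      have hP := hasDerivAt_weierstrassP L hz
      have := ((hP.fun_pow 3).const_mul 4).fun_sub (hP.const_mul L.g₂)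
      simpa using this.sub_const L.g₃
    have h3 : (fun z => L.derivWeierstrassP z ^ 2) =ᶠ[𝓝 z]
        (fun z => 4 * L.weierstrassP z ^ 3 - L.g₂ * L.weierstrassP z - L.g₃) := by
      filter_upwards [compl_mem_nhds L hz] with w hw
      exact L.derivWeierstrassP_sq w hw
    have h4 := (h1.congr_of_eventuallyEq h3.symm).unique h2
    linear_combination h4 / 2
  have hP' : AnalyticOnNhd ℂ L.derivWeierstrassP (L.lattice : Set ℂ)ᶜ :=
    L.analyticOnNhd_derivWeierstrassP
  have hP : AnalyticOnNhd ℂ L.weierstrassP (L.lattice : Set ℂ)ᶜ :=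
    L.analyticOnNhd_weierstrassP
  have hE : AnalyticOnNhd ℂ (fun z => deriv L.derivWeierstrassP z -
      (6 * L.weierstrassP z ^ 2 - L.g₂ / 2)) (L.lattice : Set ℂ)ᶜ := by
    intro z hz
    have h1 := (hP' z hz).deriv
    have h2 := hP z hz
    fun_prop
  have h := hP'.eq_zero_or_eq_zero_of_mul_eq_zero hE hmul (isPreconnected_compl L)
  rcases h with h | h
  · -- `℘'` is not identically zero
    exfalso
    have h1 := derivWeierstrassP_ne_zero L (v := L.ω₁ / 4) (by
      simpa [inv_mul_eq_div] using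
        (L.mul_ω₁_add_mul_ω₂_mem_lattice (α := 1 / 4) (β := 0)).not.mpr (by norm_num)) (by
      rw [show 2 * (L.ω₁ / 4) = L.ω₁ / 2 by ring]
      exact L.ω₁_div_two_notMem_lattice)
    apply h1
    apply h
    simpa [inv_mul_eq_div] using
        (L.mul_ω₁_add_mul_ω₂_mem_lattice (α := 1 / 4) (β := 0)).not.mpr (by norm_num)
  · intro z hz
    exact sub_eq_zero.mp (h z hz)

lemma eventually_good {u v : ℂ} (hu : u ∉ L.lattice)
    (huv : u + v ∉ L.lattice) (huv' : u - v ∉ L.lattice) :
    ∀ᶠ w in 𝓝 u, w ∉ L.lattice ∧ w + v ∉ L.lattice ∧ w - v ∉ L.lattice := by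
  have h1 : ContinuousAt (fun w : ℂ => w + v) u := by fun_prop
  have h2 : ContinuousAt (fun w : ℂ => w - v) u := by fun_prop
  filter_upwards [compl_mem_nhds L hu, h1.eventually (compl_mem_nhds L huv),
    h2.eventually (compl_mem_nhds L huv')] with w hw1 hw2 hw3
  exact ⟨hw1, hw2, hw3⟩

/-- The slope of the chord through the points `u`, `v`. -/
def slopeP (u v : ℂ) : ℂ :=
  (L.derivWeierstrassP u - L.derivWeierstrassP v) / (L.weierstrassP u - L.weierstrassP v)

lemma hasDerivAt_slopeP {u v : ℂ} (hu : u ∉ L.lattice) (hv : v ∉ L.lattice)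
    (huv : u + v ∉ L.lattice) (huv' : u - v ∉ L.lattice) :
    HasDerivAt (fun u => slopeP L u v) (2 * (L.weierstrassP u - L.weierstrassP (u + v))) u := by
  have h1 : (fun w => slopeP L w v) =ᶠ[𝓝 u]
      (fun w => 2 * (zetaW L (w + v) - zetaW L w - zetaW L v)) := by
    filter_upwards [eventually_good L hu huv huv'] with w hw
    have := zetaW_add_eq L hw.1 hv hw.2.1 hw.2.2
    rw [slopeP]
    linear_combination -2 * this
  have h2 : HasDerivAt (fun w => 2 * (zetaW L (w + v) - zetaW L w - zetaW L v))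
      (2 * (-L.weierstrassP (u + v) - -L.weierstrassP u)) u := by
    have a1 := (hasDerivAt_zetaW L huv).comp_add_const u v
    exact ((a1.sub (hasDerivAt_zetaW L hu)).sub_const (zetaW L v)).const_mul 2
  refine (h2.congr_of_eventuallyEq h1).congr_deriv ?_
  ring

/-- Addition theorem for `℘`. -/
lemma weierstrassP_add {u v : ℂ} (hu : u ∉ L.lattice) (hv : v ∉ L.lattice)
    (huv : u + v ∉ L.lattice) (huv' : u - v ∉ L.lattice) :
    L.weierstrassP (u + v) = - L.weierstrassP u - L.weierstrassP v + slopeP L u v ^ 2 / 4 := by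
  have hne' : L.weierstrassP u - L.weierstrassP v ≠ 0 :=
    sub_ne_zero.mpr (weierstrassP_ne L hu hv huv huv')
  have h1 := hasDerivAt_slopeP L hu hv huv huv'
  have h2 : HasDerivAt (fun u => slopeP L u v)
      (((6 * L.weierstrassP u ^ 2 - L.g₂ / 2) * (L.weierstrassP u - L.weierstrassP v) -
        (L.derivWeierstrassP u - L.derivWeierstrassP v) * L.derivWeierstrassP u) /
        (L.weierstrassP u - L.weierstrassP v) ^ 2) u :=
    ((hasDerivAt_derivWeierstrassP L hu).sub_const _).fun_div
      ((hasDerivAt_weierstrassP L hu).sub_const _) hne'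
  have h3 := h1.unique h2
  have e1 := L.derivWeierstrassP_sq u hu
  have e2 := L.derivWeierstrassP_sq v hv
  rw [slopeP]
  have h4 : L.weierstrassP (u + v) = L.weierstrassP u -
    (((6 * L.weierstrassP u ^ 2 - L.g₂ / 2) * (L.weierstrassP u - L.weierstrassP v) -
        (L.derivWeierstrassP u - L.derivWeierstrassP v) * L.derivWeierstrassP u) /
        (L.weierstrassP u - L.weierstrassP v) ^ 2) / 2 := by linear_combination -h3 / 2
  rw [h4]
  field_simp
  linear_combination 4 * e1 - 4 * e2

/-- Addition theorem for `℘'`. -/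
lemma derivWeierstrassP_add {u v : ℂ} (hu : u ∉ L.lattice) (hv : v ∉ L.lattice)
    (huv : u + v ∉ L.lattice) (huv' : u - v ∉ L.lattice) :
    L.derivWeierstrassP (u + v) = - L.derivWeierstrassP u +
      slopeP L u v * (L.weierstrassP u - L.weierstrassP (u + v)) := by
  have h1 : HasDerivAt (fun w => L.weierstrassP (w + v)) (L.derivWeierstrassP (u + v)) u :=
    (hasDerivAt_weierstrassP L huv).comp_add_const u v
  have h2 : (fun w => L.weierstrassP (w + v)) =ᶠ[𝓝 u]
      (fun w => - L.weierstrassP w - L.weierstrassP v + slopeP L w v ^ 2 / 4) := by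
    filter_upwards [eventually_good L hu huv huv'] with w hw
    exact weierstrassP_add L hw.1 hv hw.2.1 hw.2.2
  have h3 : HasDerivAt (fun w => - L.weierstrassP w - L.weierstrassP v + slopeP L w v ^ 2 / 4)
      (- L.derivWeierstrassP u + (2 * slopeP L u v ^ 1 *
        (2 * (L.weierstrassP u - L.weierstrassP (u + v)))) / 4) u := by
    have a1 := ((hasDerivAt_weierstrassP L hu).fun_neg).sub_const (L.weierstrassP v)
    have a2 := ((hasDerivAt_slopeP L hu hv huv huv').fun_pow 2).div_const 4
    simpa using a1.fun_add a2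
  have h4 := h1.unique (h3.congr_of_eventuallyEq h2)
  rw [h4]
  ring

lemma tendsto_slopeP {v : ℂ} (hv : v ∉ L.lattice) (h2v : 2 * v ∉ L.lattice) :
    Tendsto (fun u => slopeP L u v) (𝓝[≠] v)
      (𝓝 ((6 * L.weierstrassP v ^ 2 - L.g₂ / 2) / L.derivWeierstrassP v)) := by
  have h1 := (hasDerivAt_derivWeierstrassP L hv).tendsto_slope
  have h2 := (hasDerivAt_weierstrassP L hv).tendsto_slope
  have h3 := h1.div h2 (derivWeierstrassP_ne_zero L hv h2v)
  refine h3.congr' ?_
  filter_upwards [self_mem_nhdsWithin] with u hu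
  have : u - v ≠ 0 := sub_ne_zero.mpr hu
  simp only [slope_def_field, slopeP, Pi.div_apply]
  field_simp

/-- Duplication formulas. -/
lemma weierstrassP_two_mul {v : ℂ} (hv : v ∉ L.lattice) (h2v : 2 * v ∉ L.lattice) :
    L.weierstrassP (2 * v) = -2 * L.weierstrassP v +
      ((6 * L.weierstrassP v ^ 2 - L.g₂ / 2) / L.derivWeierstrassP v) ^ 2 / 4 := by
  have hvv : v + v ∉ L.lattice := by rwa [← two_mul]
  have h1 : Tendsto (fun u => L.weierstrassP (u + v)) (𝓝[≠] v) (𝓝 (L.weierstrassP (2 * v))) := by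
    have a1 : ContinuousAt (fun w => L.weierstrassP (w + v)) v :=
      ((hasDerivAt_weierstrassP L hvv).comp_add_const v v).continuousAt
    rw [two_mul]
    exact a1.tendsto.mono_left nhdsWithin_le_nhds
  have h2 : Tendsto (fun u => - L.weierstrassP u - L.weierstrassP v + slopeP L u v ^ 2 / 4)
      (𝓝[≠] v) (𝓝 (- L.weierstrassP v - L.weierstrassP v +
        ((6 * L.weierstrassP v ^ 2 - L.g₂ / 2) / L.derivWeierstrassP v) ^ 2 / 4)) := by
    have a1 : Tendsto (fun u => L.weierstrassP u) (𝓝[≠] v) (𝓝 (L.weierstrassP v)) :=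
      (hasDerivAt_weierstrassP L hv).continuousAt.tendsto.mono_left nhdsWithin_le_nhds
    exact (a1.neg.sub_const _).add (((tendsto_slopeP L hv h2v).pow 2).div_const 4)
  have h3 : (fun u => L.weierstrassP (u + v)) =ᶠ[𝓝[≠] v]
      (fun u => - L.weierstrassP u - L.weierstrassP v + slopeP L u v ^ 2 / 4) := by
    have b1 : ∀ᶠ u in 𝓝[≠] v, u ∉ L.lattice := mem_nhdsWithin_of_mem_nhds (compl_mem_nhds L hv)
    have b2 : ∀ᶠ u in 𝓝[≠] v, u + v ∉ L.lattice := by
      have : ContinuousAt (fun w : ℂ => w + v) v := by fun_prop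
      exact mem_nhdsWithin_of_mem_nhds (this.eventually (compl_mem_nhds L hvv))
    have b3 : ∀ᶠ u in 𝓝[≠] v, u - v ∉ L.lattice := by
      have : Tendsto (fun w : ℂ => w - v) (𝓝[≠] v) (𝓝[≠] 0) := by
        refine tendsto_nhdsWithin_iff.mpr ⟨?_, ?_⟩
        · have : ContinuousAt (fun w : ℂ => w - v) v := by fun_prop
          have := this.tendsto
          rw [sub_self] at this
          exact this.mono_left nhdsWithin_le_nhds
        · filter_upwards [self_mem_nhdsWithin] with w hw
          exact sub_ne_zero.mpr hw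
      exact this.eventually (eventually_notMem L (l := 0))
    filter_upwards [b1, b2, b3] with u h1 h2 h3
    exact weierstrassP_add L h1 hv h2 h3
  rw [tendsto_nhds_unique h1 (h2.congr' h3.symm)]
  ring

lemma derivWeierstrassP_two_mul {v : ℂ} (hv : v ∉ L.lattice) (h2v : 2 * v ∉ L.lattice) :
    L.derivWeierstrassP (2 * v) = - L.derivWeierstrassP v +
      ((6 * L.weierstrassP v ^ 2 - L.g₂ / 2) / L.derivWeierstrassP v) *
        (L.weierstrassP v - L.weierstrassP (2 * v)) := by
  have hvv : v + v ∉ L.lattice := by rwa [← two_mul]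
  have h0 : Tendsto (fun u => L.weierstrassP (u + v)) (𝓝[≠] v) (𝓝 (L.weierstrassP (2 * v))) := by
    have a1 : ContinuousAt (fun w => L.weierstrassP (w + v)) v :=
      ((hasDerivAt_weierstrassP L hvv).comp_add_const v v).continuousAt
    rw [two_mul]
    exact a1.tendsto.mono_left nhdsWithin_le_nhds
  have h1 : Tendsto (fun u => L.derivWeierstrassP (u + v)) (𝓝[≠] v)
      (𝓝 (L.derivWeierstrassP (2 * v))) := by
    have a1 : ContinuousAt (fun w => L.derivWeierstrassP (w + v)) v :=
      ((hasDerivAt_derivWeierstrassP L hvv).comp_add_const v v).continuousAt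
    rw [two_mul]
    exact a1.tendsto.mono_left nhdsWithin_le_nhds
  have h2 : Tendsto (fun u => - L.derivWeierstrassP u +
        slopeP L u v * (L.weierstrassP u - L.weierstrassP (u + v)))
      (𝓝[≠] v) (𝓝 (- L.derivWeierstrassP v +
      ((6 * L.weierstrassP v ^ 2 - L.g₂ / 2) / L.derivWeierstrassP v) *
        (L.weierstrassP v - L.weierstrassP (2 * v)))) := by
    have a1 : Tendsto (fun u => L.weierstrassP u) (𝓝[≠] v) (𝓝 (L.weierstrassP v)) :=
      (hasDerivAt_weierstrassP L hv).continuousAt.tendsto.mono_left nhdsWithin_le_nhds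
    have a2 : Tendsto (fun u => L.derivWeierstrassP u) (𝓝[≠] v) (𝓝 (L.derivWeierstrassP v)) :=
      (hasDerivAt_derivWeierstrassP L hv).continuousAt.tendsto.mono_left nhdsWithin_le_nhds
    exact a2.neg.add ((tendsto_slopeP L hv h2v).mul (a1.sub h0))
  have h3 : (fun u => L.derivWeierstrassP (u + v)) =ᶠ[𝓝[≠] v]
      (fun u => - L.derivWeierstrassP u +
        slopeP L u v * (L.weierstrassP u - L.weierstrassP (u + v))) := by
    have b1 : ∀ᶠ u in 𝓝[≠] v, u ∉ L.lattice := mem_nhdsWithin_of_mem_nhds (compl_mem_nhds L hv)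
    have b2 : ∀ᶠ u in 𝓝[≠] v, u + v ∉ L.lattice := by
      have : ContinuousAt (fun w : ℂ => w + v) v := by fun_prop
      exact mem_nhdsWithin_of_mem_nhds (this.eventually (compl_mem_nhds L hvv))
    have b3 : ∀ᶠ u in 𝓝[≠] v, u - v ∉ L.lattice := by
      have : Tendsto (fun w : ℂ => w - v) (𝓝[≠] v) (𝓝[≠] 0) := by
        refine tendsto_nhdsWithin_iff.mpr ⟨?_, ?_⟩
        · have : ContinuousAt (fun w : ℂ => w - v) v := by fun_prop
          have := this.tendsto
          rw [sub_self] at this
          exact this.mono_left nhdsWithin_le_nhds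
        · filter_upwards [self_mem_nhdsWithin] with w hw
          exact sub_ne_zero.mpr hw
      exact this.eventually (eventually_notMem L (l := 0))
    filter_upwards [b1, b2, b3] with u h1 h2 h3
    exact derivWeierstrassP_add L h1 hv h2 h3
  exact tendsto_nhds_unique h1 (h2.congr' h3.symm)

/-- `℘(u) = ℘(v)` only if `u ≡ ±v`. -/
lemma weierstrassP_eq_iff {u v : ℂ} (hu : u ∉ L.lattice) (hv : v ∉ L.lattice) :
    L.weierstrassP u = L.weierstrassP v ↔ u + v ∈ L.lattice ∨ u - v ∈ L.lattice := by
  constructor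
  · intro h
    by_contra h'
    push Not at h'
    exact weierstrassP_ne L hu hv h'.1 h'.2 h
  · rintro (h | h)
    · have := L.weierstrassP_add_coe (-v) ⟨u + v, h⟩
      rw [show -v + ((⟨u + v, h⟩ : L.lattice) : ℂ) = u by simp, L.weierstrassP_neg] at this
      exact this
    · have := L.weierstrassP_add_coe v ⟨u - v, h⟩
      rw [show v + ((⟨u - v, h⟩ : L.lattice) : ℂ) = u by simp] at this
      exact this

/-- The set of `z` such that `z ∈ Λ` or both `℘(z)` and `℘'(z)` lie in a given field
containing `g₂` is an additive subgroup. -/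
def pointSubgroup (K : Subfield ℂ) (hg : L.g₂ ∈ K) : AddSubgroup ℂ where
  carrier := {z | z ∈ L.lattice ∨ (L.weierstrassP z ∈ K ∧ L.derivWeierstrassP z ∈ K)}
  zero_mem' := Or.inl (zero_mem _)
  neg_mem' := by
    rintro z (hz | hz)
    · exact Or.inl (neg_mem hz)
    · right
      rw [L.weierstrassP_neg, L.derivWeierstrassP_neg]
      exact ⟨hz.1, neg_mem hz.2⟩
  add_mem' := by
    intro u v hu hv
    by_cases hul : u ∈ L.lattice
    · rcases hv with hv | hv
      · exact Or.inl (add_mem hul hv)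
      · right
        have h1 := L.weierstrassP_add_coe v ⟨u, hul⟩
        have h2 := L.derivWeierstrassP_add_coe v ⟨u, hul⟩
        simp only at h1 h2
        rw [add_comm u v, h1, h2]
        exact hv
    by_cases hvl : v ∈ L.lattice
    · right
      have h1 := L.weierstrassP_add_coe u ⟨v, hvl⟩
      have h2 := L.derivWeierstrassP_add_coe u ⟨v, hvl⟩
      simp only at h1 h2
      rw [h1, h2]
      exact hu.resolve_left hul
    have hu' := hu.resolve_left hul
    have hv' := hv.resolve_left hvl
    by_cases huv : u + v ∈ L.lattice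
    · exact Or.inl huv
    right
    have h2K : (2 : ℂ) ∈ K := ofNat_mem K 2
    have h4K : (4 : ℂ) ∈ K := ofNat_mem K 4
    have h6K : (6 : ℂ) ∈ K := ofNat_mem K 6
    by_cases huv' : u - v ∈ L.lattice
    · -- `u ≡ v`: duplication
      have e1 : L.weierstrassP (u + v) = L.weierstrassP (2 * v) := by
        have := L.weierstrassP_add_coe (2 * v) ⟨u - v, huv'⟩
        rw [← this]; congr 1; simp; ring
      have e2 : L.derivWeierstrassP (u + v) = L.derivWeierstrassP (2 * v) := by
        have := L.derivWeierstrassP_add_coe (2 * v) ⟨u - v, huv'⟩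
        rw [← this]; congr 1; simp; ring
      have h2v : 2 * v ∉ L.lattice := by
        intro h
        apply huv
        have := add_mem h huv'
        rwa [show 2 * v + (u - v) = u + v by ring] at this
      have m1 : L.weierstrassP (2 * v) ∈ K := by
        rw [weierstrassP_two_mul L hvl h2v]
        refine add_mem (mul_mem (neg_mem h2K) hv'.1) (div_mem (pow_mem (div_mem ?_ hv'.2) 2) h4K)
        exact sub_mem (mul_mem h6K (pow_mem hv'.1 2)) (div_mem hg h2K)
      rw [e1, e2]
      refine ⟨m1, ?_⟩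
      rw [derivWeierstrassP_two_mul L hvl h2v]
      refine add_mem (neg_mem hv'.2) (mul_mem (div_mem ?_ hv'.2) (sub_mem hv'.1 m1))
      exact sub_mem (mul_mem h6K (pow_mem hv'.1 2)) (div_mem hg h2K)
    · have hs : slopeP L u v ∈ K :=
        div_mem (sub_mem hu'.2 hv'.2) (sub_mem hu'.1 hv'.1)
      have m1 : L.weierstrassP (u + v) ∈ K := by
        rw [weierstrassP_add L hul hvl huv huv']
        exact add_mem (sub_mem (neg_mem hu'.1) hv'.1) (div_mem (pow_mem hs 2) h4K)
      refine ⟨m1, ?_⟩
      rw [derivWeierstrassP_add L hul hvl huv huv']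
      exact add_mem (neg_mem hu'.2) (mul_mem hs (sub_mem hu'.1 m1))

end Pool.Agent.Lib.Ribet4b482e
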