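import Mathlib
import Pool.Agent.Lib.Ribet4b482e.Addition

open Module Filter Topology Complex

noncomputable section
namespace Pool.Agent.Lib.Ribet4b482e

variable (L : PeriodPair)

lemma I_mul_mem (hI : L.ω₂ = I * L.ω₁) {l : ℂ} (hl : l ∈ L.lattice) : I * l ∈ L.lattice := by
  rw [PeriodPair.mem_lattice] at hl ⊢
  obtain ⟨m, n, rfl⟩ := hl
  refine ⟨-n, m, ?_⟩
  rw [hI]
  push_cast
  linear_combination (-(n : ℂ) * L.ω₁) * I_mul_I

lemma I_mul_mem_iff (hI : L.ω₂ = I * L.ω₁) {l : ℂ} : I * l ∈ L.lattice ↔ l ∈ L.lattice := by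
  refine ⟨fun h => ?_, I_mul_mem L hI⟩
  have := neg_mem (I_mul_mem L hI h)
  rwa [← mul_assoc, I_mul_I, neg_one_mul, neg_neg] at this

/-- Multiplication by `i` as a permutation of a lattice with `ω₂ = i ω₁`. -/
def mulIEquiv (hI : L.ω₂ = I * L.ω₁) : L.lattice ≃ L.lattice where
  toFun l := ⟨I * l, I_mul_mem L hI l.2⟩
  invFun l := ⟨-(I * l), neg_mem (I_mul_mem L hI l.2)⟩
  left_inv l := by
    ext
    simp only
    linear_combination (-(l : ℂ)) * I_mul_I
  right_inv l := by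
    ext
    simp only
    linear_combination (-(l : ℂ)) * I_mul_I

@[simp] lemma mulIEquiv_coe (hI : L.ω₂ = I * L.ω₁) (l : L.lattice) :
    ((mulIEquiv L hI l : L.lattice) : ℂ) = I * l := rfl

lemma weierstrassP_I_mul (hI : L.ω₂ = I * L.ω₁) (z : ℂ) :
    L.weierstrassP (I * z) = - L.weierstrassP z := by
  simp only [PeriodPair.weierstrassP]
  rw [← (mulIEquiv L hI).tsum_eq, ← tsum_neg]
  congr with l
  rw [mulIEquiv_coe, ← mul_sub, mul_pow, mul_pow, I_sq]
  simp only [neg_mul, one_mul, one_div, inv_neg]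
  ring

lemma derivWeierstrassP_I_mul (hI : L.ω₂ = I * L.ω₁) (z : ℂ) :
    L.derivWeierstrassP (I * z) = I * L.derivWeierstrassP z := by
  simp only [PeriodPair.derivWeierstrassP]
  rw [← (mulIEquiv L hI).tsum_eq, mul_neg, ← tsum_mul_left]
  congr with l
  rw [mulIEquiv_coe, ← mul_sub, mul_pow, I_pow_three]
  rw [div_eq_mul_inv, div_eq_mul_inv, mul_inv, inv_neg, Complex.inv_I]
  ring

lemma sigmaW_I_mul (hI : L.ω₂ = I * L.ω₁) (z : ℂ) :
    sigmaW L (I * z) = I * sigmaW L z := by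
  rw [sigmaW_eq, sigmaW_eq, ← (mulIEquiv L hI).tprod_eq, mul_assoc]
  congr 3 with l
  rw [mulIEquiv_coe, mul_div_mul_left _ _ I_ne_zero]

lemma zetaW_I_mul (hI : L.ω₂ = I * L.ω₁) (z : ℂ) :
    zetaW L (I * z) = - I * zetaW L z := by
  simp only [zetaW]
  rw [← (mulIEquiv L hI).tsum_eq, ← tsum_mul_left]
  congr with l
  rw [mulIEquiv_coe, ← mul_sub, mul_pow, I_sq]
  simp only [mul_inv, Complex.inv_I, div_eq_mul_inv, neg_mul, one_mul, inv_neg]
  ring

lemma g₃_eq_zero (hI : L.ω₂ = I * L.ω₁) : L.g₃ = 0 := by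
  have h : L.G 6 = - L.G 6 := by
    conv_lhs => rw [PeriodPair.G, ← (mulIEquiv L hI).tsum_eq]
    rw [PeriodPair.G, ← tsum_neg]
    congr with l
    rw [mulIEquiv_coe, mul_pow, show I ^ 6 = -1 by
      rw [show (6 : ℕ) = 2 * 3 by norm_num, pow_mul, I_sq]; norm_num]
    rw [neg_one_mul, inv_neg]
  have : L.G 6 = 0 := by linear_combination h / 2
  rw [PeriodPair.g₃, this, mul_zero]

lemma etaW_I_mul (hI : L.ω₂ = I * L.ω₁) {l : ℂ} (hl : l ∈ L.lattice) :
    etaW L (I * l) = - I * etaW L l := by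
  have h0 := L.ω₁_div_two_notMem_lattice
  have h1 : I * (L.ω₁ / 2) ∉ L.lattice := fun h => h0 ((I_mul_mem_iff L hI).mp h)
  have h2 := zetaW_add L h1 (I_mul_mem L hI hl)
  have h3 := zetaW_add L h0 hl
  rw [← mul_add, zetaW_I_mul L hI, zetaW_I_mul L hI, h3] at h2
  linear_combination -h2

lemma etaW_ω₂ (hI : L.ω₂ = I * L.ω₁) : etaW L L.ω₂ = - I * etaW L L.ω₁ := by
  rw [hI, etaW_I_mul L hI L.ω₁_mem_lattice]

/-- An entire function with periods `ω₁` and `ω₂` is constant. -/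
lemma const_of_entire {F : ℂ → ℂ} (hF : Differentiable ℂ F) (h1 : ∀ z, F (z + L.ω₁) = F z)
    (h2 : ∀ z, F (z + L.ω₂) = F z) (z w : ℂ) : F z = F w := by
  let G : AddSubgroup ℂ :=
    { carrier := { l | ∀ z, F (z + l) = F z }
      add_mem' := by
        intro a b ha hb z
        rw [← add_assoc, hb, ha]
      zero_mem' := by simp
      neg_mem' := by
        intro a ha z
        have := ha (z + -a)
        rw [neg_add_cancel_right] at this
        exact this.symm }
  have hle : L.lattice ≤ G.toIntSubmodule := by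
    rw [PeriodPair.lattice, Submodule.span_le]
    rintro _ (rfl | rfl)
    · exact h1
    · exact h2
  exact hF.apply_eq_apply_of_bounded
    (IsZLattice.isCompact_range_of_periodic L.lattice _ hF.continuous
      fun z w hw ↦ hle hw z).isBounded z w

lemma etaW_ω₁_ne_zero (hI : L.ω₂ = I * L.ω₁) : etaW L L.ω₁ ≠ 0 := by
  intro h
  have h' : etaW L L.ω₂ = 0 := by rw [etaW_ω₂ L hI, h, mul_zero]
  have aux : ∀ l ∈ L.lattice, l / 2 ∉ L.lattice → etaW L l = 0 →
      ∀ z, sigmaW L (z + l) ^ 2 = sigmaW L z ^ 2 := by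
    intro l hl hl2 hη z
    obtain ⟨C, hC, hCl⟩ := exists_sigmaW_add L hl
    have h1 := hCl (-(l / 2))
    rw [hη, zero_mul, exp_zero, mul_one, sigmaW_neg, show -(l / 2) + l = l / 2 by ring] at h1
    have h2 := sigmaW_ne_zero L hl2
    have h3 : C = -1 := by
      apply mul_right_cancel₀ h2
      linear_combination h1
    rw [hCl z, hη, h3, zero_mul, exp_zero]
    ring
  have hc := const_of_entire L (F := fun z => sigmaW L z ^ 2) ((differentiable_sigmaW L).pow 2)
    (aux _ L.ω₁_mem_lattice L.ω₁_div_two_notMem_lattice h)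
    (aux _ L.ω₂_mem_lattice L.ω₂_div_two_notMem_lattice h') (L.ω₁ / 2) 0
  simp only [sigmaW_zero, ne_eq, OfNat.ofNat_ne_zero, not_false_eq_true, zero_pow,
    pow_eq_zero_iff] at hc
  exact sigmaW_ne_zero L L.ω₁_div_two_notMem_lattice hc

/-- The key identity for the Ribet point: `σ((1+i)q)² = 2i ℘(q) σ(q)⁴`. -/
lemma sigmaW_one_add_I_mul_sq (hI : L.ω₂ = I * L.ω₁) {q : ℂ} (hq : q ∉ L.lattice) :
    sigmaW L (q + I * q) ^ 2 = 2 * I * L.weierstrassP q * sigmaW L q ^ 4 := by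
  have hIq : I * q ∉ L.lattice := fun h => hq ((I_mul_mem_iff L hI).mp h)
  have h1 := sigmaW_mul_sigmaW L hq hIq
  have h2 : sigmaW L (q - I * q) = - (I * sigmaW L (q + I * q)) := by
    rw [← sigmaW_I_mul L hI, ← sigmaW_neg]
    congr 1
    linear_combination q * I_mul_I
  rw [h2, weierstrassP_I_mul L hI, sigmaW_I_mul L hI] at h1
  linear_combination (I) * h1 + (sigmaW L (q + I * q) ^ 2 -
    2 * I * L.weierstrassP q * sigmaW L q ^ 4) * I_mul_I

end Pool.Agent.Lib.Ribet4b482e
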