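import Mathlib
import Pool.Agent.Lib.Ribet4b482e.CM

open Module Filter Topology Complex

noncomputable section
namespace Pool.Agent.Lib.Ribet4b482e

variable (L : PeriodPair)

/-- `℘` is surjective. -/
lemma exists_weierstrassP_eq (a : ℂ) : ∃ q, q ∉ L.lattice ∧ L.weierstrassP q = a := by
  by_contra! h
  have hne : ∀ z, z ∉ L.lattice → L.weierstrassP z - a ≠ 0 := fun z hz => sub_ne_zero.mpr (h z hz)
  have hf : DifferentiableOn ℂ (fun z => 1 / (L.weierstrassP z - a)) (L.lattice : Set ℂ)ᶜ := by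
    intro z hz
    exact (DifferentiableAt.fun_div (differentiableAt_const _)
      ((hasDerivAt_weierstrassP L hz).differentiableAt.sub_const a)
      (hne z hz)).differentiableWithinAt
  have hper : ∀ z, z ∉ L.lattice → ∀ l ∈ L.lattice,
      (fun z => 1 / (L.weierstrassP z - a)) (z + l) = (fun z => 1 / (L.weierstrassP z - a)) z := by
    intro z _ l hl
    simp only
    rw [L.weierstrassP_add_coe z ⟨l, hl⟩]
  have hden : (1 : ℂ) + (0 : ℂ) ^ 2 * (L.weierstrassPExcept 0 0 - a) ≠ 0 := by simp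
  have hg : AnalyticAt ℂ (fun z => z ^ 2 / (1 + z ^ 2 * (L.weierstrassPExcept 0 z - a))) 0 := by
    have := L.analyticAt_weierstrassPExcept 0
    refine AnalyticAt.div (by fun_prop) (by fun_prop) hden
  have hfg : ∀ᶠ z in 𝓝[≠] (0 : ℂ), (fun z => 1 / (L.weierstrassP z - a)) z =
      (fun z => z ^ 2 / (1 + z ^ 2 * (L.weierstrassPExcept 0 z - a))) z := by
    filter_upwards [self_mem_nhdsWithin, eventually_notMem L (l := 0)] with z hz hz'
    have hz0 : z ≠ 0 := hz
    have h1 := hne z hz'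
    have h2 : 1 + z ^ 2 * (L.weierstrassPExcept 0 z - a) = z ^ 2 * (L.weierstrassP z - a) := by
      rw [weierstrassP_eq_add]
      field_simp
      ring
    rw [h2]
    field_simp
  have key := eq_const_of_periodic L hf hper hg hfg (L.ω₁ / 2) L.ω₁_div_two_notMem_lattice
  simp only [ne_eq, OfNat.ofNat_ne_zero, not_false_eq_true, zero_pow, zero_div, one_div,
    inv_eq_zero] at key
  exact hne _ L.ω₁_div_two_notMem_lattice key

lemma linearIndependent_square {μ : ℂ} (hμ : μ ≠ 0) : LinearIndependent ℝ ![μ, I * μ] := by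
  rw [LinearIndependent.pair_iff]
  intro s t h
  have h1 : ((s : ℂ) + t * I) * μ = 0 := by
    rw [← h]
    simp only [real_smul]
    ring
  have h2 : (s : ℂ) + t * I = 0 := (mul_eq_zero.mp h1).resolve_right hμ
  have h3 := congrArg Complex.re h2
  have h4 := congrArg Complex.im h2
  simp at h3 h4
  exact ⟨h3, h4⟩

/-- The period pair `(μ, i μ)`. -/
def squarePair (μ : ℂ) (hμ : μ ≠ 0) : PeriodPair where
  ω₁ := μ
  ω₂ := I * μ
  indep := linearIndependent_square hμ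

lemma squarePair_I (μ : ℂ) (hμ : μ ≠ 0) :
    (squarePair μ hμ).ω₂ = I * (squarePair μ hμ).ω₁ := rfl

/-- The lattice of `squarePair μ` is `μ` times that of `squarePair 1`. -/
def squareEquiv (μ : ℂ) (hμ : μ ≠ 0) :
    (squarePair 1 one_ne_zero).lattice ≃ (squarePair μ hμ).lattice where
  toFun l := ⟨μ * l, by
    have := l.2
    rw [PeriodPair.mem_lattice] at this ⊢
    obtain ⟨m, n, h⟩ := this
    refine ⟨m, n, ?_⟩
    rw [← h]
    simp only [squarePair]
    ring⟩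
  invFun l := ⟨μ⁻¹ * l, by
    have := l.2
    rw [PeriodPair.mem_lattice] at this ⊢
    obtain ⟨m, n, h⟩ := this
    refine ⟨m, n, ?_⟩
    rw [← h]
    simp only [squarePair]
    field_simp⟩
  left_inv l := by
    ext
    simp only
    field_simp
  right_inv l := by
    ext
    simp only
    field_simp

lemma squarePair_g₂ (μ : ℂ) (hμ : μ ≠ 0) :
    (squarePair μ hμ).g₂ = (squarePair 1 one_ne_zero).g₂ / μ ^ 4 := by
  rw [PeriodPair.g₂, PeriodPair.g₂, PeriodPair.G, PeriodPair.G, ← (squareEquiv μ hμ).tsum_eq,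
    mul_div_assoc, ← tsum_div_const]
  congr 2 with l
  simp only [squareEquiv, Equiv.coe_fn_mk, mul_pow, mul_inv]
  rw [div_eq_mul_inv, mul_comm]

lemma g₂_ne_zero (hI : L.ω₂ = I * L.ω₁) : L.g₂ ≠ 0 := by
  intro h
  have aux : ∀ v, v ∉ L.lattice → 2 * v ∈ L.lattice → L.weierstrassP v = 0 := by
    intro v hv h2v
    have h1 := L.derivWeierstrassP_sq v hv
    rw [derivWeierstrassP_eq_zero L h2v, h, g₃_eq_zero L hI] at h1
    have : L.weierstrassP v ^ 3 = 0 := by linear_combination -h1 / 4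
    simpa using this
  have h1 := aux (L.ω₁ / 2) L.ω₁_div_two_notMem_lattice
    (by rw [mul_div_cancel₀ _ two_ne_zero]; exact L.ω₁_mem_lattice)
  have h2 := aux (L.ω₂ / 2) L.ω₂_div_two_notMem_lattice
    (by rw [mul_div_cancel₀ _ two_ne_zero]; exact L.ω₂_mem_lattice)
  have h3 : L.ω₁ / 2 + L.ω₂ / 2 ∉ L.lattice := by
    simpa [inv_mul_eq_div] using
      (L.mul_ω₁_add_mul_ω₂_mem_lattice (α := 1 / 2) (β := 1 / 2)).not.mpr (by norm_num)
  have h4 : L.ω₁ / 2 - L.ω₂ / 2 ∉ L.lattice := by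
    intro h
    apply h3
    have := add_mem h L.ω₂_mem_lattice
    rwa [show L.ω₁ / 2 - L.ω₂ / 2 + L.ω₂ = L.ω₁ / 2 + L.ω₂ / 2 by ring] at this
  exact weierstrassP_ne L L.ω₁_div_two_notMem_lattice L.ω₂_div_two_notMem_lattice h3 h4
    (h1.trans h2.symm)

/-- There is a square lattice with `g₂ = 4`, i.e. with curve `Y² = 4X³ - 4X`. -/
lemma exists_square_g₂ : ∃ L : PeriodPair, L.ω₂ = I * L.ω₁ ∧ L.g₂ = 4 := by
  have h0 := g₂_ne_zero (squarePair 1 one_ne_zero) (squarePair_I _ _)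
  obtain ⟨μ, hμ⟩ := IsAlgClosed.exists_pow_nat_eq ((squarePair 1 one_ne_zero).g₂ / 4)
    (n := 4) (by norm_num)
  have hμ0 : μ ≠ 0 := by
    rintro rfl
    apply h0
    have : (squarePair 1 one_ne_zero).g₂ / 4 = 0 := by rw [← hμ]; norm_num
    simpa using this
  refine ⟨squarePair μ hμ0, squarePair_I _ _, ?_⟩
  rw [squarePair_g₂, hμ]
  field_simp

/-- The `x`-coordinates of `2^k Q` on `Y² = 4X³ - 4X` starting from `x = 1/2`. -/
def dupSeq : ℕ → ℚ
  | 0 => 1 / 2
  | k + 1 => (dupSeq k ^ 2 + 1) ^ 2 / (4 * (dupSeq k ^ 3 - dupSeq k))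

lemma padicValRat_dupSeq (k : ℕ) :
    dupSeq k ≠ 0 ∧ dupSeq k ^ 2 ≠ 1 ∧ padicValRat 2 (dupSeq k) = -1 - 2 * k := by
  have key : ∀ x : ℚ, x ≠ 0 → padicValRat 2 x < 0 → x ^ 2 ≠ 1 ∧ x ^ 2 + 1 ≠ 0 ∧
      padicValRat 2 (x ^ 2 + 1) = 2 * padicValRat 2 x ∧
      padicValRat 2 (x ^ 2 - 1) = 2 * padicValRat 2 x := by
    intro x hx hv
    have h1 : padicValRat 2 (x ^ 2) = 2 * padicValRat 2 x := by
      rw [padicValRat.pow]; norm_num
    have h2 : x ^ 2 ≠ 1 := by
      intro h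
      rw [h] at h1
      simp at h1
      omega
    have h3 : x ^ 2 + 1 ≠ 0 := by positivity
    have h4 : padicValRat 2 (1 : ℚ) = 0 := by simp
    refine ⟨h2, h3, ?_, ?_⟩
    · rw [padicValRat.add_eq_of_lt h3 (by positivity) one_ne_zero (by omega), h1]
    · have h5 : x ^ 2 + -1 ≠ 0 := by
        intro h
        apply h2
        linear_combination h
      rw [sub_eq_add_neg, padicValRat.add_eq_of_lt h5 (by positivity) (by norm_num)
        (by rw [padicValRat.neg]; omega), h1]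
  induction k with
  | zero =>
    refine ⟨by norm_num [dupSeq], by norm_num [dupSeq], ?_⟩
    have h2 : padicValRat 2 (2 : ℚ) = 1 := padicValRat.self (by norm_num)
    simp [dupSeq, padicValRat.inv, h2]
  | succ k ih =>
    obtain ⟨h1, h2, h3⟩ := ih
    have hv : padicValRat 2 (dupSeq k) < 0 := by omega
    obtain ⟨h4, h5, h6, h7⟩ := key _ h1 hv
    have h8 : dupSeq k ^ 3 - dupSeq k = dupSeq k * (dupSeq k ^ 2 - 1) := by ring
    have h9 : dupSeq k ^ 2 - 1 ≠ 0 := sub_ne_zero.mpr h4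
    have h10 : dupSeq (k + 1) ≠ 0 := by
      rw [dupSeq, h8]
      positivity
    have h11 : padicValRat 2 (dupSeq (k + 1)) = -1 - 2 * ((k + 1 : ℕ) : ℤ) := by
      rw [dupSeq, h8, padicValRat.div (by positivity) (by positivity),
        padicValRat.pow, padicValRat.mul (by norm_num) (by positivity),
        padicValRat.mul h1 h9, h6, h7, h3]
      have : padicValRat 2 (4 : ℚ) = 2 := by
        rw [show (4 : ℚ) = 2 ^ 2 by norm_num, padicValRat.pow]
        have h2 : padicValRat 2 (2 : ℚ) = 1 := padicValRat.self (by norm_num)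
        rw [h2]; norm_num
      rw [this]
      push_cast
      ring
    refine ⟨h10, ?_, h11⟩
    exact (key _ h10 (by omega)).1

lemma dupSeq_injective : Function.Injective dupSeq := by
  intro j k h
  have h1 := (padicValRat_dupSeq j).2.2
  have h2 := (padicValRat_dupSeq k).2.2
  rw [h] at h1
  omega

lemma weierstrassP_two_pow_mul (hI : L.ω₂ = I * L.ω₁) (hg : L.g₂ = 4) {q : ℂ}
    (hq : q ∉ L.lattice) (hPq : L.weierstrassP q = 1 / 2) (k : ℕ) :
    2 ^ k * q ∉ L.lattice ∧ L.weierstrassP (2 ^ k * q) = (dupSeq k : ℂ) := by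
  induction k with
  | zero => simp [dupSeq, hq, hPq]
  | succ k ih =>
    obtain ⟨h1, h2⟩ := ih
    obtain ⟨h3, h4, -⟩ := padicValRat_dupSeq k
    set v := 2 ^ k * q with hv
    have e1 := L.derivWeierstrassP_sq v h1
    rw [hg, g₃_eq_zero L hI, h2] at e1
    have h5 : ((dupSeq k : ℚ) : ℂ) ≠ 0 := by exact_mod_cast h3
    have h6 : ((dupSeq k : ℚ) : ℂ) ^ 2 - 1 ≠ 0 := by
      intro h
      apply h4
      have : ((dupSeq k : ℚ) : ℂ) ^ 2 = 1 := by linear_combination h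
      exact_mod_cast this
    have e2 : L.derivWeierstrassP v ^ 2 =
        4 * ((dupSeq k : ℚ) : ℂ) * (((dupSeq k : ℚ) : ℂ) ^ 2 - 1) := by
      rw [e1]; ring
    have h7 : L.derivWeierstrassP v ≠ 0 := by
      intro h
      rw [h] at e2
      have : (0 : ℂ) = 4 * ((dupSeq k : ℚ) : ℂ) * (((dupSeq k : ℚ) : ℂ) ^ 2 - 1) := by
        rw [← e2]; ring
      exact mul_ne_zero (mul_ne_zero (by norm_num) h5) h6 this.symm
    have h8 : 2 * v ∉ L.lattice := fun h => h7 (derivWeierstrassP_eq_zero L h)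
    rw [pow_succ', mul_assoc, ← hv]
    refine ⟨h8, ?_⟩
    rw [weierstrassP_two_mul L h1 h8, div_pow, e2, h2, hg, dupSeq]
    push_cast
    rw [show ((dupSeq k : ℚ) : ℂ) ^ 3 - dupSeq k = dupSeq k * ((dupSeq k : ℂ) ^ 2 - 1) by ring]
    field_simp
    ring

/-- Existence of a non-torsion point with `x`-coordinate `1/2` on `Y² = 4X³ - 4X`. -/
lemma exists_nontorsion (hI : L.ω₂ = I * L.ω₁) (hg : L.g₂ = 4) :
    ∃ q : ℂ, (∀ n : ℤ, n ≠ 0 → (n : ℂ) * q ∉ L.lattice) ∧ L.weierstrassP q = 1 / 2 := by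
  obtain ⟨q, hq, hPq⟩ := exists_weierstrassP_eq L (1 / 2)
  refine ⟨q, ?_, hPq⟩
  intro n hn hmem
  -- pigeonhole for the powers of two modulo `n`
  obtain ⟨j, k, hjk, hmod⟩ : ∃ j k : ℕ, j ≠ k ∧ ((2 : ℤ) ^ j : ZMod n.natAbs) = ((2 : ℤ) ^ k : ZMod n.natAbs) := by
    have : NeZero n.natAbs := ⟨by simpa using hn⟩
    have := Finite.exists_ne_map_eq_of_infinite (fun j : ℕ => ((2 : ℤ) ^ j : ZMod n.natAbs))
    obtain ⟨j, k, h1, h2⟩ := this
    exact ⟨j, k, h1, h2⟩
  have hdvd : n ∣ 2 ^ j - 2 ^ k := by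
    have h1 : (((2 ^ j - 2 ^ k : ℤ)) : ZMod n.natAbs) = 0 := by
      push_cast
      push_cast at hmod
      rw [hmod, sub_self]
    rw [ZMod.intCast_zmod_eq_zero_iff_dvd] at h1
    exact Int.natAbs_dvd.mp h1
  obtain ⟨m, hm⟩ := hdvd
  have h1 : (2 : ℂ) ^ j * q - 2 ^ k * q ∈ L.lattice := by
    have h2 : ((2 : ℂ) ^ j - 2 ^ k) = (n : ℂ) * m := by exact_mod_cast hm
    have h3 : (2 : ℂ) ^ j * q - 2 ^ k * q = m * (n * q) := by
      rw [← sub_mul, h2]; ring
    rw [h3]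
    have := L.lattice.smul_mem m hmem
    simpa using this
  obtain ⟨h2, h3⟩ := weierstrassP_two_pow_mul L hI hg hq hPq j
  obtain ⟨h4, h5⟩ := weierstrassP_two_pow_mul L hI hg hq hPq k
  have h6 := (weierstrassP_eq_iff L h2 h4).mpr (Or.inr h1)
  rw [h3, h5] at h6
  exact hjk (dupSeq_injective (by exact_mod_cast h6))

end Pool.Agent.Lib.Ribet4b482e
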