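import Mathlib
import Pool.Agent.Lib.Ribet4b482e.CM

open Module Filter Topology Complex

noncomputable section
namespace Pool.Agent.Lib.Ribet4b482e

variable (L : PeriodPair)

lemma multipliable_elemFac (z : ℂ) : Multipliable (fun l : L.lattice => elemFac (z / l)) := by
  have := multipliable_one_add_of_summable (summable_norm_elemFac_sub_one L z)
  simpa using this

/-- `σ` has order of growth at most three. -/
lemma norm_sigmaW_le : ∃ C : ℝ, 0 ≤ C ∧ ∀ z, ‖sigmaW L z‖ ≤ Real.exp (C * (1 + ‖z‖) ^ 3) := by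
  set S : ℝ := ∑' l : L.lattice, ‖(l : ℂ)‖ ^ (-3 : ℤ) with hS
  have hS0 : 0 ≤ S := tsum_nonneg fun l => by positivity
  refine ⟨16 * S + 1, by positivity, fun z => ?_⟩
  have h1 : ‖∏' l : L.lattice, elemFac (z / l)‖ ≤ Real.exp (16 * ‖z‖ ^ 3 * S) := by
    have h2 := (multipliable_elemFac L z).hasProd.norm
    refine le_of_tendsto h2 (.of_forall fun s => ?_)
    calc ∏ l ∈ s, ‖elemFac (z / l)‖ ≤ ∏ l ∈ s, Real.exp (16 * ‖z / l‖ ^ 3) :=
          Finset.prod_le_prod (fun _ _ => norm_nonneg _) fun l _ => norm_elemFac_le _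
      _ = Real.exp (∑ l ∈ s, 16 * ‖z / l‖ ^ 3) := (Real.exp_sum _ _).symm
      _ ≤ Real.exp (16 * ‖z‖ ^ 3 * S) := by
        refine Real.exp_le_exp.mpr ?_
        have h3 : ∀ l : L.lattice, 16 * ‖z / l‖ ^ 3 = 16 * ‖z‖ ^ 3 * ‖(l : ℂ)‖ ^ (-3 : ℤ) := by
          intro l
          rw [norm_div, div_pow, zpow_neg, div_eq_mul_inv]
          norm_cast
          ring
        simp_rw [h3]
        rw [← Finset.mul_sum]
        have h4 : ∑ l ∈ s, ‖(l : ℂ)‖ ^ (-3 : ℤ) ≤ S :=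
          (summable_norm_inv_three L).sum_le_tsum _ fun l _ => by positivity
        gcongr
  rw [sigmaW_eq, norm_mul]
  have h5 : ‖z‖ ≤ Real.exp ((1 + ‖z‖) ^ 3) := by
    calc ‖z‖ ≤ ‖z‖ + 1 := by linarith
      _ ≤ Real.exp ‖z‖ := Real.add_one_le_exp _
      _ ≤ Real.exp ((1 + ‖z‖) ^ 3) := by
        refine Real.exp_le_exp.mpr ?_
        nlinarith [norm_nonneg z, sq_nonneg ‖z‖, pow_nonneg (norm_nonneg z) 3]
  calc ‖z‖ * ‖∏' l : L.lattice, elemFac (z / l)‖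
      ≤ Real.exp ((1 + ‖z‖) ^ 3) * Real.exp (16 * ‖z‖ ^ 3 * S) := by gcongr
    _ = Real.exp ((1 + ‖z‖) ^ 3 + 16 * ‖z‖ ^ 3 * S) := by rw [← Real.exp_add]
    _ ≤ Real.exp ((16 * S + 1) * (1 + ‖z‖) ^ 3) := by
      refine Real.exp_le_exp.mpr ?_
      have h6 : ‖z‖ ^ 3 ≤ (1 + ‖z‖) ^ 3 := by
        gcongr
        linarith
      nlinarith [mul_le_mul_of_nonneg_left h6 hS0]

/-- Legendre relation up to an integer: `η₁ω₂ - η₂ω₁ ∈ 2πiℤ`. -/
lemma legendre_int : ∃ r : ℤ, etaW L L.ω₁ * L.ω₂ - etaW L L.ω₂ * L.ω₁ = r * (2 * Real.pi * I) := by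
  obtain ⟨C₁, hC₁, h1⟩ := exists_sigmaW_add L L.ω₁_mem_lattice
  obtain ⟨C₂, hC₂, h2⟩ := exists_sigmaW_add L L.ω₂_mem_lattice
  have hz := sigmaW_ne_zero L L.ω₁_div_two_notMem_lattice
  set z := L.ω₁ / 2
  have e1 := h1 (z + L.ω₂)
  have e2 := h2 (z + L.ω₁)
  rw [h2 z] at e1
  rw [h1 z] at e2
  rw [add_right_comm, e2, mul_add, mul_add, exp_add, exp_add] at e1
  have n1 := exp_ne_zero (etaW L L.ω₁ * z)
  have n2 := exp_ne_zero (etaW L L.ω₂ * z)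
  have e3 : exp (etaW L L.ω₂ * L.ω₁) = exp (etaW L L.ω₁ * L.ω₂) := by
    have h3 : C₁ * C₂ * exp (etaW L L.ω₁ * z) * exp (etaW L L.ω₂ * z) * sigmaW L z ≠ 0 := by
      positivity
    apply mul_left_cancel₀ h3
    linear_combination e1
  rw [exp_eq_exp_iff_exists_int] at e3
  obtain ⟨n, hn⟩ := e3
  refine ⟨-n, ?_⟩
  push_cast
  linear_combination -hn

end Pool.Agent.Lib.Ribet4b482e
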