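import Mathlib

open Module NumberField MvPolynomial

noncomputable section
namespace Pool.Agent.Lib.Ribet4b482e

variable {K : Type*} [Field K] [NumberField K]

/-- The house of an algebraic integer. -/
def hs (a : 𝓞 K) : ℝ := house (a : K)

lemma hs_nonneg (a : 𝓞 K) : 0 ≤ hs a := house_nonneg _

@[simp] lemma hs_zero : hs (0 : 𝓞 K) = 0 := by
  have := house_intCast (K := K) 0
  simpa [hs] using this

@[simp] lemma hs_one : hs (1 : 𝓞 K) = 1 := by
  have := house_intCast (K := K) 1
  simpa [hs] using this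

lemma hs_natCast (n : ℕ) : hs (n : 𝓞 K) = n := by
  have := house_intCast (K := K) n
  simpa [hs] using this

lemma hs_add_le (a b : 𝓞 K) : hs (a + b) ≤ hs a + hs b := by
  simpa [hs] using house_add_le (a : K) b

lemma hs_mul_le (a b : 𝓞 K) : hs (a * b) ≤ hs a * hs b := by
  simpa [hs] using house_mul_le (a : K) b

lemma hs_pow_le (a : 𝓞 K) (n : ℕ) : hs (a ^ n) ≤ hs a ^ n := by
  simpa [hs] using house_pow_le (a : K) n

lemma hs_sum_le {ι : Type*} (s : Finset ι) (f : ι → 𝓞 K) :
    hs (∑ i ∈ s, f i) ≤ ∑ i ∈ s, hs (f i) := by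
  simpa [hs] using house_sum_le_sum_house s (fun i => (f i : K))

variable {σ : Type*} (ρ : ℝ)

/-- Weighted length of a polynomial with coefficients in the ring of integers. -/
def wlen (P : MvPolynomial σ (𝓞 K)) : ℝ :=
  ∑ m ∈ P.support, hs (P.coeff m) * ρ ^ m.degree

variable {ρ}

lemma wlen_nonneg (hρ : 0 ≤ ρ) (P : MvPolynomial σ (𝓞 K)) : 0 ≤ wlen ρ P :=
  Finset.sum_nonneg fun _ _ => mul_nonneg (hs_nonneg _) (pow_nonneg hρ _)

lemma wlen_eq_sum {P : MvPolynomial σ (𝓞 K)} {S : Finset (σ →₀ ℕ)} (hS : P.support ⊆ S) :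
    wlen ρ P = ∑ m ∈ S, hs (P.coeff m) * ρ ^ m.degree := by
  refine Finset.sum_subset hS fun m _ hm => ?_
  rw [notMem_support_iff.mp hm, hs_zero, zero_mul]

@[simp] lemma wlen_zero : wlen ρ (0 : MvPolynomial σ (𝓞 K)) = 0 := by
  simp [wlen]

lemma wlen_add_le (hρ : 0 ≤ ρ) (P Q : MvPolynomial σ (𝓞 K)) :
    wlen ρ (P + Q) ≤ wlen ρ P + wlen ρ Q := by
  classical
  rw [wlen_eq_sum (P := P + Q) (S := P.support ∪ Q.support) support_add,
    wlen_eq_sum (P := P) (S := P.support ∪ Q.support) Finset.subset_union_left,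
    wlen_eq_sum (P := Q) (S := P.support ∪ Q.support) Finset.subset_union_right,
    ← Finset.sum_add_distrib]
  refine Finset.sum_le_sum fun m _ => ?_
  rw [← add_mul, coeff_add]
  exact mul_le_mul_of_nonneg_right (hs_add_le _ _) (pow_nonneg hρ _)

lemma wlen_sum_le (hρ : 0 ≤ ρ) {ι : Type*} (s : Finset ι) (f : ι → MvPolynomial σ (𝓞 K)) :
    wlen ρ (∑ i ∈ s, f i) ≤ ∑ i ∈ s, wlen ρ (f i) := by
  classical
  induction s using Finset.induction_on with
  | empty => simp
  | insert a s ha ih =>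
    rw [Finset.sum_insert ha, Finset.sum_insert ha]
    exact (wlen_add_le hρ _ _).trans (by linarith)

lemma wlen_monomial (m : σ →₀ ℕ) (a : 𝓞 K) :
    wlen ρ (monomial m a) = hs a * ρ ^ m.degree := by
  classical
  rw [wlen_eq_sum (S := {m}) support_monomial_subset]
  simp [coeff_monomial]

lemma wlen_monomial_mul_le (hρ : 0 ≤ ρ) (m : σ →₀ ℕ) (a : 𝓞 K) (Q : MvPolynomial σ (𝓞 K)) :
    wlen ρ (monomial m a * Q) ≤ hs a * ρ ^ m.degree * wlen ρ Q := by
  conv_lhs => rw [← support_sum_monomial_coeff Q, Finset.mul_sum]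
  refine (wlen_sum_le hρ _ _).trans ?_
  rw [wlen, Finset.mul_sum]
  refine Finset.sum_le_sum fun k _ => ?_
  rw [monomial_mul, wlen_monomial, map_add, pow_add]
  calc hs (a * coeff k Q) * (ρ ^ m.degree * ρ ^ k.degree)
      ≤ (hs a * hs (coeff k Q)) * (ρ ^ m.degree * ρ ^ k.degree) := by
        gcongr
        exact hs_mul_le _ _
    _ = _ := by ring

lemma hs_eval_le (hρ : 0 ≤ ρ) (P : MvPolynomial σ (𝓞 K)) (x : σ → 𝓞 K)
    (hx : ∀ i, hs (x i) ≤ ρ) : hs (eval x P) ≤ wlen ρ P := by
  classical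
  rw [eval_eq]
  refine (hs_sum_le _ _).trans ?_
  refine Finset.sum_le_sum fun m _ => ?_
  refine (hs_mul_le _ _).trans ?_
  refine mul_le_mul_of_nonneg_left ?_ (hs_nonneg _)
  have aux : ∀ s : Finset σ, hs (∏ i ∈ s, x i ^ m i) ≤ ∏ i ∈ s, ρ ^ m i := by
    intro s
    induction s using Finset.induction_on with
    | empty => simp
    | insert a s ha ih =>
      rw [Finset.prod_insert ha, Finset.prod_insert ha]
      refine (hs_mul_le _ _).trans ?_
      refine mul_le_mul ((hs_pow_le _ _).trans (pow_le_pow_left₀ (hs_nonneg _) (hx a) _)) ih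
        (hs_nonneg _) (pow_nonneg hρ _)
  refine (aux _).trans ?_
  rw [Finset.prod_pow_eq_pow_sum, Finsupp.degree_apply]

variable {D : σ → MvPolynomial σ (𝓞 K)}

/-- Length bound for a derivation. -/
lemma wlen_deriv_le (hρ : 1 ≤ ρ) {M : ℝ} (hM : ∀ i, wlen ρ (D i) ≤ M) (hM0 : 0 ≤ M)
    (P : MvPolynomial σ (𝓞 K)) :
    wlen ρ (mkDerivation (𝓞 K) D P) ≤ P.totalDegree * M * wlen ρ P := by
  have hρ0 : 0 ≤ ρ := by linarith
  conv_lhs => rw [← support_sum_monomial_coeff P, map_sum]
  refine (wlen_sum_le hρ0 _ _).trans ?_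
  rw [wlen, Finset.mul_sum]
  refine Finset.sum_le_sum fun m hm => ?_
  rw [mkDerivation_monomial, Finsupp.sum, Finset.smul_sum]
  refine (wlen_sum_le hρ0 _ _).trans ?_
  have hdeg : (m.degree : ℝ) ≤ P.totalDegree := by
    have := le_totalDegree hm
    rw [Finsupp.degree_apply]
    exact_mod_cast this
  calc ∑ i ∈ m.support, wlen ρ (coeff m P • ((monomial (m - Finsupp.single i 1)) ((m i : ℕ) : 𝓞 K) • D i))
      ≤ ∑ i ∈ m.support, (m i : ℝ) * (hs (coeff m P) * ρ ^ m.degree * M) := by
        refine Finset.sum_le_sum fun i hi => ?_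
        have h1 : coeff m P • ((monomial (m - Finsupp.single i 1)) ((m i : ℕ) : 𝓞 K) • D i) =
            monomial (m - Finsupp.single i 1) (coeff m P * ((m i : ℕ) : 𝓞 K)) * D i := by
          rw [smul_eq_mul, ← smul_mul_assoc, smul_monomial, smul_eq_mul]
        rw [h1]
        refine (wlen_monomial_mul_le hρ0 _ _ _).trans ?_
        have h2 : hs (coeff m P * ((m i : ℕ) : 𝓞 K)) ≤ hs (coeff m P) * m i := by
          refine (hs_mul_le _ _).trans ?_
          rw [hs_natCast]
        have h3 : ρ ^ (m - Finsupp.single i 1).degree ≤ ρ ^ m.degree := by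
          refine pow_le_pow_right₀ hρ ?_
          exact Finsupp.degree_mono tsub_le_self
        calc hs (coeff m P * ((m i : ℕ) : 𝓞 K)) * ρ ^ (m - Finsupp.single i 1).degree * wlen ρ (D i)
            ≤ (hs (coeff m P) * m i) * ρ ^ m.degree * M := by
              have hsn := hs_nonneg (coeff m P)
              have hwn := wlen_nonneg hρ0 (D i)
              have := hM i
              gcongr
          _ = _ := by ring
    _ = (m.degree : ℝ) * (hs (coeff m P) * ρ ^ m.degree * M) := by
        rw [← Finset.sum_mul, Finsupp.degree_apply]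
        push_cast
        rfl
    _ ≤ P.totalDegree * (hs (coeff m P) * ρ ^ m.degree * M) := by
        have : 0 ≤ hs (coeff m P) * ρ ^ m.degree * M := by
          have := hs_nonneg (coeff m P)
          positivity
        gcongr
    _ = _ := by ring

omit [NumberField K] in
lemma totalDegree_deriv_le (hD : ∀ i, (D i).totalDegree ≤ 2) (P : MvPolynomial σ (𝓞 K)) :
    (mkDerivation (𝓞 K) D P).totalDegree ≤ P.totalDegree + 1 := by
  conv_lhs => rw [← support_sum_monomial_coeff P, map_sum]
  refine totalDegree_finsetSum_le fun m hm => ?_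
  rw [mkDerivation_monomial, Finsupp.sum, Finset.smul_sum]
  refine totalDegree_finsetSum_le fun i hi => ?_
  have hmi : 1 ≤ m i := Nat.one_le_iff_ne_zero.mpr (Finsupp.mem_support_iff.mp hi)
  have h1 : coeff m P • ((monomial (m - Finsupp.single i 1)) ((m i : ℕ) : 𝓞 K) • D i) =
      monomial (m - Finsupp.single i 1) (coeff m P * ((m i : ℕ) : 𝓞 K)) * D i := by
    rw [smul_eq_mul, ← smul_mul_assoc, smul_monomial, smul_eq_mul]
  rw [h1]
  refine (totalDegree_mul _ _).trans ?_
  have h2 : (monomial (m - Finsupp.single i 1) (coeff m P * ((m i : ℕ) : 𝓞 K))).totalDegree + 1 ≤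
      m.degree := by
    have h3 := totalDegree_monomial_le (m - Finsupp.single i 1) (coeff m P * ((m i : ℕ) : 𝓞 K))
    have h4 : (m - Finsupp.single i 1).sum (fun _ => id) = (m - Finsupp.single i 1).degree := by
      rw [Finsupp.degree_apply]; rfl
    rw [h4] at h3
    have h5 : (m - Finsupp.single i 1) + Finsupp.single i 1 = m := by
      refine tsub_add_cancel_of_le ?_
      rw [Finsupp.single_le_iff]
      exact hmi
    have h6 : (m - Finsupp.single i 1).degree + 1 = m.degree := by
      conv_rhs => rw [← h5]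
      simp
    omega
  have h7 : m.degree ≤ P.totalDegree := by
    have := le_totalDegree hm
    rw [Finsupp.degree_apply]
    exact this
  have := hD i
  omega

/-- Degree and length bounds for iterates of a derivation. -/
lemma iterate_deriv_bounds (hρ : 1 ≤ ρ) {M : ℝ} (hM : ∀ i, wlen ρ (D i) ≤ M) (hM0 : 0 ≤ M)
    (hD : ∀ i, (D i).totalDegree ≤ 2) (P : MvPolynomial σ (𝓞 K)) (j : ℕ) :
    ((mkDerivation (𝓞 K) D)^[j] P).totalDegree ≤ P.totalDegree + j ∧
    wlen ρ ((mkDerivation (𝓞 K) D)^[j] P) ≤ ((P.totalDegree + j : ℕ) * M) ^ j * wlen ρ P := by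
  have hρ0 : 0 ≤ ρ := by linarith
  have hdeg : ∀ j, ((mkDerivation (𝓞 K) D)^[j] P).totalDegree ≤ P.totalDegree + j := by
    intro j
    induction j with
    | zero => simp
    | succ j ih =>
      rw [Function.iterate_succ_apply']
      have := totalDegree_deriv_le hD ((mkDerivation (𝓞 K) D)^[j] P)
      omega
  refine ⟨hdeg j, ?_⟩
  -- prove with a fixed upper bound for the degree
  have key : ∀ (r : ℕ) (i : ℕ), P.totalDegree + i ≤ r →
      wlen ρ ((mkDerivation (𝓞 K) D)^[i] P) ≤ ((r : ℝ) * M) ^ i * wlen ρ P := by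
    intro r i
    induction i with
    | zero => intro _; simp
    | succ i ih =>
      intro hr
      rw [Function.iterate_succ_apply']
      refine (wlen_deriv_le hρ hM hM0 _).trans ?_
      have h1 := ih (by omega)
      have h2 : (((mkDerivation (𝓞 K) D)^[i] P).totalDegree : ℝ) ≤ r := by
        have := hdeg i
        exact_mod_cast (by omega)
      calc (((mkDerivation (𝓞 K) D)^[i] P).totalDegree : ℝ) * M * wlen ρ ((mkDerivation (𝓞 K) D)^[i] P)
          ≤ (r : ℝ) * M * (((r : ℝ) * M) ^ i * wlen ρ P) := by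
            gcongr
            exact wlen_nonneg hρ0 _
        _ = _ := by ring
  exact key _ j le_rfl

end Pool.Agent.Lib.Ribet4b482e
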