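import Mathlib
import Pool.Agent.Lib.Ribet4b482e.WLen

open Module NumberField MvPolynomial Filter Topology

noncomputable section
namespace Pool.Agent.Lib.Ribet4b482e

variable {K : Type*} [Field K] [NumberField K] (φ : K →+* ℂ) {σ : Type*}

/-- Evaluation of a polynomial with integral coefficients at a complex point. -/
def ev (X : σ → ℂ) : MvPolynomial σ (𝓞 K) →+* ℂ :=
  eval₂Hom (φ.comp (algebraMap (𝓞 K) K)) X

omit [NumberField K] in
@[simp] lemma ev_X (X : σ → ℂ) (i : σ) : ev φ X (MvPolynomial.X i) = X i := by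
  simp [ev]

omit [NumberField K] in
@[simp] lemma ev_C (X : σ → ℂ) (a : 𝓞 K) : ev φ X (C a) = φ a := by
  simp [ev]

omit [NumberField K] in
lemma ev_map (x : σ → 𝓞 K) (P : MvPolynomial σ (𝓞 K)) :
    ev φ (fun i => φ (x i)) P = φ (eval x P : 𝓞 K) := by
  induction P using MvPolynomial.induction_on with
  | C a => simp
  | add p q hp hq => simp [hp, hq]
  | mul_X p i hp => simp [hp]

variable {φ}
variable {X : σ → ℂ → ℂ} {D : σ → MvPolynomial σ (𝓞 K)}

omit [NumberField K] in
lemma hasDerivAt_ev {z : ℂ} (h : ∀ i, HasDerivAt (X i) (ev φ (fun i => X i z) (D i)) z)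
    (P : MvPolynomial σ (𝓞 K)) :
    HasDerivAt (fun z => ev φ (fun i => X i z) P)
      (ev φ (fun i => X i z) (mkDerivation (𝓞 K) D P)) z := by
  induction P using MvPolynomial.induction_on with
  | C a =>
    have : mkDerivation (𝓞 K) D (C a) = 0 := derivation_C _ _
    simp only [ev_C, this, map_zero]
    exact hasDerivAt_const _ _
  | add p q hp hq =>
    simp only [map_add]
    exact hp.add hq
  | mul_X p i hp =>
    simp only [map_mul, ev_X, Derivation.leibniz, mkDerivation_X, smul_eq_mul, map_add]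
    refine (hp.mul (h i)).congr_deriv ?_
    ring

omit [NumberField K] in
lemma iteratedDeriv_ev {w : ℂ}
    (h : ∀ᶠ z in 𝓝 w, ∀ i, HasDerivAt (X i) (ev φ (fun i => X i z) (D i)) z)
    (P : MvPolynomial σ (𝓞 K)) (j : ℕ) :
    iteratedDeriv j (fun z => ev φ (fun i => X i z) P) =ᶠ[𝓝 w]
      fun z => ev φ (fun i => X i z) ((mkDerivation (𝓞 K) D)^[j] P) := by
  induction j with
  | zero => simp
  | succ j ih =>
    rw [iteratedDeriv_succ]
    have h1 := ih.deriv
    refine h1.trans ?_
    filter_upwards [h] with z hz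
    rw [Function.iterate_succ_apply']
    exact (hasDerivAt_ev hz _).deriv

omit [NumberField K] in
lemma analyticAt_ev {w : ℂ}
    (h : ∀ᶠ z in 𝓝 w, ∀ i, HasDerivAt (X i) (ev φ (fun i => X i z) (D i)) z)
    (P : MvPolynomial σ (𝓞 K)) : AnalyticAt ℂ (fun z => ev φ (fun i => X i z) P) w := by
  rw [Complex.analyticAt_iff_eventually_differentiableAt]
  filter_upwards [h] with z hz
  exact (hasDerivAt_ev hz P).differentiableAt

omit [NumberField K] in
lemma iteratedDeriv_ev_at {w : ℂ}
    (h : ∀ᶠ z in 𝓝 w, ∀ i, HasDerivAt (X i) (ev φ (fun i => X i z) (D i)) z)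
    {x : σ → 𝓞 K} (hx : ∀ i, X i w = φ (x i)) (P : MvPolynomial σ (𝓞 K)) (j : ℕ) :
    iteratedDeriv j (fun z => ev φ (fun i => X i z) P) w =
      φ (eval x ((mkDerivation (𝓞 K) D)^[j] P) : 𝓞 K) := by
  rw [(iteratedDeriv_ev h P j).eq_of_nhds, ← ev_map]
  congr 2
  ext i
  exact hx i

/-- Leading coefficient: `s`-th derivative at `w` of `(z - w)^s f(z)` is `s! f(w)`. -/
lemma iteratedDeriv_pow_mul {f : ℂ → ℂ} {w : ℂ} (hf : AnalyticAt ℂ f w) (s : ℕ) :
    iteratedDeriv s (fun z => (z - w) ^ s * f z) w = s.factorial * f w := by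
  induction s generalizing f with
  | zero => simp
  | succ s ih =>
    rw [iteratedDeriv_succ']
    have h1 : deriv (fun z => (z - w) ^ (s + 1) * f z) =ᶠ[𝓝 w]
        fun z => (z - w) ^ s * ((s + 1) * f z + (z - w) * deriv f z) := by
      have := hf.eventually_analyticAt
      filter_upwards [this] with z hz
      have h2 : HasDerivAt (fun z => (z - w) ^ (s + 1)) (((s + 1 : ℕ) : ℂ) * (z - w) ^ s * 1) z :=
        ((hasDerivAt_id' z).sub_const w).fun_pow (s + 1)
      rw [(h2.fun_mul hz.differentiableAt.hasDerivAt).deriv]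
      push_cast
      ring
    rw [h1.iteratedDeriv_eq, ih]
    · simp only [sub_self, zero_mul, add_zero, Nat.factorial_succ]
      push_cast
      ring
    · have := hf.deriv
      fun_prop

/-- Division of an entire function by a power of `z - w`. -/
lemma exists_entire_factor {G : ℂ → ℂ} (hG : Differentiable ℂ G) {w : ℂ} {s : ℕ}
    (hs : (s : ℕ∞) ≤ analyticOrderAt G w) :
    ∃ ψ : ℂ → ℂ, Differentiable ℂ ψ ∧ ∀ z, G z = (z - w) ^ s * ψ z := by
  have hGan : ∀ z, AnalyticAt ℂ G z := fun z => hG.analyticAt z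
  rw [natCast_le_analyticOrderAt (hGan w)] at hs
  obtain ⟨g, hg, hgG⟩ := hs
  classical
  set ψ : ℂ → ℂ := fun z => if z = w then g w else G z / (z - w) ^ s with hψ
  have h1 : ψ =ᶠ[𝓝 w] g := by
    filter_upwards [hgG] with z hz
    by_cases hzw : z = w
    · simp [hψ, hzw]
    · have : z - w ≠ 0 := sub_ne_zero.mpr hzw
      simp only [hψ, if_neg hzw, hz, smul_eq_mul]
      field_simp
  refine ⟨ψ, fun z => ?_, fun z => ?_⟩
  · by_cases hzw : z = w
    · subst hzw
      exact hg.differentiableAt.congr_of_eventuallyEq h1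
    · have h2 : DifferentiableAt ℂ (fun z => G z / (z - w) ^ s) z := by
        refine (hG z).fun_div (by fun_prop) ?_
        exact pow_ne_zero _ (sub_ne_zero.mpr hzw)
      refine h2.congr_of_eventuallyEq ?_
      filter_upwards [isOpen_ne.mem_nhds hzw] with y hy
      have : y ≠ w := hy
      simp [hψ, this]
  · by_cases hzw : z = w
    · subst hzw
      have := hgG.self_of_nhds
      simp only [smul_eq_mul] at this
      rw [this]
      simp [hψ]
    · have : z - w ≠ 0 := sub_ne_zero.mpr hzw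
      simp only [hψ, if_neg hzw]
      field_simp

/-- Division of an entire function by `∏ (z - w_k)^s`. -/
lemma exists_entire_factor_prod {ι : Type*} [DecidableEq ι] (S : Finset ι) (w : ι → ℂ)
    (hw : Function.Injective w) {G : ℂ → ℂ} (hG : Differentiable ℂ G) {s : ℕ}
    (hs : ∀ k ∈ S, (s : ℕ∞) ≤ analyticOrderAt G (w k)) :
    ∃ ψ : ℂ → ℂ, Differentiable ℂ ψ ∧ ∀ z, G z = (∏ k ∈ S, (z - w k) ^ s) * ψ z := by
  induction S using Finset.induction_on generalizing G with
  | empty => exact ⟨G, hG, by simp⟩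
  | insert a S ha ih =>
    obtain ⟨ψ, hψ, hψG⟩ := exists_entire_factor hG (hs a (Finset.mem_insert_self _ _))
    have h1 : ∀ k ∈ S, (s : ℕ∞) ≤ analyticOrderAt ψ (w k) := by
      intro k hk
      have hka : w k ≠ w a := fun h => ha (hw h ▸ hk)
      have h2 := hs k (Finset.mem_insert_of_mem hk)
      have h3 : G = (fun z => (z - w a) ^ s) * ψ := funext hψG
      have h4 : AnalyticAt ℂ (fun z => (z - w a) ^ s) (w k) := by fun_prop
      have h5 : analyticOrderAt (fun z => (z - w a) ^ s) (w k) = 0 := by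
        rw [h4.analyticOrderAt_eq_zero]
        exact pow_ne_zero _ (sub_ne_zero.mpr hka)
      rw [h3, analyticOrderAt_mul h4 (hψ.analyticAt _), h5, zero_add] at h2
      exact h2
    obtain ⟨χ, hχ, hχψ⟩ := ih hψ h1
    refine ⟨χ, hχ, fun z => ?_⟩
    rw [Finset.prod_insert ha, hψG, hχψ]
    ring

end Pool.Agent.Lib.Ribet4b482e
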