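import Mathlib
import Pool.Agent.Lib.Ribet4b482e.Ev

open Module NumberField MvPolynomial Filter Topology

noncomputable section
namespace Pool.Agent.Lib.Ribet4b482e

variable {K : Type*} [Field K] [NumberField K] {σ : Type*}

variable (K) in
/-- Siegel's lemma over a number field, with a uniform constant. -/
lemma siegel_uniform : ∃ c : ℝ, 1 ≤ c ∧ ∀ (α β : Type) [Fintype α] [Fintype β]
    (a : Matrix α β (𝓞 K)) (_ : a ≠ 0) (_ : 0 < Fintype.card α)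
    (_ : Fintype.card β = 2 * Fintype.card α) (A : ℝ) (_ : ∀ k l, hs (a k l) ≤ A),
    ∃ ξ : β → 𝓞 K, ξ ≠ 0 ∧ a.mulVec ξ = 0 ∧
      ∀ l, hs (ξ l) ≤ c * (c * Fintype.card β * A) := by
  classical
  have key : ∃ c : ℝ, ∀ (α β : Type) [Fintype α] [Fintype β]
    (a : Matrix α β (𝓞 K)) (_ : a ≠ 0) (_ : 0 < Fintype.card α)
    (_ : Fintype.card β = 2 * Fintype.card α) (A : ℝ) (_ : ∀ k l, hs (a k l) ≤ A),
    ∃ ξ : β → 𝓞 K, ξ ≠ 0 ∧ a.mulVec ξ = 0 ∧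
      ∀ l, hs (ξ l) ≤ c * (c * Fintype.card β * A) := by
    refine ⟨?c, ?_⟩
    rotate_left
    · intro α β _ _ a ha h0 hcard A hA
      have h := NumberField.house.exists_ne_zero_int_vec_house_le K a ha
        (p := Fintype.card α) (q := Fintype.card β) h0 (by omega) rfl (A := A)
        (fun k l => hA k l) rfl
      have hexp : ((Fintype.card α : ℝ) / ((Fintype.card β : ℝ) - Fintype.card α)) = 1 := by
        rw [hcard]
        push_cast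
        have : (Fintype.card α : ℝ) ≠ 0 := by positivity
        field_simp
        ring
      rw [hexp] at h
      simp only [Real.rpow_one] at h
      exact h
  obtain ⟨c, hc⟩ := key
  refine ⟨max 1 |c|, le_max_left _ _, fun α β _ _ a ha h0 hcard A hA => ?_⟩
  obtain ⟨ξ, h1, h2, h3⟩ := hc α β a ha h0 hcard A hA
  refine ⟨ξ, h1, h2, fun l => (h3 l).trans ?_⟩
  have hA0 : 0 ≤ A := by
    obtain ⟨k⟩ := Fintype.card_pos_iff.mp h0
    exact (hs_nonneg _).trans (hA k l)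
  have h4 : |c| ≤ max 1 |c| := le_max_right _ _
  calc c * (c * Fintype.card β * A) = |c| * |c| * (Fintype.card β * A) := by
        rw [abs_mul_abs_self]; ring
    _ ≤ max 1 |c| * max 1 |c| * (Fintype.card β * A) := by gcongr
    _ = _ := by ring

/-- The monomial `X_{i₁}^a X_{i₂}^b`. -/
def mon (K : Type*) [Field K] (i₁ i₂ : σ) (a b : ℕ) : MvPolynomial σ (𝓞 K) :=
  MvPolynomial.X i₁ ^ a * MvPolynomial.X i₂ ^ b

omit [NumberField K] in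
lemma mon_eq (i₁ i₂ : σ) (a b : ℕ) : mon K i₁ i₂ a b =
    monomial (Finsupp.single i₁ a + Finsupp.single i₂ b) 1 := by
  rw [mon, X_pow_eq_monomial, X_pow_eq_monomial, monomial_mul, one_mul]

lemma wlen_mon {ρ : ℝ} (i₁ i₂ : σ) (a b : ℕ) : wlen ρ (mon K i₁ i₂ a b) = ρ ^ (a + b) := by
  rw [mon_eq, wlen_monomial]
  simp

omit [NumberField K] in
lemma totalDegree_mon_le (i₁ i₂ : σ) (a b : ℕ) : (mon K i₁ i₂ a b).totalDegree ≤ a + b := by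
  rw [mon_eq]
  refine (totalDegree_monomial_le _ _).trans ?_
  have : (Finsupp.single i₁ a + Finsupp.single i₂ b).sum (fun _ => id) =
      (Finsupp.single i₁ a + Finsupp.single i₂ b).degree := by
    rw [Finsupp.degree_apply]; rfl
  rw [this]
  simp

omit [NumberField K] in
lemma iterate_deriv_sum (D : σ → MvPolynomial σ (𝓞 K)) {ι : Type*} (S : Finset ι)
    (ξ : ι → 𝓞 K) (p : ι → MvPolynomial σ (𝓞 K)) (j : ℕ) :
    (mkDerivation (𝓞 K) D)^[j] (∑ l ∈ S, C (ξ l) * p l) =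
      ∑ l ∈ S, C (ξ l) * (mkDerivation (𝓞 K) D)^[j] (p l) := by
  induction j with
  | zero => simp
  | succ j ih =>
    rw [Function.iterate_succ_apply', ih, map_sum]
    refine Finset.sum_congr rfl fun l _ => ?_
    rw [Function.iterate_succ_apply', ← smul_eq_C_mul, ← smul_eq_C_mul, Derivation.map_smul]

/-- A uniform bound for finitely many points and polynomials. -/
lemma exists_consts [Fintype σ] (D : σ → MvPolynomial σ (𝓞 K)) {m : ℕ} (x : Fin m → σ → 𝓞 K) :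
    ∃ ρ M : ℝ, 1 ≤ ρ ∧ 1 ≤ M ∧ (∀ k i, hs (x k i) ≤ ρ) ∧ (∀ i, wlen ρ (D i) ≤ M) := by
  set ρ : ℝ := 1 + ∑ k, ∑ i, hs (x k i) with hρdef
  have hρ : 1 ≤ ρ := by
    have : 0 ≤ ∑ k, ∑ i, hs (x k i) :=
      Finset.sum_nonneg fun k _ => Finset.sum_nonneg fun i _ => hs_nonneg _
    linarith
  have hρ0 : 0 ≤ ρ := by linarith
  have hxρ : ∀ k i, hs (x k i) ≤ ρ := by
    intro k i
    have h1 : hs (x k i) ≤ ∑ i, hs (x k i) :=
      Finset.single_le_sum (f := fun i => hs (x k i)) (fun i _ => hs_nonneg _) (Finset.mem_univ i)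
    have h2 : ∑ i, hs (x k i) ≤ ∑ k, ∑ i, hs (x k i) :=
      Finset.single_le_sum (f := fun k => ∑ i, hs (x k i))
        (fun k _ => Finset.sum_nonneg fun i _ => hs_nonneg _) (Finset.mem_univ k)
    linarith
  set M : ℝ := 1 + ∑ i, wlen ρ (D i) with hMdef
  have hM : 1 ≤ M := by
    have : 0 ≤ ∑ i, wlen ρ (D i) := Finset.sum_nonneg fun i _ => wlen_nonneg hρ0 _
    linarith
  have hDM : ∀ i, wlen ρ (D i) ≤ M := by
    intro i
    have h1 : wlen ρ (D i) ≤ ∑ i, wlen ρ (D i) :=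
      Finset.single_le_sum (f := fun i => wlen ρ (D i)) (fun i _ => wlen_nonneg hρ0 _)
        (Finset.mem_univ i)
    linarith
  exact ⟨ρ, M, hρ, hM, hxρ, hDM⟩

lemma entry_bound {D : σ → MvPolynomial σ (𝓞 K)} (hD : ∀ i, (D i).totalDegree ≤ 2)
    {ρ M : ℝ} (hρ : 1 ≤ ρ) (hM : 1 ≤ M) (hDM : ∀ i, wlen ρ (D i) ≤ M) {x : σ → 𝓞 K}
    (hx : ∀ i, hs (x i) ≤ ρ) (i₁ i₂ : σ) {Λ T u v j : ℕ} (hu : u < Λ) (hv : v < Λ) (hj : j < T) :
    hs (eval x ((mkDerivation (𝓞 K) D)^[j] (mon K i₁ i₂ u v))) ≤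
      (((2 * Λ + T : ℕ) : ℝ) * M) ^ T * ρ ^ (2 * Λ) := by
  have hρ0 : 0 ≤ ρ := by linarith
  have h1 := hs_eval_le hρ0 ((mkDerivation (𝓞 K) D)^[j] (mon K i₁ i₂ u v)) x hx
  refine h1.trans ?_
  obtain ⟨-, h2⟩ := iterate_deriv_bounds hρ hDM (by linarith) hD (mon K i₁ i₂ u v) j
  refine h2.trans ?_
  rw [wlen_mon]
  have h3 := totalDegree_mon_le (K := K) i₁ i₂ u v
  have h4 : (((mon K i₁ i₂ u v).totalDegree + j : ℕ) : ℝ) ≤ ((2 * Λ + T : ℕ) : ℝ) := by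
    exact_mod_cast (by omega)
  have h5 : (1 : ℝ) ≤ ((2 * Λ + T : ℕ) : ℝ) * M := by
    have : (1 : ℝ) ≤ ((2 * Λ + T : ℕ) : ℝ) := by exact_mod_cast (by omega)
    nlinarith
  have h6 : (0 : ℝ) ≤ (((mon K i₁ i₂ u v).totalDegree + j : ℕ) : ℝ) * M := by positivity
  have h7 : ((((mon K i₁ i₂ u v).totalDegree + j : ℕ) : ℝ) * M) ^ j ≤
      (((2 * Λ + T : ℕ) : ℝ) * M) ^ T :=
    (pow_le_pow_left₀ h6 (mul_le_mul_of_nonneg_right h4 (by linarith)) j).trans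
      (pow_le_pow_right₀ h5 hj.le)
  have h8 : ρ ^ (u + v) ≤ ρ ^ (2 * Λ) := pow_le_pow_right₀ hρ (by omega)
  exact mul_le_mul h7 h8 (by positivity) (by positivity)

/-- The auxiliary polynomial. -/
lemma exists_aux {c : ℝ} (hsieg : ∀ (α β : Type) [Fintype α] [Fintype β]
    (a : Matrix α β (𝓞 K)) (_ : a ≠ 0) (_ : 0 < Fintype.card α)
    (_ : Fintype.card β = 2 * Fintype.card α) (A : ℝ) (_ : ∀ k l, hs (a k l) ≤ A),
    ∃ ξ : β → 𝓞 K, ξ ≠ 0 ∧ a.mulVec ξ = 0 ∧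
      ∀ l, hs (ξ l) ≤ c * (c * Fintype.card β * A))
    {D : σ → MvPolynomial σ (𝓞 K)} (hD : ∀ i, (D i).totalDegree ≤ 2)
    {m : ℕ} (hm : 0 < m) {x : Fin m → σ → 𝓞 K} (i₁ i₂ : σ)
    {ρ M : ℝ} (hρ : 1 ≤ ρ) (hM : 1 ≤ M) (hDM : ∀ i, wlen ρ (D i) ≤ M)
    (hx : ∀ k i, hs (x k i) ≤ ρ) {Λ T : ℕ} (hΛ : 0 < Λ) (hT : 0 < T)
    (hΛT : Λ * Λ = 2 * (m * T)) :
    ∃ ξ : Fin Λ × Fin Λ → 𝓞 K, ξ ≠ 0 ∧
      (∀ l, hs (ξ l) ≤ c * (c * ((Λ * Λ : ℕ) : ℝ) *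
        ((((2 * Λ + T : ℕ) : ℝ) * M) ^ T * ρ ^ (2 * Λ)))) ∧
      ∀ k, ∀ j < T, eval (x k) ((mkDerivation (𝓞 K) D)^[j]
        (∑ l, C (ξ l) * mon K i₁ i₂ l.1 l.2)) = 0 := by
  let a : Matrix (Fin m × Fin T) (Fin Λ × Fin Λ) (𝓞 K) := fun kj l =>
    eval (x kj.1) ((mkDerivation (𝓞 K) D)^[(kj.2 : ℕ)] (mon K i₁ i₂ l.1 l.2))
  have ha : a ≠ 0 := by
    intro h
    have h1 := congrFun (congrFun h (⟨0, hm⟩, ⟨0, hT⟩)) (⟨0, hΛ⟩, ⟨0, hΛ⟩)
    simp [a, mon] at h1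
  have hA : ∀ k l, hs (a k l) ≤ (((2 * Λ + T : ℕ) : ℝ) * M) ^ T * ρ ^ (2 * Λ) := fun k l =>
    entry_bound hD hρ hM hDM (hx k.1) i₁ i₂ l.1.2 l.2.2 k.2.2
  have hcard1 : Fintype.card (Fin m × Fin T) = m * T := by simp
  have hcard2 : Fintype.card (Fin Λ × Fin Λ) = Λ * Λ := by simp
  obtain ⟨ξ, h1, h2, h3⟩ := hsieg (Fin m × Fin T) (Fin Λ × Fin Λ) a ha
    (by rw [hcard1]; positivity) (by rw [hcard1, hcard2, hΛT]) _ hA
  rw [hcard2] at h3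
  refine ⟨ξ, h1, h3, fun k j hj => ?_⟩
  rw [iterate_deriv_sum, map_sum]
  have := congrFun h2 (k, ⟨j, hj⟩)
  simp only [Matrix.mulVec, dotProduct, Pi.zero_apply, a] at this
  rw [← this]
  refine Finset.sum_congr rfl fun l _ => ?_
  rw [map_mul, eval_C, mul_comm]

end Pool.Agent.Lib.Ribet4b482e
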