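import Mathlib
import Pool.Agent.Lib.Ribet4b482e.Siegel

open Module NumberField MvPolynomial Filter Topology

noncomputable section
namespace Pool.Agent.Lib.Ribet4b482e

/-- The analytic estimate (Schwarz lemma) in the Schneider-Lang method. -/
lemma analytic_part {m : ℕ} {w : Fin m → ℂ} (hw : Function.Injective w) {G F Θ : ℂ → ℂ}
    (hG : Differentiable ℂ G) (hΘ : Differentiable ℂ Θ) (hF : ∀ k, AnalyticAt ℂ F (w k))
    (hGF : ∀ k, G =ᶠ[𝓝 (w k)] fun z => Θ z * F z) {s : ℕ}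
    (hs : ∀ k, (s : ℕ∞) ≤ analyticOrderAt F (w k)) {R W Gmax : ℝ}
    (hW : ∀ k, ‖w k‖ ≤ W) (hW1 : 1 ≤ W) (hR : 2 * W ≤ R)
    (hGmax : ∀ z, ‖z‖ = R → ‖G z‖ ≤ Gmax) (k₀ : Fin m) :
    ‖Θ (w k₀)‖ * ‖iteratedDeriv s F (w k₀)‖ ≤
      s.factorial * (2 * W) ^ (m * s) * (Gmax * (2 / R) ^ (m * s)) := by
  classical
  have hR0 : 0 < R := by linarith
  -- order of vanishing of `G`
  have hGord : ∀ k ∈ (Finset.univ : Finset (Fin m)), (s : ℕ∞) ≤ analyticOrderAt G (w k) := by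
    intro k _
    rw [analyticOrderAt_congr (hGF k)]
    have h1 : analyticOrderAt (fun z => Θ z * F z) (w k) =
        analyticOrderAt Θ (w k) + analyticOrderAt F (w k) :=
      analyticOrderAt_mul (hΘ.analyticAt _) (hF k)
    rw [h1]
    exact (hs k).trans le_add_self
  obtain ⟨ψ, hψ, hψG⟩ := exists_entire_factor_prod Finset.univ w hw hG hGord
  -- bound on the circle
  have hψR : ∀ z, ‖z‖ = R → ‖ψ z‖ ≤ Gmax * (2 / R) ^ (m * s) := by
    intro z hz
    have h1 := hGmax z hz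
    rw [hψG z, norm_mul, norm_prod] at h1
    have h2 : (R / 2) ^ (m * s) ≤ ∏ k : Fin m, ‖(z - w k) ^ s‖ := by
      have : ∀ k ∈ (Finset.univ : Finset (Fin m)), (R / 2) ^ s ≤ ‖(z - w k) ^ s‖ := by
        intro k _
        rw [norm_pow]
        refine pow_le_pow_left₀ (by positivity) ?_ s
        have h3 := norm_sub_norm_le z (w k)
        have h4 := hW k
        linarith
      calc (R / 2) ^ (m * s) = ∏ k : Fin m, (R / 2) ^ s := by
            rw [Finset.prod_const, Finset.card_univ, Fintype.card_fin, ← pow_mul, mul_comm]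
        _ ≤ _ := Finset.prod_le_prod (fun _ _ => by positivity) this
    have h5 : (R / 2) ^ (m * s) * ‖ψ z‖ ≤ Gmax :=
      (mul_le_mul_of_nonneg_right h2 (norm_nonneg _)).trans h1
    have h6 : (2 / R) ^ (m * s) * (R / 2) ^ (m * s) = 1 := by
      rw [← mul_pow]
      have : (2 / R) * (R / 2) = 1 := by field_simp
      rw [this, one_pow]
    calc ‖ψ z‖ = (2 / R) ^ (m * s) * ((R / 2) ^ (m * s) * ‖ψ z‖) := by
          rw [← mul_assoc, h6, one_mul]
      _ ≤ (2 / R) ^ (m * s) * Gmax := by gcongr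
      _ = _ := mul_comm _ _
  -- maximum principle
  have hψw : ‖ψ (w k₀)‖ ≤ Gmax * (2 / R) ^ (m * s) := by
    refine Complex.norm_le_of_forall_mem_frontier_norm_le (U := Metric.ball (0 : ℂ) R)
      Metric.isBounded_ball hψ.diffContOnCl (fun z hz => ?_) ?_
    · rw [frontier_ball (0 : ℂ) hR0.ne'] at hz
      exact hψR z (by simpa using hz)
    · apply subset_closure
      have := hW k₀
      simp only [Metric.mem_ball, dist_zero_right]
      linarith
  -- compare leading coefficients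
  have hFo := hs k₀
  rw [natCast_le_analyticOrderAt (hF k₀)] at hFo
  obtain ⟨f, hf, hfF⟩ := hFo
  have hFd : iteratedDeriv s F (w k₀) = s.factorial * f (w k₀) := by
    have : F =ᶠ[𝓝 (w k₀)] fun z => (z - w k₀) ^ s * f z := by
      filter_upwards [hfF] with z hz
      rw [hz, smul_eq_mul]
    rw [this.iteratedDeriv_eq, iteratedDeriv_pow_mul hf]
  set χ : ℂ → ℂ := fun z => (∏ k ∈ Finset.univ.erase k₀, (z - w k) ^ s) * ψ z with hχ
  have hχan : AnalyticAt ℂ χ (w k₀) := by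
    have h1 : Differentiable ℂ (fun z => ∏ k ∈ Finset.univ.erase k₀, (z - w k) ^ s) := by
      refine Differentiable.fun_finsetProd fun k _ => ?_
      fun_prop
    exact (h1.mul hψ).analyticAt _
  have hGχ : ∀ z, G z = (z - w k₀) ^ s * χ z := by
    intro z
    rw [hψG z, hχ, ← Finset.mul_prod_erase _ _ (Finset.mem_univ k₀)]
    ring
  have e1 : iteratedDeriv s G (w k₀) = s.factorial * χ (w k₀) := by
    rw [show G = fun z => (z - w k₀) ^ s * χ z from funext hGχ, iteratedDeriv_pow_mul hχan]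
  have e2 : iteratedDeriv s G (w k₀) = s.factorial * (Θ (w k₀) * f (w k₀)) := by
    have h1 : G =ᶠ[𝓝 (w k₀)] fun z => (z - w k₀) ^ s * (Θ z * f z) := by
      filter_upwards [hGF k₀, hfF] with z h2 h3
      rw [h2, h3, smul_eq_mul]
      ring
    have h4 : AnalyticAt ℂ (fun z => Θ z * f z) (w k₀) := (hΘ.analyticAt _).mul hf
    rw [h1.iteratedDeriv_eq, iteratedDeriv_pow_mul h4]
  have e3 : Θ (w k₀) * iteratedDeriv s F (w k₀) = s.factorial * χ (w k₀) := by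
    rw [hFd, ← e1, e2]
    ring
  rw [← norm_mul, e3, norm_mul, hχ]
  simp only [norm_mul, norm_prod, norm_pow, Complex.norm_natCast]
  have h7 : ∏ k ∈ Finset.univ.erase k₀, ‖w k₀ - w k‖ ^ s ≤ (2 * W) ^ (m * s) := by
    calc ∏ k ∈ Finset.univ.erase k₀, ‖w k₀ - w k‖ ^ s
        ≤ ∏ k ∈ (Finset.univ.erase k₀ : Finset (Fin m)), (2 * W) ^ s := by
          refine Finset.prod_le_prod (fun _ _ => by positivity) fun k _ => ?_
          refine pow_le_pow_left₀ (norm_nonneg _) ?_ s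
          calc ‖w k₀ - w k‖ ≤ ‖w k₀‖ + ‖w k‖ := norm_sub_le _ _
            _ ≤ 2 * W := by linarith [hW k₀, hW k]
      _ = (2 * W) ^ (s * (m - 1)) := by
          rw [Finset.prod_const, Finset.card_erase_of_mem (Finset.mem_univ _), Finset.card_univ,
            Fintype.card_fin, ← pow_mul]
      _ ≤ (2 * W) ^ (m * s) := by
          refine pow_le_pow_right₀ (by linarith) ?_
          rw [mul_comm]
          exact Nat.mul_le_mul_right _ (Nat.sub_le _ _)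
  calc (s.factorial : ℝ) * ((∏ k ∈ Finset.univ.erase k₀, ‖w k₀ - w k‖ ^ s) * ‖ψ (w k₀)‖)
      ≤ s.factorial * ((2 * W) ^ (m * s) * (Gmax * (2 / R) ^ (m * s))) := by
        gcongr
    _ = _ := by ring

lemma sq_le_four_pow (s : ℕ) : (s : ℝ) ^ 2 ≤ 4 ^ s := by
  have h1 : (s : ℝ) ≤ 2 ^ s := by
    exact_mod_cast (Nat.lt_two_pow_self (n := s)).le
  calc (s : ℝ) ^ 2 ≤ (2 ^ s) ^ 2 := by gcongr
    _ = 4 ^ s := by rw [← pow_mul, mul_comm, pow_mul]; norm_num

/-- Numerical bound for the coefficients of the auxiliary polynomial. -/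
lemma numeric1 {c ρ M : ℝ} (hc : 1 ≤ c) (hρ : 1 ≤ ρ) (hM : 1 ≤ M) {Λ T s : ℕ} (hT : T ≤ s)
    (hΛ : Λ ≤ s) (hs : 1 ≤ s) :
    c * (c * ((Λ * Λ : ℕ) : ℝ) * ((((2 * Λ + T : ℕ) : ℝ) * M) ^ T * ρ ^ (2 * Λ))) ≤
      (12 * c ^ 2 * M * ρ ^ 2 * s) ^ s := by
  have hsR : (1 : ℝ) ≤ s := by exact_mod_cast hs
  have hΛR : (Λ : ℝ) ≤ s := by exact_mod_cast hΛ
  have hTR : (T : ℝ) ≤ s := by exact_mod_cast hT
  have h1 : ((Λ * Λ : ℕ) : ℝ) ≤ 4 ^ s := by
    refine le_trans ?_ (sq_le_four_pow s)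
    push_cast
    nlinarith [Nat.cast_nonneg (α := ℝ) Λ]
  have h2 : (((2 * Λ + T : ℕ) : ℝ) * M) ^ T ≤ (3 * s * M) ^ s := by
    have h3 : ((2 * Λ + T : ℕ) : ℝ) * M ≤ 3 * s * M := by
      push_cast
      gcongr
      linarith
    have h4 : 1 ≤ 3 * (s : ℝ) * M := by nlinarith
    calc (((2 * Λ + T : ℕ) : ℝ) * M) ^ T ≤ (3 * s * M) ^ T := by gcongr
      _ ≤ _ := pow_le_pow_right₀ h4 hT
  have h5 : ρ ^ (2 * Λ) ≤ (ρ ^ 2) ^ s := by
    rw [pow_mul]
    exact pow_le_pow_right₀ (by nlinarith) hΛ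
  have h6 : c ^ 2 ≤ (c ^ 2) ^ s := le_self_pow₀ (by nlinarith) (by omega)
  calc c * (c * ((Λ * Λ : ℕ) : ℝ) * ((((2 * Λ + T : ℕ) : ℝ) * M) ^ T * ρ ^ (2 * Λ)))
      = c ^ 2 * (((Λ * Λ : ℕ) : ℝ) * ((((2 * Λ + T : ℕ) : ℝ) * M) ^ T * ρ ^ (2 * Λ))) := by ring
    _ ≤ (c ^ 2) ^ s * (4 ^ s * ((3 * s * M) ^ s * (ρ ^ 2) ^ s)) := by gcongr
    _ = _ := by
      rw [← mul_pow, ← mul_pow, ← mul_pow]
      congr 1
      ring

end Pool.Agent.Lib.Ribet4b482e
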