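import Mathlib
import Pool.Agent.Lib.Ribet4b482e.Growth

open Module Filter Topology Complex

noncomputable section
namespace Pool.Agent.Lib.Ribet4b482e

variable (L : PeriodPair)

/-- The function `σ(z+q)/(σ(z)σ(q)) e^{-κz}`. -/
def fq (q κ z : ℂ) : ℂ := sigmaW L (z + q) / (sigmaW L z * sigmaW L q) * exp (-(κ * z))

/-- The function `ζ(z+q) - ζ(z) - ζ(q)`. -/
def hq (q z : ℂ) : ℂ := zetaW L (z + q) - zetaW L z - zetaW L q

lemma hasDerivAt_fq {q κ z : ℂ} (hq' : q ∉ L.lattice) (hz : z ∉ L.lattice)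
    (hzq : z + q ∉ L.lattice) :
    HasDerivAt (fq L q κ) (fq L q κ z * (hq L q z + zetaW L q - κ)) z := by
  have h1 : HasDerivAt (fun z => sigmaW L (z + q)) (zetaW L (z + q) * sigmaW L (z + q)) z :=
    (hasDerivAt_sigmaW L hzq).comp_add_const z q
  have h2 : HasDerivAt (fun z => sigmaW L z * sigmaW L q)
      (zetaW L z * sigmaW L z * sigmaW L q) z := (hasDerivAt_sigmaW L hz).mul_const _
  have n1 := sigmaW_ne_zero L hz
  have n2 := sigmaW_ne_zero L hq'
  have h3 := h1.fun_div h2 (mul_ne_zero n1 n2)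
  have h4 : HasDerivAt (fun z => exp (-(κ * z))) (exp (-(κ * z)) * (-(κ * 1))) z :=
    (((hasDerivAt_id' z).const_mul κ).fun_neg).cexp
  refine (h3.fun_mul h4).congr_deriv ?_
  rw [fq, hq]
  field_simp
  ring

lemma hq_eq_slope {q z : ℂ} (hq' : q ∉ L.lattice) (hz : z ∉ L.lattice)
    (hzq : z + q ∉ L.lattice) (hzq' : z - q ∉ L.lattice) :
    hq L q z = slopeP L z q / 2 := by
  rw [hq, zetaW_add_eq L hz hq' hzq hzq', slopeP]
  ring

lemma hasDerivAt_hq {q z : ℂ} (hq' : q ∉ L.lattice) (hz : z ∉ L.lattice)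
    (hzq : z + q ∉ L.lattice) (hzq' : z - q ∉ L.lattice) :
    HasDerivAt (hq L q) (2 * L.weierstrassP z + L.weierstrassP q - hq L q z ^ 2) z := by
  have h1 : HasDerivAt (hq L q) (-L.weierstrassP (z + q) - -L.weierstrassP z) z := by
    have a1 := (hasDerivAt_zetaW L hzq).comp_add_const z q
    exact (a1.sub (hasDerivAt_zetaW L hz)).sub_const _
  refine h1.congr_deriv ?_
  rw [hq_eq_slope L hq' hz hzq hzq', weierstrassP_add L hz hq' hzq hzq']
  ring

lemma fq_add {q κ l : ℂ} (hl : l ∈ L.lattice) (z : ℂ) :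
    fq L q κ (z + l) = exp (etaW L l * q - κ * l) * fq L q κ z := by
  obtain ⟨C, hC, hCl⟩ := exists_sigmaW_add L hl
  rw [fq, fq, show z + l + q = (z + q) + l by ring, hCl, hCl]
  have e1 : exp (etaW L l * (z + q)) = exp (etaW L l * z) * exp (etaW L l * q) := by
    rw [← exp_add]; ring_nf
  have e2 : exp (-(κ * (z + l))) = exp (-(κ * z)) * exp (-(κ * l)) := by
    rw [← exp_add]; ring_nf
  have e3 : exp (etaW L l * q - κ * l) = exp (etaW L l * q) * exp (-(κ * l)) := by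
    rw [← exp_add]; ring_nf
  rw [e1, e2, e3]
  have n1 := exp_ne_zero (etaW L l * z)
  by_cases hz : sigmaW L z = 0
  · simp [hz]
  by_cases hq : sigmaW L q = 0
  · simp [hq]
  field_simp

lemma fq_ne_zero {q κ z : ℂ} (hq' : q ∉ L.lattice) (hz : z ∉ L.lattice)
    (hzq : z + q ∉ L.lattice) : fq L q κ z ≠ 0 := by
  rw [fq]
  exact mul_ne_zero (div_ne_zero (sigmaW_ne_zero L hzq)
    (mul_ne_zero (sigmaW_ne_zero L hz) (sigmaW_ne_zero L hq'))) (exp_ne_zero _)

/-! ### Gaussian multiples of a non-torsion point -/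

lemma zi_mul_mem (hI : L.ω₂ = I * L.ω₁) {l : ℂ} (hl : l ∈ L.lattice) (a b : ℤ) :
    ((a : ℂ) + b * I) * l ∈ L.lattice := by
  have h1 := L.lattice.smul_mem a hl
  have h2 := L.lattice.smul_mem b (I_mul_mem L hI hl)
  have h3 := add_mem h1 h2
  simp only [zsmul_eq_mul] at h3
  rwa [show (a : ℂ) * l + b * (I * l) = ((a : ℂ) + b * I) * l by ring] at h3

lemma zi_mul_notMem (hI : L.ω₂ = I * L.ω₁) {q : ℂ}
    (hq : ∀ n : ℤ, n ≠ 0 → (n : ℂ) * q ∉ L.lattice) {a b : ℤ} (hab : a ≠ 0 ∨ b ≠ 0) :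
    ((a : ℂ) + b * I) * q ∉ L.lattice := by
  intro h
  have h1 := zi_mul_mem L hI h a (-b)
  have h2 : ((a : ℂ) + ((-b : ℤ) : ℂ) * I) * (((a : ℂ) + b * I) * q) = ((a ^ 2 + b ^ 2 : ℤ) : ℂ) * q := by
    push_cast
    linear_combination (-(b : ℂ) ^ 2 * q) * I_sq
  rw [h2] at h1
  refine hq _ ?_ h1
  rcases hab with h | h
  · have := pow_pos (abs_pos.mpr h) 2
    rw [sq_abs] at this
    positivity
  · have := pow_pos (abs_pos.mpr h) 2
    rw [sq_abs] at this
    positivity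

section field

variable {L}
variable (hI : L.ω₂ = I * L.ω₁) {q : ℂ} (hq : ∀ n : ℤ, n ≠ 0 → (n : ℂ) * q ∉ L.lattice)
  (K : Subfield ℂ) (hKI : I ∈ K) (hKg : L.g₂ ∈ K) (hKP : L.weierstrassP q ∈ K)
  (hKP' : L.derivWeierstrassP q ∈ K)

include hI hq hKI hKg hKP hKP'

lemma zi_mem_field {a b : ℤ} (hab : a ≠ 0 ∨ b ≠ 0) :
    L.weierstrassP (((a : ℂ) + b * I) * q) ∈ K ∧
      L.derivWeierstrassP (((a : ℂ) + b * I) * q) ∈ K := by
  have h1 : q ∈ pointSubgroup L K hKg := Or.inr ⟨hKP, hKP'⟩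
  have h2 : I * q ∈ pointSubgroup L K hKg := by
    right
    rw [weierstrassP_I_mul L hI, derivWeierstrassP_I_mul L hI]
    exact ⟨neg_mem hKP, mul_mem hKI hKP'⟩
  have h3 : ((a : ℂ) + b * I) * q ∈ pointSubgroup L K hKg := by
    have := add_mem (zsmul_mem h1 a) (zsmul_mem h2 b)
    simp only [zsmul_eq_mul] at this
    rwa [show (a : ℂ) * q + b * (I * q) = ((a : ℂ) + b * I) * q by ring] at this
  exact h3.resolve_left (zi_mul_notMem L hI hq hab)

lemma V_mem (M : ℕ) : sigmaW L (M * q) / sigmaW L q ^ (M ^ 2) ∈ K ∧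
    sigmaW L ((M + 1 : ℕ) * q) / sigmaW L q ^ ((M + 1) ^ 2) ∈ K := by
  have hq0 : q ∉ L.lattice := by simpa using hq 1 one_ne_zero
  have hσ := sigmaW_ne_zero L hq0
  induction M with
  | zero => simp [hσ]
  | succ M ih =>
    refine ⟨ih.2, ?_⟩
    rcases Nat.eq_zero_or_pos M with rfl | hM
    · have := sigmaW_two_mul L hq0
      norm_num
      rw [this, mul_div_assoc, div_self (pow_ne_zero 4 hσ), mul_one]
      exact neg_mem hKP'
    · have hM1 : ((M + 1 : ℕ) : ℂ) * q ∉ L.lattice := by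
        have := hq (M + 1 : ℕ) (by positivity)
        simpa using this
      have hM0 : (M : ℂ) * q ∉ L.lattice := by
        have := hq (M : ℕ) (by positivity)
        simpa using this
      have hP : L.weierstrassP (((M + 1 : ℕ) : ℂ) * q) ∈ K := by
        have := (zi_mem_field hI hq K hKI hKg hKP hKP' (a := (M + 1 : ℕ)) (b := 0)
          (Or.inl (by positivity))).1
        simpa using this
      have key := sigmaW_mul_sigmaW L hM1 hq0
      rw [show ((M + 1 : ℕ) : ℂ) * q + q = ((M + 1 + 1 : ℕ) : ℂ) * q by push_cast; ring,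
        show ((M + 1 : ℕ) : ℂ) * q - q = (M : ℂ) * q by push_cast; ring] at key
      have n0 := sigmaW_ne_zero L hM0
      have e : sigmaW L (((M + 1 + 1 : ℕ) : ℂ) * q) / sigmaW L q ^ ((M + 1 + 1) ^ 2) =
          (L.weierstrassP q - L.weierstrassP (((M + 1 : ℕ) : ℂ) * q)) *
            (sigmaW L (((M + 1 : ℕ) : ℂ) * q) / sigmaW L q ^ ((M + 1) ^ 2)) ^ 2 /
            (sigmaW L ((M : ℂ) * q) / sigmaW L q ^ (M ^ 2)) := by
        rw [div_pow, eq_div_iff (div_ne_zero n0 (pow_ne_zero _ hσ)), div_mul_div_comm, key]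
        rw [← pow_add, ← pow_mul, mul_div_assoc', div_eq_div_iff (pow_ne_zero _ hσ)
          (pow_ne_zero _ hσ)]
        have : (M + 1 + 1) ^ 2 + M ^ 2 = (M + 1) ^ 2 * 2 + 2 := by ring
        rw [this, pow_add]
        ring
      rw [e]
      exact div_mem (mul_mem (sub_mem hKP hP) (pow_mem ih.2 2)) ih.1

lemma U_mem (hU : sigmaW L (q + I * q) / sigmaW L q ^ 2 ∈ K) (M : ℕ) :
    sigmaW L ((1 + M * I) * q) / sigmaW L q ^ (1 + M ^ 2) ∈ K ∧
    sigmaW L ((1 + (M + 1 : ℕ) * I) * q) / sigmaW L q ^ (1 + (M + 1) ^ 2) ∈ K := by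
  have hq0 : q ∉ L.lattice := by simpa using hq 1 one_ne_zero
  have hσ := sigmaW_ne_zero L hq0
  have hIq : I * q ∉ L.lattice := fun h => hq0 ((I_mul_mem_iff L hI).mp h)
  have hN : ∀ M : ℕ, (1 + (M : ℂ) * I) * q ∉ L.lattice := by
    intro M
    have := zi_mul_notMem L hI hq (a := 1) (b := M) (Or.inl one_ne_zero)
    simpa using this
  induction M with
  | zero =>
    refine ⟨by simp [hσ], ?_⟩
    simpa [add_mul] using hU
  | succ M ih =>
    refine ⟨ih.2, ?_⟩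
    have hP : L.weierstrassP ((1 + ((M + 1 : ℕ) : ℂ) * I) * q) ∈ K := by
      have := (zi_mem_field hI hq K hKI hKg hKP hKP' (a := 1) (b := (M + 1 : ℕ))
        (Or.inl one_ne_zero)).1
      simpa using this
    have key := sigmaW_mul_sigmaW L (hN (M + 1)) hIq
    rw [show (1 + ((M + 1 : ℕ) : ℂ) * I) * q + I * q = (1 + ((M + 1 + 1 : ℕ) : ℂ) * I) * q by
        push_cast; ring,
      show (1 + ((M + 1 : ℕ) : ℂ) * I) * q - I * q = (1 + (M : ℂ) * I) * q by
        push_cast; ring, weierstrassP_I_mul L hI, sigmaW_I_mul L hI] at key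
    have n0 := sigmaW_ne_zero L (hN M)
    have e : sigmaW L ((1 + ((M + 1 + 1 : ℕ) : ℂ) * I) * q) / sigmaW L q ^ (1 + (M + 1 + 1) ^ 2) =
        (L.weierstrassP q + L.weierstrassP ((1 + ((M + 1 : ℕ) : ℂ) * I) * q)) *
          (sigmaW L ((1 + ((M + 1 : ℕ) : ℂ) * I) * q) / sigmaW L q ^ (1 + (M + 1) ^ 2)) ^ 2 /
          (sigmaW L ((1 + (M : ℂ) * I) * q) / sigmaW L q ^ (1 + M ^ 2)) := by
      rw [div_pow, eq_div_iff (div_ne_zero n0 (pow_ne_zero _ hσ)), div_mul_div_comm, key]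
      rw [← pow_add, ← pow_mul, mul_div_assoc', div_eq_div_iff (pow_ne_zero _ hσ)
        (pow_ne_zero _ hσ)]
      have : (1 + (M + 1 + 1) ^ 2) + (1 + M ^ 2) = (1 + (M + 1) ^ 2) * 2 + 2 := by ring
      rw [this, pow_add, mul_pow, I_sq]
      ring
    rw [e]
    exact div_mem (mul_mem (add_mem hKP hP) (pow_mem ih.2 2)) ih.1

end field

end Pool.Agent.Lib.Ribet4b482e
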