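import Mathlib
import Pool.Agent.Lib.Ribet4b482e.Fun
import Pool.Agent.Lib.Ribet4b482e.Exist

open Module Filter Topology Complex

noncomputable section
namespace Pool.Agent.Lib.Ribet4b482e

variable (L : PeriodPair)

/-- The multiplier of `fq` along some period is not a root of unity. -/
lemma exists_nonroot (hI : L.ω₂ = I * L.ω₁) {q : ℂ}
    (hq : ∀ n : ℤ, n ≠ 0 → (n : ℂ) * q ∉ L.lattice) (κ : ℂ) :
    ∃ l ∈ L.lattice, ∀ n : ℕ, n ≠ 0 → exp (etaW L l * q - κ * l) ^ n ≠ 1 := by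
  by_contra! hcon
  obtain ⟨n₁, hn₁, h1⟩ := hcon _ L.ω₁_mem_lattice
  obtain ⟨n₂, hn₂, h2⟩ := hcon _ L.ω₂_mem_lattice
  rw [← exp_nat_mul, exp_eq_one_iff] at h1 h2
  obtain ⟨k₁, hk₁⟩ := h1
  obtain ⟨k₂, hk₂⟩ := h2
  obtain ⟨r, hr⟩ := legendre_int L
  rw [etaW_ω₂ L hI, hI] at hr
  rw [etaW_ω₂ L hI, hI] at hk₂
  have hη := etaW_ω₁_ne_zero L hI
  have hω : L.ω₁ ≠ 0 := by
    intro h
    apply L.ω₁_div_two_notMem_lattice
    rw [h, zero_div]
    exact zero_mem _
  have hπ : (Real.pi : ℂ) ≠ 0 := by exact_mod_cast Real.pi_ne_zero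
  set η := etaW L L.ω₁ with hηdef
  set ω := L.ω₁ with hωdef
  -- `η ω = r π`
  have hr' : η * ω = r * Real.pi := by
    apply mul_left_cancel₀ (mul_ne_zero two_ne_zero I_ne_zero)
    linear_combination hr
  have hr0 : r ≠ 0 := by
    rintro rfl
    simp at hr'
    tauto
  -- eliminate `κ`
  have hn₁' : (n₁ : ℂ) ≠ 0 := by exact_mod_cast hn₁
  have hn₂' : (n₂ : ℂ) ≠ 0 := by exact_mod_cast hn₂
  have e1 : 2 * (n₁ : ℂ) * n₂ * (η * q) = 2 * Real.pi * I * (n₂ * k₁ + I * (n₁ * k₂)) := by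
    linear_combination (n₂ : ℂ) * hk₁ + (n₁ : ℂ) * I * hk₂ +
      ((n₁ : ℂ) * n₂ * (η * q) + (n₁ : ℂ) * n₂ * κ * ω) * I_sq
  have e2 : ((n₁ * n₂ * r : ℤ) : ℂ) * q = (((-(n₁ * k₂) : ℤ) : ℂ) + ((n₂ * k₁ : ℤ) : ℂ) * I) * ω := by
    have hne : (2 * (Real.pi : ℂ)) ≠ 0 := mul_ne_zero two_ne_zero hπ
    apply mul_left_cancel₀ hne
    push_cast
    linear_combination (ω) * e1 - 2 * (n₁ : ℂ) * n₂ * q * hr' +
      2 * Real.pi * ω * (n₁ * k₂) * I_sq
  have h3 : ((n₁ * n₂ * r : ℤ) : ℂ) * q ∈ L.lattice := by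
    rw [e2]
    exact zi_mul_mem L hI L.ω₁_mem_lattice _ _
  refine hq _ ?_ h3
  have : (n₁ : ℤ) ≠ 0 := by exact_mod_cast hn₁
  have : (n₂ : ℤ) ≠ 0 := by exact_mod_cast hn₂
  positivity

lemma fq_add_nat {q κ l : ℂ} (hl : l ∈ L.lattice) (z : ℂ) (n : ℕ) :
    fq L q κ (z + n * l) = exp (etaW L l * q - κ * l) ^ n * fq L q κ z := by
  induction n with
  | zero => simp
  | succ n ih =>
    rw [show z + ((n + 1 : ℕ) : ℂ) * l = (z + n * l) + l by push_cast; ring, fq_add L hl, ih,
      pow_succ]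
    ring

/-- Algebraic independence of `℘` and `fq`. -/
lemma fq_indep (hI : L.ω₂ = I * L.ω₁) {q : ℂ}
    (hq : ∀ n : ℤ, n ≠ 0 → (n : ℂ) * q ∉ L.lattice) (κ : ℂ) {N : ℕ}
    (e : Fin N × Fin N → ℂ)
    (h : ∀ z, z ∉ L.lattice → z + q ∉ L.lattice →
      ∑ l, e l * (L.weierstrassP z ^ (l.1 : ℕ) * fq L q κ z ^ (l.2 : ℕ)) = 0) : e = 0 := by
  have hq0 : q ∉ L.lattice := by simpa using hq 1 one_ne_zero
  obtain ⟨l₀, hl₀, hχ⟩ := exists_nonroot L hI hq κ
  set χ := exp (etaW L l₀ * q - κ * l₀) with hχdef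
  have hχ0 : χ ≠ 0 := exp_ne_zero _
  have hinj : Function.Injective (fun n : ℕ => χ ^ n) := by
    have key : ∀ a b : ℕ, a < b → χ ^ a ≠ χ ^ b := by
      intro a b hab heq
      apply hχ (b - a) (by omega)
      have : χ ^ b = χ ^ a * χ ^ (b - a) := by rw [← pow_add]; congr 1; omega
      rw [this] at heq
      exact (mul_left_cancel₀ (pow_ne_zero a hχ0) (by rw [← heq, mul_one]))
    intro a b hab
    rcases lt_trichotomy a b with h | h | h
    · exact absurd hab (key a b h)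
    · exact h
    · exact absurd hab.symm (key b a h)
  -- for each `b`, `∑_a e(a,b) ℘(z)^a = 0`
  have step : ∀ z, z ∉ L.lattice → z + q ∉ L.lattice → ∀ b : Fin N,
      ∑ a : Fin N, e (a, b) * L.weierstrassP z ^ (a : ℕ) = 0 := by
    intro z hz hzq b
    set p : Polynomial ℂ := ∑ b : Fin N, Polynomial.monomial (b : ℕ)
      ((∑ a : Fin N, e (a, b) * L.weierstrassP z ^ (a : ℕ)) * fq L q κ z ^ (b : ℕ)) with hp
    have hroots : ∀ n : ℕ, p.eval (χ ^ n) = 0 := by
      intro n
      have h1 := h (z + n * l₀) (by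
          refine add_notMem L hz ?_
          have := L.lattice.smul_mem (n : ℤ) hl₀
          simpa using this) (by
          rw [add_right_comm]
          refine add_notMem L hzq ?_
          have := L.lattice.smul_mem (n : ℤ) hl₀
          simpa using this)
      have h2 : L.weierstrassP (z + n * l₀) = L.weierstrassP z := by
        have := L.weierstrassP_add_coe z ((n : ℤ) • (⟨l₀, hl₀⟩ : L.lattice))
        simpa using this
      rw [h2, fq_add_nat L hl₀, Fintype.sum_prod_type_right] at h1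
      rw [hp, Polynomial.eval_finsetSum, ← h1]
      refine Finset.sum_congr rfl fun b _ => ?_
      rw [Polynomial.eval_monomial, Finset.sum_mul, Finset.sum_mul]
      refine Finset.sum_congr rfl fun a _ => ?_
      rw [mul_pow, ← pow_mul]
      ring
    have hp0 : p = 0 := by
      refine Polynomial.eq_zero_of_infinite_isRoot p ?_
      refine (Set.infinite_range_of_injective hinj).mono ?_
      rintro _ ⟨n, rfl⟩
      exact hroots n
    have h3 : p.coeff (b : ℕ) = 0 := by rw [hp0, Polynomial.coeff_zero]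
    rw [hp, Polynomial.finsetSum_coeff, Finset.sum_eq_single b] at h3
    · rw [Polynomial.coeff_monomial, if_pos rfl] at h3
      exact (mul_eq_zero.mp h3).resolve_right (pow_ne_zero _ (fq_ne_zero L hq0 hz hzq))
    · intro b' _ hb'
      rw [Polynomial.coeff_monomial, if_neg]
      intro heq
      exact hb' (Fin.ext heq)
    · simp
  ext ⟨a, b⟩
  -- polynomial in `℘`
  set p : Polynomial ℂ := ∑ a : Fin N, Polynomial.monomial (a : ℕ) (e (a, b)) with hp
  have hp0 : p = 0 := by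
    refine Polynomial.eq_zero_of_infinite_isRoot p ?_
    -- all values but possibly one are attained
    have : {y : ℂ | y ≠ L.weierstrassP q} ⊆ {x | p.IsRoot x} := by
      intro y hy
      obtain ⟨z, hz, hzy⟩ := exists_weierstrassP_eq L y
      have hzq : z + q ∉ L.lattice := by
        intro hmem
        apply hy
        rw [← hzy]
        exact (weierstrassP_eq_iff L hz hq0).mpr (Or.inl hmem)
      have h1 := step z hz hzq b
      show p.eval y = 0
      rw [hp, Polynomial.eval_finsetSum, ← h1]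
      refine Finset.sum_congr rfl fun a _ => ?_
      rw [Polynomial.eval_monomial, hzy]
    refine Set.Infinite.mono this ?_
    exact (Set.finite_singleton (L.weierstrassP q)).infinite_compl
  have h3 : p.coeff (a : ℕ) = 0 := by rw [hp0, Polynomial.coeff_zero]
  rw [hp, Polynomial.finsetSum_coeff, Finset.sum_eq_single a] at h3
  · rw [Polynomial.coeff_monomial, if_pos rfl] at h3
    exact h3
  · intro b' _ hb'
    rw [Polynomial.coeff_monomial, if_neg]
    intro heq
    exact hb' (Fin.ext heq)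
  · simp

end Pool.Agent.Lib.Ribet4b482e
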