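import Mathlib
import Pool.Agent.Lib.Ribet4b482e.Analytic

open Module NumberField MvPolynomial Filter Topology

noncomputable section
namespace Pool.Agent.Lib.Ribet4b482e

variable {K : Type*} [Field K] [NumberField K] {σ : Type*}

/-- Length and degree of the auxiliary polynomial. -/
lemma wlen_aux_le {ρ : ℝ} (hρ : 1 ≤ ρ) {Λ : ℕ} (ξ : Fin Λ × Fin Λ → 𝓞 K) (i₁ i₂ : σ) {Ξ : ℝ}
    (hΞ : ∀ l, hs (ξ l) ≤ Ξ) :
    wlen ρ (∑ l, C (ξ l) * mon K i₁ i₂ l.1 l.2) ≤ ((Λ * Λ : ℕ) : ℝ) * (Ξ * ρ ^ (2 * Λ)) ∧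
    (∑ l, C (ξ l) * mon K i₁ i₂ l.1 l.2).totalDegree ≤ 2 * Λ := by
  have hρ0 : 0 ≤ ρ := by linarith
  constructor
  · refine (wlen_sum_le hρ0 _ _).trans ?_
    have h1 : ∀ l ∈ (Finset.univ : Finset (Fin Λ × Fin Λ)),
        wlen ρ (C (ξ l) * mon K i₁ i₂ l.1 l.2) ≤ Ξ * ρ ^ (2 * Λ) := by
      intro l _
      have h2 := wlen_monomial_mul_le hρ0 0 (ξ l) (mon K i₁ i₂ (l.1 : ℕ) l.2)
      rw [wlen_mon] at h2
      simp only [map_zero, pow_zero, mul_one] at h2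
      have h3 : ρ ^ ((l.1 : ℕ) + l.2) ≤ ρ ^ (2 * Λ) := by
        refine pow_le_pow_right₀ hρ ?_
        have := l.1.2
        have := l.2.2
        omega
      have h4 : 0 ≤ Ξ := (hs_nonneg _).trans (hΞ l)
      calc wlen ρ (C (ξ l) * mon K i₁ i₂ l.1 l.2) ≤ hs (ξ l) * ρ ^ ((l.1 : ℕ) + l.2) := h2
        _ ≤ Ξ * ρ ^ (2 * Λ) := mul_le_mul (hΞ l) h3 (by positivity) h4
    refine (Finset.sum_le_sum h1).trans ?_
    rw [Finset.sum_const, Finset.card_univ, Fintype.card_prod, Fintype.card_fin, nsmul_eq_mul]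
  · refine totalDegree_finsetSum_le fun l _ => ?_
    refine (totalDegree_mul _ _).trans ?_
    rw [totalDegree_C, zero_add]
    refine (totalDegree_mon_le i₁ i₂ _ _).trans ?_
    have := l.1.2
    have := l.2.2
    omega

/-- Liouville inequality: a nonzero algebraic integer cannot be too small. -/
lemma liouville_ineq (φ : K →+* ℂ) {α : 𝓞 K} (hα : α ≠ 0) :
    1 ≤ ‖φ α‖ * hs α ^ (finrank ℚ K - 1) := by
  refine le_trans ?_ (norm_norm_le_norm_mul_house_pow (α : K) φ)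
  have h1 : Algebra.norm ℤ α ≠ 0 := by
    rw [ne_eq, Algebra.norm_eq_zero_iff]
    exact hα
  have h2 : (Algebra.norm ℚ (α : K)) = ((Algebra.norm ℤ α : ℤ) : ℚ) :=
    (Algebra.coe_norm_int α).symm
  rw [h2, Int.norm_cast_rat, Int.norm_eq_abs]
  exact_mod_cast Int.one_le_abs h1

/-- The final numerical contradiction. -/
lemma numeric2 {c ρ M W τ E R : ℝ} (hc : 1 ≤ c) (hρ : 1 ≤ ρ) (hM : 1 ≤ M) (hW : 1 ≤ W)
    (hτ : 1 ≤ τ) (hE : 1 ≤ E) {Λ s d : ℕ} (hd : 1 ≤ d) (hs : 1 ≤ s)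
    {f h Ξ : ℝ} (hΞ : Ξ ≤ (12 * c ^ 2 * M * ρ ^ 2 * s) ^ s) (hΞ0 : 0 ≤ Ξ) (hΛ : Λ ≤ s)
    (hR : R ^ 6 = s) (hh0 : 0 ≤ h)
    (hf : f ≤ s.factorial * (2 * W) ^ (6 * (2 * d + 1) * s) * (τ ^ s) *
      ((((Λ * Λ : ℕ) : ℝ) * (Ξ * E ^ s)) * (2 / R) ^ (6 * (2 * d + 1) * s)))
    (hh : h ≤ (3 * s * M) ^ s * (((Λ * Λ : ℕ) : ℝ) * (Ξ * ρ ^ (2 * Λ))))
    (hfh : 1 ≤ f * h ^ (d - 1)) :
    (s : ℝ) ≤ ((2 * W) ^ (6 * (2 * d + 1)) * τ * 4 * (12 * c ^ 2 * M * ρ ^ 2) * E *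
        2 ^ (6 * (2 * d + 1))) * (3 * M * 4 * (12 * c ^ 2 * M * ρ ^ 2) * ρ ^ 2) ^ (d - 1) := by
  have hsR : (1 : ℝ) ≤ s := by exact_mod_cast hs
  have hsR0 : (0 : ℝ) < s := by linarith
  have hΛ2 : ((Λ * Λ : ℕ) : ℝ) ≤ 4 ^ s := by
    refine le_trans ?_ (sq_le_four_pow s)
    have : (Λ : ℝ) ≤ s := by exact_mod_cast hΛ
    push_cast
    nlinarith [Nat.cast_nonneg (α := ℝ) Λ]
  set a₁ := 12 * c ^ 2 * M * ρ ^ 2 with ha₁
  have ha₁0 : 0 < a₁ := by positivity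
  set k := 6 * (2 * d + 1) with hk
  have hfac : (s.factorial : ℝ) ≤ (s : ℝ) ^ s := by exact_mod_cast Nat.factorial_le_pow s
  have hρs : ρ ^ (2 * Λ) ≤ (ρ ^ 2) ^ s := by
    rw [pow_mul]
    exact pow_le_pow_right₀ (by nlinarith) hΛ
  have hRk : R ^ k = (s : ℝ) ^ (2 * d + 1) := by
    rw [hk, pow_mul, hR]
  -- bound for `f`
  have hf' : f ≤ ((2 * W) ^ k * τ * 4 * a₁ * E * 2 ^ k * ((s : ℝ) ^ 2 / s ^ (2 * d + 1))) ^ s := by
    refine hf.trans ?_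
    have e1 : (2 / R) ^ (k * s) = (2 ^ k / (s : ℝ) ^ (2 * d + 1)) ^ s := by
      rw [pow_mul, div_pow, hRk]
    rw [e1, pow_mul]
    calc (s.factorial : ℝ) * ((2 * W) ^ k) ^ s * τ ^ s *
          ((((Λ * Λ : ℕ) : ℝ) * (Ξ * E ^ s)) * (2 ^ k / (s : ℝ) ^ (2 * d + 1)) ^ s)
        ≤ (s : ℝ) ^ s * ((2 * W) ^ k) ^ s * τ ^ s *
          ((4 ^ s * ((a₁ * s) ^ s * E ^ s)) * (2 ^ k / (s : ℝ) ^ (2 * d + 1)) ^ s) := by
          gcongr
      _ = _ := by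
          rw [← mul_pow, ← mul_pow, ← mul_pow, ← mul_pow, ← mul_pow, ← mul_pow]
          congr 1
          ring
  have hh' : h ≤ (3 * M * 4 * a₁ * ρ ^ 2 * (s : ℝ) ^ 2) ^ s := by
    refine hh.trans ?_
    calc (3 * s * M) ^ s * (((Λ * Λ : ℕ) : ℝ) * (Ξ * ρ ^ (2 * Λ)))
        ≤ (3 * s * M) ^ s * (4 ^ s * ((a₁ * s) ^ s * (ρ ^ 2) ^ s)) := by
          gcongr
      _ = _ := by
          rw [← mul_pow, ← mul_pow, ← mul_pow]
          congr 1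
          ring
  set b₁ := (2 * W) ^ k * τ * 4 * a₁ * E * 2 ^ k with hb₁
  set b₂ := 3 * M * 4 * a₁ * ρ ^ 2 with hb₂
  have hb₁0 : 0 < b₁ := by positivity
  have hb₂0 : 0 < b₂ := by positivity
  by_contra hcon
  push Not at hcon
  have key : f * h ^ (d - 1) ≤ (b₁ * b₂ ^ (d - 1) / s) ^ s := by
    calc f * h ^ (d - 1) ≤ (b₁ * ((s : ℝ) ^ 2 / s ^ (2 * d + 1))) ^ s *
          ((b₂ * (s : ℝ) ^ 2) ^ s) ^ (d - 1) := by gcongr
      _ = (b₁ * b₂ ^ (d - 1) / s) ^ s := by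
          rw [← pow_mul, mul_comm s (d - 1), pow_mul, ← mul_pow]
          congr 1
          obtain ⟨e, rfl⟩ : ∃ e, d = e + 1 := ⟨d - 1, by omega⟩
          simp only [Nat.add_sub_cancel]
          field_simp
          ring
  have h1 : b₁ * b₂ ^ (d - 1) / s < 1 := by
    rw [div_lt_one hsR0]
    exact hcon
  have h2 : (b₁ * b₂ ^ (d - 1) / s) ^ s < 1 := pow_lt_one₀ (by positivity) h1 (by omega)
  linarith

lemma exists_sixth_root (s : ℕ) (hs : 1 ≤ s) : ∃ R : ℝ, 1 ≤ R ∧ R ^ 6 = s := by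
  refine ⟨(s : ℝ) ^ ((1 : ℝ) / 6), ?_, ?_⟩
  · exact Real.one_le_rpow (by exact_mod_cast hs) (by norm_num)
  · rw [← Real.rpow_natCast, ← Real.rpow_mul (Nat.cast_nonneg _)]
    norm_num

/-- A Schneider-Lang criterion (contrapositive form, with growth of order at most `3`). -/
theorem schneider_lang [Fintype σ] (φ : K →+* ℂ) {D : σ → MvPolynomial σ (𝓞 K)}
    (hD : ∀ i, (D i).totalDegree ≤ 2) {X : σ → ℂ → ℂ} (i₁ i₂ : σ)
    {m : ℕ} (hm : m = 6 * (2 * finrank ℚ K + 1)) {w : Fin m → ℂ} (hw : Function.Injective w)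
    {x : Fin m → σ → 𝓞 K}
    (hX : ∀ k, ∀ᶠ z in 𝓝 (w k), ∀ i, HasDerivAt (X i) (ev φ (fun i => X i z) (D i)) z)
    (hx : ∀ k i, X i (w k) = φ (x k i))
    {θ A B : ℂ → ℂ} (hθ : Differentiable ℂ θ) (hA : Differentiable ℂ A)
    (hB : Differentiable ℂ B) {Cg : ℝ} (hCg : 0 ≤ Cg)
    (hθC : ∀ z, ‖θ z‖ ≤ Real.exp (Cg * (1 + ‖z‖) ^ 3))
    (hAC : ∀ z, ‖A z‖ ≤ Real.exp (Cg * (1 + ‖z‖) ^ 3))
    (hBC : ∀ z, ‖B z‖ ≤ Real.exp (Cg * (1 + ‖z‖) ^ 3))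
    (hθw : ∀ k, θ (w k) ≠ 0)
    (hθA : ∀ k, ∀ᶠ z in 𝓝 (w k), θ z * X i₁ z = A z)
    (hθB : ∀ k, ∀ᶠ z in 𝓝 (w k), θ z * X i₂ z = B z)
    (hind : ∀ (Λ : ℕ) (c : Fin Λ × Fin Λ → ℂ) (k : Fin m),
      (∀ᶠ z in 𝓝 (w k), ∑ l, c l * (X i₁ z ^ (l.1 : ℕ) * X i₂ z ^ (l.2 : ℕ)) = 0) → c = 0) :
    False := by
  classical
  set d := finrank ℚ K with hd
  have hd1 : 1 ≤ d := finrank_pos
  have hm0 : 0 < m := by rw [hm]; positivity
  obtain ⟨c, hc, hsieg⟩ := siegel_uniform K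
  obtain ⟨ρ, M, hρ, hM, hxρ, hDM⟩ := exists_consts D x
  have hρ0 : 0 ≤ ρ := by linarith
  obtain ⟨W, hW1, hW⟩ : ∃ W : ℝ, 1 ≤ W ∧ ∀ k, ‖w k‖ ≤ W := by
    refine ⟨1 + ∑ k, ‖w k‖, ?_, fun k => ?_⟩
    · have : 0 ≤ ∑ k, ‖w k‖ := Finset.sum_nonneg fun k _ => norm_nonneg _
      linarith
    · have := Finset.single_le_sum (f := fun k => ‖w k‖) (fun k _ => norm_nonneg _)
        (Finset.mem_univ k)
      linarith
  obtain ⟨τ, hτ1, hτ⟩ : ∃ τ : ℝ, 1 ≤ τ ∧ ∀ k, ‖θ (w k)‖⁻¹ ≤ τ := by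
    refine ⟨1 + ∑ k, ‖θ (w k)‖⁻¹, ?_, fun k => ?_⟩
    · have : 0 ≤ ∑ k, ‖θ (w k)‖⁻¹ := Finset.sum_nonneg fun k _ => by positivity
      linarith
    · have := Finset.single_le_sum (f := fun k => ‖θ (w k)‖⁻¹) (fun k _ => by positivity)
        (Finset.mem_univ k)
      linarith
  set E : ℝ := Real.exp (32 * Cg * m) with hE
  have hE1 : 1 ≤ E := Real.one_le_exp (by positivity)
  set Cst : ℝ := ((2 * W) ^ (6 * (2 * d + 1)) * τ ^ 2 * 4 * (12 * c ^ 2 * M * ρ ^ 2) * E *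
        2 ^ (6 * (2 * d + 1))) * (3 * M * 4 * (12 * c ^ 2 * M * ρ ^ 2) * ρ ^ 2) ^ (d - 1) with hCst
  obtain ⟨N, hN⟩ := exists_nat_gt (max Cst ((2 * W) ^ 6))
  have hN1 : Cst < N := (le_max_left _ _).trans_lt hN
  have hN2 : (2 * W) ^ 6 < N := (le_max_right _ _).trans_lt hN
  have hN0 : 0 < N := by
    have : (0 : ℝ) < N := lt_trans (by positivity) hN2
    exact_mod_cast this
  obtain ⟨Λ, hΛ⟩ : ∃ Λ, Λ = 2 * m * N := ⟨_, rfl⟩
  obtain ⟨T, hT⟩ : ∃ T, T = 2 * m * N ^ 2 := ⟨_, rfl⟩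
  have hΛ0 : 0 < Λ := by rw [hΛ]; positivity
  have hT0 : 0 < T := by rw [hT]; positivity
  have hΛT : Λ * Λ = 2 * (m * T) := by rw [hΛ, hT]; ring
  have hΛT' : Λ ≤ T := by
    rw [hΛ, hT]
    exact Nat.mul_le_mul_left _ (Nat.le_self_pow (by norm_num) _)
  have hNT : N ≤ T := by
    rw [hT]
    calc N ≤ N ^ 2 := Nat.le_self_pow (by norm_num) _
      _ ≤ 2 * m * N ^ 2 := Nat.le_mul_of_pos_left _ (by positivity)
  obtain ⟨ξ, hξ0, hξb, hξv⟩ := exists_aux hsieg hD hm0 i₁ i₂ hρ hM hDM hxρ hΛ0 hT0 hΛT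
  set P : MvPolynomial σ (𝓞 K) := ∑ l, C (ξ l) * mon K i₁ i₂ l.1 l.2 with hP
  set F : ℂ → ℂ := fun z => ev φ (fun i => X i z) P with hF
  have hFan : ∀ k, AnalyticAt ℂ F (w k) := fun k => analyticAt_ev (hX k) P
  have hFder : ∀ k j, iteratedDeriv j F (w k) =
      φ (eval (x k) ((mkDerivation (𝓞 K) D)^[j] P) : 𝓞 K) := fun k j =>
    iteratedDeriv_ev_at (hX k) (hx k) P j
  have hFeq : ∀ z, F z = ∑ l, φ (ξ l) * (X i₁ z ^ (l.1 : ℕ) * X i₂ z ^ (l.2 : ℕ)) := by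
    intro z
    simp [hF, hP, mon, map_sum]
  have hφinj : ∀ a : 𝓞 K, φ (a : K) = 0 → a = 0 := by
    intro a ha
    have := (map_eq_zero φ).mp ha
    exact_mod_cast this
  -- some derivative does not vanish
  have hex : ∃ s, ∃ k, eval (x k) ((mkDerivation (𝓞 K) D)^[s] P) ≠ 0 := by
    by_contra! hcon
    apply hξ0
    have h1 : analyticOrderAt F (w ⟨0, hm0⟩) = ⊤ := by
      rw [ENat.eq_top_iff_forall_ge]
      intro n
      rw [natCast_le_analyticOrderAt_iff_iteratedDeriv_eq_zero (hFan _)]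
      intro i _
      rw [hFder, hcon]
      simp
    rw [analyticOrderAt_eq_top] at h1
    have h2 := hind Λ (fun l => φ (ξ l)) ⟨0, hm0⟩ (by
      filter_upwards [h1] with z hz
      rw [← hFeq, hz])
    ext l
    have := congrFun h2 l
    exact_mod_cast hφinj _ this
  obtain ⟨k₀, hk₀⟩ := Nat.find_spec hex
  set s := Nat.find hex with hsdef
  have hmin : ∀ j < s, ∀ k, eval (x k) ((mkDerivation (𝓞 K) D)^[j] P) = 0 := by
    intro j hj k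
    have := Nat.find_min hex hj
    push Not at this
    exact this k
  have hTs : T ≤ s := by
    by_contra h
    push Not at h
    exact hk₀ (hξv k₀ s h)
  have hs1 : 1 ≤ s := hT0.trans_le hTs
  have hsR : (1 : ℝ) ≤ s := by exact_mod_cast hs1
  have hΛs : Λ ≤ s := hΛT'.trans hTs
  obtain ⟨R, hR1, hR6⟩ := exists_sixth_root s hs1
  have hR0 : 0 < R := by linarith
  have hRW : 2 * W ≤ R := by
    have h1 : (2 * W) ^ 6 ≤ R ^ 6 := by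
      rw [hR6]
      refine hN2.le.trans ?_
      exact_mod_cast hNT.trans hTs
    exact le_of_pow_le_pow_left₀ (by norm_num) hR0.le h1
  set α : 𝓞 K := eval (x k₀) ((mkDerivation (𝓞 K) D)^[s] P) with hα
  -- the entire function `G`
  set G : ℂ → ℂ := fun z => ∑ l : Fin Λ × Fin Λ, φ (ξ l) *
    ((A z ^ (l.1 : ℕ) * θ z ^ (Λ - (l.1 : ℕ))) * (B z ^ (l.2 : ℕ) * θ z ^ (Λ - (l.2 : ℕ)))) with hG
  have hGd : Differentiable ℂ G := by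
    refine Differentiable.fun_sum fun l _ => ?_
    fun_prop
  have hΘd : Differentiable ℂ (fun z => θ z ^ (2 * Λ)) := by fun_prop
  have hGF : ∀ k, G =ᶠ[𝓝 (w k)] fun z => θ z ^ (2 * Λ) * F z := by
    intro k
    filter_upwards [hθA k, hθB k] with z h1 h2
    rw [hFeq, hG, Finset.mul_sum]
    refine Finset.sum_congr rfl fun l _ => ?_
    rw [← h1, ← h2]
    have h3 : θ z ^ (2 * Λ) = (θ z ^ (l.1 : ℕ) * θ z ^ (Λ - (l.1 : ℕ))) *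
        (θ z ^ (l.2 : ℕ) * θ z ^ (Λ - (l.2 : ℕ))) := by
      rw [← pow_add, ← pow_add, Nat.add_sub_cancel' l.1.2.le, Nat.add_sub_cancel' l.2.2.le,
        ← pow_add, two_mul]
    rw [h3]
    ring
  have hFord : ∀ k, (s : ℕ∞) ≤ analyticOrderAt F (w k) := by
    intro k
    rw [natCast_le_analyticOrderAt_iff_iteratedDeriv_eq_zero (hFan k)]
    intro i hi
    rw [hFder, hmin i hi]
    simp
  set Ξ : ℝ := c * (c * ((Λ * Λ : ℕ) : ℝ) *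
        ((((2 * Λ + T : ℕ) : ℝ) * M) ^ T * ρ ^ (2 * Λ))) with hΞ
  have hΞ0 : 0 ≤ Ξ := by positivity
  have hΞs : Ξ ≤ (12 * c ^ 2 * M * ρ ^ 2 * s) ^ s := numeric1 hc hρ hM hTs hΛs hs1
  -- bound for `G` on the circle
  have hEb : Real.exp (Cg * (1 + R) ^ 3) ^ (2 * Λ) ≤ E ^ s := by
    rw [← Real.exp_nat_mul, hE, ← Real.exp_nat_mul]
    refine Real.exp_le_exp.mpr ?_
    have h1 : (1 + R) ^ 3 ≤ 8 * R ^ 3 := by
      have : 1 + R ≤ 2 * R := by linarith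
      calc (1 + R) ^ 3 ≤ (2 * R) ^ 3 := by gcongr
        _ = _ := by ring
    have h2 : (Λ : ℝ) * R ^ 3 ≤ 2 * m * s := by
      have h3 : ((Λ : ℝ) * R ^ 3) ^ 2 ≤ (2 * m * s) ^ 2 := by
        have h4 : ((Λ : ℝ) * R ^ 3) ^ 2 = ((Λ * Λ : ℕ) : ℝ) * R ^ 6 := by push_cast; ring
        rw [h4, hR6, hΛT]
        push_cast
        have h5 : (T : ℝ) ≤ s := by exact_mod_cast hTs
        have h6 : (1 : ℝ) ≤ m := by exact_mod_cast hm0
        calc 2 * ((m : ℝ) * T) * s ≤ 2 * (m * s) * s := by gcongr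
          _ ≤ (2 * m * s) ^ 2 := by nlinarith [mul_pos (show (0:ℝ) < m by linarith) (show (0:ℝ) < (s:ℝ) by linarith)]
      exact le_of_pow_le_pow_left₀ (by norm_num) (by positivity) h3
    push_cast
    calc 2 * (Λ : ℝ) * (Cg * (1 + R) ^ 3) ≤ 2 * Λ * (Cg * (8 * R ^ 3)) := by gcongr
      _ = 16 * Cg * (Λ * R ^ 3) := by ring
      _ ≤ 16 * Cg * (2 * m * s) := by gcongr
      _ = _ := by ring
  have hGmax : ∀ z, ‖z‖ = R → ‖G z‖ ≤ ((Λ * Λ : ℕ) : ℝ) * (Ξ * E ^ s) := by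
    intro z hz
    have hEz1 : 1 ≤ Real.exp (Cg * (1 + R) ^ 3) := Real.one_le_exp (by positivity)
    have h1 : ‖θ z‖ ≤ Real.exp (Cg * (1 + R) ^ 3) := by have := hθC z; rwa [hz] at this
    have h2 : ‖A z‖ ≤ Real.exp (Cg * (1 + R) ^ 3) := by have := hAC z; rwa [hz] at this
    have h3 : ‖B z‖ ≤ Real.exp (Cg * (1 + R) ^ 3) := by have := hBC z; rwa [hz] at this
    have h4 : ∀ l ∈ (Finset.univ : Finset (Fin Λ × Fin Λ)), ‖φ (ξ l) *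
        ((A z ^ (l.1 : ℕ) * θ z ^ (Λ - (l.1 : ℕ))) * (B z ^ (l.2 : ℕ) * θ z ^ (Λ - (l.2 : ℕ))))‖ ≤
        Ξ * E ^ s := by
      intro l _
      rw [norm_mul]
      refine mul_le_mul ((norm_embedding_le_house (ξ l : K) φ).trans (hξb l)) ?_
        (norm_nonneg _) hΞ0
      refine le_trans ?_ hEb
      rw [norm_mul, norm_mul, norm_mul, norm_pow, norm_pow, norm_pow, norm_pow]
      have e1 : Real.exp (Cg * (1 + R) ^ 3) ^ (2 * Λ) =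
          (Real.exp (Cg * (1 + R) ^ 3) ^ (l.1 : ℕ) * Real.exp (Cg * (1 + R) ^ 3) ^ (Λ - (l.1 : ℕ))) *
          (Real.exp (Cg * (1 + R) ^ 3) ^ (l.2 : ℕ) *
            Real.exp (Cg * (1 + R) ^ 3) ^ (Λ - (l.2 : ℕ))) := by
        rw [← pow_add, ← pow_add, Nat.add_sub_cancel' l.1.2.le, Nat.add_sub_cancel' l.2.2.le,
          ← pow_add, two_mul]
      rw [e1]
      gcongr
    refine (norm_sum_le _ _).trans ((Finset.sum_le_sum h4).trans ?_)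
    rw [Finset.sum_const, Finset.card_univ, Fintype.card_prod, Fintype.card_fin, nsmul_eq_mul]
  have hana := analytic_part hw hGd hΘd hFan hGF hFord hW hW1 hRW hGmax k₀
  rw [hFder] at hana
  -- bound for `|φ α|`
  have hf : ‖φ α‖ ≤ s.factorial * (2 * W) ^ (6 * (2 * d + 1) * s) * ((τ ^ 2) ^ s) *
      ((((Λ * Λ : ℕ) : ℝ) * (Ξ * E ^ s)) * (2 / R) ^ (6 * (2 * d + 1) * s)) := by
    have h1 : ‖θ (w k₀) ^ (2 * Λ)‖ ≠ 0 := by
      rw [norm_ne_zero_iff]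
      exact pow_ne_zero _ (hθw k₀)
    have h2 : ‖θ (w k₀) ^ (2 * Λ)‖⁻¹ ≤ (τ ^ 2) ^ s := by
      rw [norm_pow, ← inv_pow]
      calc (‖θ (w k₀)‖⁻¹) ^ (2 * Λ) ≤ τ ^ (2 * Λ) := by
            gcongr
            exact hτ k₀
        _ ≤ (τ ^ 2) ^ s := by
            rw [pow_mul]
            exact pow_le_pow_right₀ (by nlinarith) hΛs
    calc ‖φ α‖ = ‖θ (w k₀) ^ (2 * Λ)‖⁻¹ * (‖θ (w k₀) ^ (2 * Λ)‖ * ‖φ α‖) := by
          field_simp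
      _ ≤ (τ ^ 2) ^ s * (s.factorial * (2 * W) ^ (m * s) *
          ((((Λ * Λ : ℕ) : ℝ) * (Ξ * E ^ s)) * (2 / R) ^ (m * s))) := by
          gcongr
      _ = _ := by rw [hm]; ring
  have hh : hs α ≤ (3 * s * M) ^ s * (((Λ * Λ : ℕ) : ℝ) * (Ξ * ρ ^ (2 * Λ))) := by
    obtain ⟨hwl, hdeg⟩ := wlen_aux_le hρ ξ i₁ i₂ hξb
    rw [← hP] at hwl hdeg
    refine (hs_eval_le hρ0 _ (x k₀) (hxρ k₀)).trans ?_
    refine (iterate_deriv_bounds hρ hDM (by linarith) hD P s).2.trans ?_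
    have h1 : ((P.totalDegree + s : ℕ) : ℝ) ≤ 3 * s := by
      have : P.totalDegree + s ≤ 3 * s := by omega
      exact_mod_cast this
    have h2 := wlen_nonneg hρ0 P
    gcongr
  have hfh : 1 ≤ ‖φ α‖ * hs α ^ (d - 1) := liouville_ineq φ hk₀
  have hfinal := numeric2 hc hρ hM hW1 (τ := τ ^ 2) (by nlinarith) hE1 hd1 hs1 hΞs hΞ0 hΛs hR6
    (hs_nonneg α) hf hh hfh
  have : (N : ℝ) ≤ s := by exact_mod_cast hNT.trans hTs
  linarith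

end Pool.Agent.Lib.Ribet4b482e
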