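import Mathlib
import Pool.Agent.Lib.Ribet4b482e.Indep
import Pool.Agent.Lib.Ribet4b482e.SchneiderLang

open Module Filter Topology Complex

noncomputable section
namespace Pool.Agent.Lib.Ribet4b482e

/-! ### The differential system over a number field -/

section system

variable {K : Type*} [Field K] [NumberField K]

open NumberField MvPolynomial in
/-- The polynomial vector field satisfied by `(℘, ℘', h, f)`. -/
def sysD (γ β κ : 𝓞 K) : Fin 4 → MvPolynomial (Fin 4) (𝓞 K) :=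
  ![MvPolynomial.X 1, C 6 * MvPolynomial.X 0 ^ 2 - C γ,
    C 2 * MvPolynomial.X 0 - MvPolynomial.X 2 ^ 2 + C β,
    MvPolynomial.X 3 * (MvPolynomial.X 2 - C κ)]

omit [NumberField K] in
open NumberField MvPolynomial in
lemma sysD_totalDegree (γ β κ : 𝓞 K) (i : Fin 4) : (sysD γ β κ i).totalDegree ≤ 2 := by
  have hX : ∀ j : Fin 4, (MvPolynomial.X j : MvPolynomial (Fin 4) (𝓞 K)).totalDegree ≤ 1 :=
    fun j => (totalDegree_X j).le
  have hX2 : ∀ j : Fin 4, ((MvPolynomial.X j : MvPolynomial (Fin 4) (𝓞 K)) ^ 2).totalDegree ≤ 2 :=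
    fun j => (totalDegree_X_pow j 2).le
  have hC : ∀ a : 𝓞 K, (C a : MvPolynomial (Fin 4) (𝓞 K)).totalDegree ≤ 0 :=
    fun a => (totalDegree_C a).le
  fin_cases i
  · show (MvPolynomial.X 1 : MvPolynomial (Fin 4) (𝓞 K)).totalDegree ≤ 2
    exact (hX 1).trans (by norm_num)
  · show (C 6 * MvPolynomial.X 0 ^ 2 - C γ : MvPolynomial (Fin 4) (𝓞 K)).totalDegree ≤ 2
    refine (totalDegree_sub _ _).trans (max_le ?_ ((hC γ).trans (by norm_num)))
    refine (totalDegree_mul _ _).trans ?_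
    have h1 := hC 6
    have h2 := hX2 0
    omega
  · show (C 2 * MvPolynomial.X 0 - MvPolynomial.X 2 ^ 2 + C β :
      MvPolynomial (Fin 4) (𝓞 K)).totalDegree ≤ 2
    refine (totalDegree_add _ _).trans (max_le ?_ ((hC β).trans (by norm_num)))
    refine (totalDegree_sub _ _).trans (max_le ?_ (hX2 2))
    refine (totalDegree_mul _ _).trans ?_
    have h1 := hC 2
    have h2 := hX 0
    omega
  · show (MvPolynomial.X 3 * (MvPolynomial.X 2 - C κ) :
      MvPolynomial (Fin 4) (𝓞 K)).totalDegree ≤ 2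
    refine (totalDegree_mul _ _).trans ?_
    have h1 := hX 3
    have h2 : (MvPolynomial.X 2 - C κ : MvPolynomial (Fin 4) (𝓞 K)).totalDegree ≤ 1 :=
      (totalDegree_sub _ _).trans (max_le (hX 2) ((hC κ).trans (by norm_num)))
    omega

end system

variable (L : PeriodPair)

/-- The scaled functions `δ²℘(δw), δ³℘'(δw), δh(δw), δf(δw)`. -/
def sysX (q κ δ : ℂ) : Fin 4 → ℂ → ℂ :=
  ![fun w => δ ^ 2 * L.weierstrassP (δ * w), fun w => δ ^ 3 * L.derivWeierstrassP (δ * w),
    fun w => δ * hq L q (δ * w), fun w => δ * fq L q κ (δ * w)]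

open NumberField in
lemma hasDerivAt_sysX {K : Type*} [Field K] [NumberField K] (φ : K →+* ℂ) {γ β κ' : 𝓞 K}
    {q c δ w : ℂ} (hγ : φ γ = δ ^ 4 * (L.g₂ / 2)) (hβ : φ β = δ ^ 2 * L.weierstrassP q)
    (hκ : φ κ' = δ * c) (hq0 : q ∉ L.lattice) (h1 : δ * w ∉ L.lattice)
    (h2 : δ * w + q ∉ L.lattice) (h3 : δ * w - q ∉ L.lattice) (i : Fin 4) :
    HasDerivAt (sysX L q (zetaW L q + c) δ i)
      (ev φ (fun i => sysX L q (zetaW L q + c) δ i w) (sysD γ β κ' i)) w := by
  have hlin : HasDerivAt (fun w : ℂ => δ * w) δ w := by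
    simpa using (hasDerivAt_id w).const_mul δ
  have hφ6 : φ ((6 : 𝓞 K) : K) = 6 := by
    have : ((6 : 𝓞 K) : K) = 6 := map_ofNat (algebraMap (𝓞 K) K) 6
    rw [this, map_ofNat]
  have hφ2 : φ ((2 : 𝓞 K) : K) = 2 := by
    have : ((2 : 𝓞 K) : K) = 2 := map_ofNat (algebraMap (𝓞 K) K) 2
    rw [this, map_ofNat]
  fin_cases i
  · have h := ((hasDerivAt_weierstrassP L h1).comp w hlin).const_mul (δ ^ 2)
    refine h.congr_deriv ?_
    simp [sysD, sysX]
    ring
  · have h := ((hasDerivAt_derivWeierstrassP L h1).comp w hlin).const_mul (δ ^ 3)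
    refine h.congr_deriv ?_
    simp [sysD, sysX, hγ, hφ6]
    ring
  · have h := ((hasDerivAt_hq L hq0 h1 h2 h3).comp w hlin).const_mul δ
    refine h.congr_deriv ?_
    simp [sysD, sysX, hβ, hφ2]
    ring
  · have h := ((hasDerivAt_fq L (κ := zetaW L q + c) hq0 h1 h2).comp w hlin).const_mul δ
    refine h.congr_deriv ?_
    simp [sysD, sysX, hκ]
    ring

end Pool.Agent.Lib.Ribet4b482e
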