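import Mathlib
import Pool.Agent.Lib.Ribet4b482e.Apply

open Module Filter Topology Complex

noncomputable section
namespace Pool.Agent.Lib.Ribet4b482e

variable (L : PeriodPair)

/-- Growth bounds for the entire functions used to clear the poles. -/
lemma growth_bounds (q κ δ : ℂ) : ∃ Cg : ℝ, 0 ≤ Cg ∧
    (∀ w, ‖sigmaW L (δ * w) ^ 2‖ ≤ Real.exp (Cg * (1 + ‖w‖) ^ 3)) ∧
    (∀ w, ‖δ ^ 2 * (L.weierstrassP q * sigmaW L (δ * w) ^ 2 -
      sigmaW L (δ * w + q) * sigmaW L (δ * w - q) / sigmaW L q ^ 2)‖ ≤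
        Real.exp (Cg * (1 + ‖w‖) ^ 3)) ∧
    (∀ w, ‖δ * (sigmaW L (δ * w) * sigmaW L (δ * w + q) / sigmaW L q *
      exp (-(κ * (δ * w))))‖ ≤ Real.exp (Cg * (1 + ‖w‖) ^ 3)) := by
  obtain ⟨C, hC, hCσ⟩ := norm_sigmaW_le L
  set a : ℝ := 1 + ‖δ‖ + ‖q‖ with ha
  set C₂ : ℝ := C * a ^ 3 with hC₂
  have hC₂0 : 0 ≤ C₂ := by positivity
  set kA : ℝ := ‖δ‖ ^ 2 * (‖L.weierstrassP q‖ + 1 / ‖sigmaW L q‖ ^ 2) with hkA
  have hkA0 : 0 ≤ kA := by positivity
  set kB : ℝ := ‖δ‖ / ‖sigmaW L q‖ with hkB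
  have hkB0 : 0 ≤ kB := by positivity
  -- basic bounds
  have hE : ∀ w : ℂ, (1 : ℝ) ≤ (1 + ‖w‖) ^ 3 := fun w =>
    one_le_pow₀ (by linarith [norm_nonneg w])
  have hbase : ∀ (w v : ℂ), ‖v‖ ≤ ‖δ * w‖ + ‖q‖ →
      ‖sigmaW L v‖ ≤ Real.exp (C₂ * (1 + ‖w‖) ^ 3) := by
    intro w v hv
    refine (hCσ v).trans (Real.exp_le_exp.mpr ?_)
    rw [hC₂, mul_assoc, ← mul_pow]
    have h1 : 1 + ‖v‖ ≤ a * (1 + ‖w‖) := by
      rw [norm_mul] at hv
      rw [ha]
      nlinarith [norm_nonneg δ, norm_nonneg w, norm_nonneg q, mul_nonneg (norm_nonneg q) (norm_nonneg w)]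
    gcongr
  have h0 : ∀ w, ‖sigmaW L (δ * w)‖ ≤ Real.exp (C₂ * (1 + ‖w‖) ^ 3) := fun w =>
    hbase w _ (by linarith [norm_nonneg q])
  have h1 : ∀ w, ‖sigmaW L (δ * w + q)‖ ≤ Real.exp (C₂ * (1 + ‖w‖) ^ 3) := fun w =>
    hbase w _ (norm_add_le _ _)
  have h2 : ∀ w, ‖sigmaW L (δ * w - q)‖ ≤ Real.exp (C₂ * (1 + ‖w‖) ^ 3) := fun w =>
    hbase w _ (norm_sub_le _ _)
  have hexp : ∀ (k : ℝ) (w : ℂ), 0 ≤ k → k ≤ Real.exp (k * (1 + ‖w‖) ^ 3) := by
    intro k w hk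
    calc k ≤ k + 1 := by linarith
      _ ≤ Real.exp k := Real.add_one_le_exp _
      _ ≤ Real.exp (k * (1 + ‖w‖) ^ 3) := by
        refine Real.exp_le_exp.mpr ?_
        nlinarith [hE w]
  refine ⟨2 * C₂ + kA + kB + ‖κ * δ‖, by positivity, fun w => ?_, fun w => ?_, fun w => ?_⟩
  · rw [norm_pow]
    calc ‖sigmaW L (δ * w)‖ ^ 2 ≤ Real.exp (C₂ * (1 + ‖w‖) ^ 3) ^ 2 := by
          gcongr
          exact h0 w
      _ = Real.exp (2 * C₂ * (1 + ‖w‖) ^ 3) := by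
          rw [← Real.exp_nat_mul]; push_cast; ring_nf
      _ ≤ _ := by
          refine Real.exp_le_exp.mpr ?_
          have := norm_nonneg (κ * δ)
          gcongr
          linarith
  · set E := (1 + ‖w‖) ^ 3 with hEdef
    have e0 : ‖sigmaW L (δ * w) ^ 2‖ ≤ Real.exp (2 * C₂ * E) := by
      rw [norm_pow]
      calc ‖sigmaW L (δ * w)‖ ^ 2 ≤ Real.exp (C₂ * E) ^ 2 := by
            gcongr
            exact h0 w
        _ = Real.exp (2 * C₂ * E) := by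
            rw [← Real.exp_nat_mul]; push_cast; ring_nf
    have e1 : ‖sigmaW L (δ * w + q) * sigmaW L (δ * w - q)‖ ≤ Real.exp (2 * C₂ * E) := by
      rw [norm_mul]
      calc ‖sigmaW L (δ * w + q)‖ * ‖sigmaW L (δ * w - q)‖
          ≤ Real.exp (C₂ * E) * Real.exp (C₂ * E) := by
            gcongr
            · exact h1 w
            · exact h2 w
        _ = Real.exp (2 * C₂ * E) := by
            rw [← Real.exp_add]; ring_nf
    calc ‖δ ^ 2 * (L.weierstrassP q * sigmaW L (δ * w) ^ 2 -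
      sigmaW L (δ * w + q) * sigmaW L (δ * w - q) / sigmaW L q ^ 2)‖
        ≤ ‖δ‖ ^ 2 * (‖L.weierstrassP q‖ * ‖sigmaW L (δ * w) ^ 2‖ +
          ‖sigmaW L (δ * w + q) * sigmaW L (δ * w - q)‖ / ‖sigmaW L q‖ ^ 2) := by
          rw [norm_mul, norm_pow]
          gcongr
          refine (norm_sub_le _ _).trans ?_
          rw [norm_mul, norm_div, norm_pow, norm_pow]
      _ ≤ ‖δ‖ ^ 2 * (‖L.weierstrassP q‖ * Real.exp (2 * C₂ * E) +
          Real.exp (2 * C₂ * E) / ‖sigmaW L q‖ ^ 2) := by gcongr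
      _ = kA * Real.exp (2 * C₂ * E) := by rw [hkA]; ring
      _ ≤ Real.exp (kA * E) * Real.exp (2 * C₂ * E) := by
          gcongr
          exact hexp kA w hkA0
      _ = Real.exp ((2 * C₂ + kA) * E) := by rw [← Real.exp_add]; ring_nf
      _ ≤ _ := by
          refine Real.exp_le_exp.mpr ?_
          have := norm_nonneg (κ * δ)
          have hE0 : 0 ≤ E := by linarith [hE w]
          exact mul_le_mul_of_nonneg_right (by linarith) hE0
  · set E := (1 + ‖w‖) ^ 3 with hEdef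
    have hE1 : 1 ≤ E := hE w
    have e1 : ‖sigmaW L (δ * w) * sigmaW L (δ * w + q)‖ ≤ Real.exp (2 * C₂ * E) := by
      rw [norm_mul]
      calc ‖sigmaW L (δ * w)‖ * ‖sigmaW L (δ * w + q)‖
          ≤ Real.exp (C₂ * E) * Real.exp (C₂ * E) := by
            gcongr
            · exact h0 w
            · exact h1 w
        _ = Real.exp (2 * C₂ * E) := by
            rw [← Real.exp_add]; ring_nf
    have e2 : ‖exp (-(κ * (δ * w)))‖ ≤ Real.exp (‖κ * δ‖ * E) := by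
      rw [Complex.norm_exp]
      refine Real.exp_le_exp.mpr ?_
      calc (-(κ * (δ * w))).re ≤ ‖-(κ * (δ * w))‖ := Complex.re_le_norm _
        _ = ‖κ * δ‖ * ‖w‖ := by rw [norm_neg, ← mul_assoc, norm_mul]
        _ ≤ ‖κ * δ‖ * E := by
          have h3 : ‖w‖ ≤ E := by
            rw [hEdef]
            nlinarith [norm_nonneg w, sq_nonneg ‖w‖, pow_nonneg (norm_nonneg w) 3]
          gcongr
    calc ‖δ * (sigmaW L (δ * w) * sigmaW L (δ * w + q) / sigmaW L q * exp (-(κ * (δ * w))))‖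
        = kB * (‖sigmaW L (δ * w) * sigmaW L (δ * w + q)‖ * ‖exp (-(κ * (δ * w)))‖) := by
          rw [norm_mul, norm_mul, norm_div, hkB]
          ring
      _ ≤ Real.exp (kB * E) * (Real.exp (2 * C₂ * E) * Real.exp (‖κ * δ‖ * E)) := by
          gcongr
          exact hexp kB w hkB0
      _ = Real.exp ((2 * C₂ + kB + ‖κ * δ‖) * E) := by
          rw [← Real.exp_add, ← Real.exp_add]; ring_nf
      _ ≤ _ := by
          refine Real.exp_le_exp.mpr ?_
          gcongr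
          linarith

end Pool.Agent.Lib.Ribet4b482e
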