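import Mathlib
import Pool.Agent.Lib.Ribet4b482e.Apply2

open Module Filter Topology Complex

noncomputable section
namespace Pool.Agent.Lib.Ribet4b482e

variable (L : PeriodPair)

open NumberField in
/-- The Schneider-Lang criterion for `℘` and `fq`. -/
theorem schneider_lang_wp (hI : L.ω₂ = I * L.ω₁) {q : ℂ}
    (hq' : ∀ n : ℤ, n ≠ 0 → (n : ℂ) * q ∉ L.lattice) {c z₀ : ℂ}
    {K : Type} [Field K] [NumberField K] (φ : K →+* ℂ)
    (hg : L.g₂ / 2 ∈ φ.range) (hP : L.weierstrassP q ∈ φ.range) (hc : c ∈ φ.range)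
    (hz : ∀ k : ℕ, k ≠ 0 → (k : ℂ) * z₀ ∉ L.lattice ∧ k * z₀ + q ∉ L.lattice ∧
      k * z₀ - q ∉ L.lattice)
    (hv : ∀ k : ℕ, k ≠ 0 → L.weierstrassP (k * z₀) ∈ φ.range ∧
      L.derivWeierstrassP (k * z₀) ∈ φ.range ∧ hq L q (k * z₀) ∈ φ.range ∧
      fq L q (zetaW L q + c) (k * z₀) ∈ φ.range) : False := by
  classical
  have hq0 : q ∉ L.lattice := by simpa using hq' 1 one_ne_zero
  have hσq := sigmaW_ne_zero L hq0
  have hz₀ : z₀ ≠ 0 := by
    rintro rfl
    have := (hz 1 one_ne_zero).1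
    simp at this
  set m := 6 * (2 * finrank ℚ K + 1) with hm
  obtain ⟨γ₀, hγ₀⟩ := hg
  obtain ⟨β₀, hβ₀⟩ := hP
  obtain ⟨c₀, hc₀⟩ := hc
  choose! v0 v1 v2 v3 using hv
  choose! y0 hy0 using v0
  choose! y1 hy1 using v1
  choose! y2 hy2 using v2
  choose! y3 hy3 using v3
  -- common denominator
  let f : (Fin 3) ⊕ (Fin m × Fin 4) → K := Sum.elim ![γ₀, β₀, c₀]
    (fun p => ![y0 ((p.1 : ℕ) + 1), y1 ((p.1 : ℕ) + 1), y2 ((p.1 : ℕ) + 1), y3 ((p.1 : ℕ) + 1)] p.2)
  obtain ⟨b, hb⟩ := IsLocalization.exist_integer_multiples_of_finite (nonZeroDivisors (𝓞 K)) f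
  have hb' : ∀ i, ∃ r : 𝓞 K, (r : K) = ((b : 𝓞 K) : K) * f i := by
    intro i
    obtain ⟨r, hr⟩ := hb i
    refine ⟨r, ?_⟩
    rw [Algebra.smul_def] at hr
    exact hr
  choose r hr using hb'
  set δ : ℂ := φ ((b : 𝓞 K) : K) with hδ
  have hδ0 : δ ≠ 0 := by
    rw [hδ, ne_eq, map_eq_zero]
    have := nonZeroDivisors.coe_ne_zero b
    intro h
    exact this (by exact_mod_cast h)
  have hr' : ∀ i, φ (r i : K) = δ * φ (f i) := by
    intro i
    rw [hr, map_mul]
  set γ : 𝓞 K := (b : 𝓞 K) ^ 3 * r (Sum.inl 0) with hγdef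
  set β : 𝓞 K := (b : 𝓞 K) * r (Sum.inl 1) with hβdef
  set κ' : 𝓞 K := r (Sum.inl 2) with hκdef
  have hγ : φ (γ : K) = δ ^ 4 * (L.g₂ / 2) := by
    have h1 := hr' (Sum.inl 0)
    simp only [f, Sum.elim_inl, Matrix.cons_val_zero, hγ₀] at h1
    rw [hγdef]
    push_cast
    rw [map_mul, map_pow, h1]
    ring
  have hβ : φ (β : K) = δ ^ 2 * L.weierstrassP q := by
    have h1 := hr' (Sum.inl 1)
    simp only [f, Sum.elim_inl, Matrix.cons_val_one, Matrix.cons_val_zero, hβ₀] at h1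
    rw [hβdef]
    push_cast
    rw [map_mul, h1]
    ring
  have hκ : φ (κ' : K) = δ * c := by
    have h1 := hr' (Sum.inl 2)
    simp only [f, Sum.elim_inl, Matrix.cons_val, hc₀] at h1
    exact h1
  let x : Fin m → Fin 4 → 𝓞 K := fun k =>
    ![(b : 𝓞 K) * r (Sum.inr (k, 0)), (b : 𝓞 K) ^ 2 * r (Sum.inr (k, 1)),
      r (Sum.inr (k, 2)), r (Sum.inr (k, 3))]
  let w : Fin m → ℂ := fun k => (((k : ℕ) + 1 : ℕ) : ℂ) * z₀ / δ
  have hδw : ∀ k, δ * w k = (((k : ℕ) + 1 : ℕ) : ℂ) * z₀ := by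
    intro k
    simp only [w]
    field_simp
  have hw : Function.Injective w := by
    intro k k' h
    have h1 : (((k : ℕ) + 1 : ℕ) : ℂ) * z₀ = (((k' : ℕ) + 1 : ℕ) : ℂ) * z₀ := by
      rw [← hδw, ← hδw, h]
    have h2 := mul_right_cancel₀ hz₀ h1
    have h3 : (k : ℕ) + 1 = (k' : ℕ) + 1 := by exact_mod_cast h2
    exact Fin.ext (by omega)
  have hev : ∀ k, ∀ᶠ z in 𝓝 (w k), δ * z ∉ L.lattice ∧ δ * z + q ∉ L.lattice ∧
      δ * z - q ∉ L.lattice := by
    intro k
    obtain ⟨h1, h2, h3⟩ := hz ((k : ℕ) + 1) (by omega)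
    rw [← hδw] at h1 h2 h3
    have c1 : ContinuousAt (fun z : ℂ => δ * z) (w k) := by fun_prop
    have c2 : ContinuousAt (fun z : ℂ => δ * z + q) (w k) := by fun_prop
    have c3 : ContinuousAt (fun z : ℂ => δ * z - q) (w k) := by fun_prop
    filter_upwards [c1.eventually (compl_mem_nhds L h1), c2.eventually (compl_mem_nhds L h2),
      c3.eventually (compl_mem_nhds L h3)] with z e1 e2 e3
    exact ⟨e1, e2, e3⟩
  obtain ⟨Cg, hCg, hb1, hb2, hb3⟩ := growth_bounds L q (zetaW L q + c) δ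
  have hσd := differentiable_sigmaW L
  have hσ1 : Differentiable ℂ (fun w => sigmaW L (δ * w)) :=
    hσd.comp (differentiable_id.const_mul δ)
  have hσ2 : Differentiable ℂ (fun w => sigmaW L (δ * w + q)) :=
    hσd.comp ((differentiable_id.const_mul δ).add_const q)
  have hσ3 : Differentiable ℂ (fun w => sigmaW L (δ * w - q)) :=
    hσd.comp ((differentiable_id.const_mul δ).sub_const q)
  have hexpd : Differentiable ℂ (fun w => exp (-((zetaW L q + c) * (δ * w)))) := by fun_prop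
  refine schneider_lang φ (D := sysD γ β κ') (sysD_totalDegree γ β κ')
    (X := sysX L q (zetaW L q + c) δ) 0 3 hm hw (x := x) ?_ ?_
    (θ := fun w => sigmaW L (δ * w) ^ 2)
    (A := fun w => δ ^ 2 * (L.weierstrassP q * sigmaW L (δ * w) ^ 2 -
      sigmaW L (δ * w + q) * sigmaW L (δ * w - q) / sigmaW L q ^ 2))
    (B := fun w => δ * (sigmaW L (δ * w) * sigmaW L (δ * w + q) / sigmaW L q *
      exp (-((zetaW L q + c) * (δ * w))))) ?_ ?_ ?_ hCg hb1 hb2 hb3 ?_ ?_ ?_ ?_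
  · intro k
    filter_upwards [hev k] with z ⟨h1, h2, h3⟩ i
    exact hasDerivAt_sysX L φ hγ hβ hκ hq0 h1 h2 h3 i
  · intro k i
    have hk : (k : ℕ) + 1 ≠ 0 := by omega
    fin_cases i
    · show δ ^ 2 * L.weierstrassP (δ * w k) = _
      have h1 := hr' (Sum.inr (k, 0))
      simp only [f, Sum.elim_inr, Matrix.cons_val_zero, hy0 _ hk] at h1
      rw [hδw]
      show _ = φ (((b : 𝓞 K) * r (Sum.inr (k, 0)) : 𝓞 K) : K)
      push_cast
      rw [map_mul, h1]
      push_cast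
      ring
    · show δ ^ 3 * L.derivWeierstrassP (δ * w k) = _
      have h1 := hr' (Sum.inr (k, 1))
      simp only [f, Sum.elim_inr, Matrix.cons_val_one, Matrix.cons_val_zero, hy1 _ hk] at h1
      rw [hδw]
      show _ = φ (((b : 𝓞 K) ^ 2 * r (Sum.inr (k, 1)) : 𝓞 K) : K)
      push_cast
      rw [map_mul, map_pow, h1]
      push_cast
      ring
    · show δ * hq L q (δ * w k) = _
      have h1 := hr' (Sum.inr (k, 2))
      simp only [f, Sum.elim_inr, Matrix.cons_val, hy2 _ hk] at h1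
      rw [hδw]
      exact h1.symm
    · show δ * fq L q (zetaW L q + c) (δ * w k) = _
      have h1 := hr' (Sum.inr (k, 3))
      simp only [f, Sum.elim_inr, Matrix.cons_val, hy3 _ hk] at h1
      rw [hδw]
      exact h1.symm
  · exact hσ1.pow 2
  · exact (((hσ1.pow 2).const_mul _).sub ((hσ2.mul hσ3).div_const _)).const_mul _
  · exact (((hσ1.mul hσ2).div_const _).mul hexpd).const_mul _
  · intro k
    have := (hev k).self_of_nhds.1
    exact pow_ne_zero 2 (sigmaW_ne_zero L this)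
  · intro k
    filter_upwards [hev k] with z ⟨h1, h2, h3⟩
    show sigmaW L (δ * z) ^ 2 * (δ ^ 2 * L.weierstrassP (δ * z)) = _
    rw [sigmaW_mul_sigmaW L h1 hq0]
    field_simp
    ring
  · intro k
    filter_upwards [hev k] with z ⟨h1, h2, h3⟩
    show sigmaW L (δ * z) ^ 2 * (δ * fq L q (zetaW L q + c) (δ * z)) = _
    rw [fq]
    have := sigmaW_ne_zero L h1
    field_simp
  · intro Λ e k hek
    -- transfer to the `z`-plane
    set e' : Fin Λ × Fin Λ → ℂ := fun l => e l * ((δ ^ 2) ^ (l.1 : ℕ) * δ ^ (l.2 : ℕ)) with he'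
    set g : ℂ → ℂ := fun z => ∑ l, e' l * (L.weierstrassP z ^ (l.1 : ℕ) *
      fq L q (zetaW L q + c) z ^ (l.2 : ℕ)) with hgdef
    have hgan : AnalyticOnNhd ℂ g (L.lattice : Set ℂ)ᶜ := by
      intro z hz
      have a1 : AnalyticAt ℂ L.weierstrassP z := L.analyticOnNhd_weierstrassP z hz
      have a2 : AnalyticAt ℂ (fq L q (zetaW L q + c)) z := by
        have s1 : AnalyticAt ℂ (fun z => sigmaW L (z + q)) z :=
          (hσd.comp (differentiable_id.add_const q)).analyticAt z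
        have s2 : AnalyticAt ℂ (fun z => sigmaW L z * sigmaW L q) z :=
          (hσd.mul_const _).analyticAt z
        have s3 : AnalyticAt ℂ (fun z => exp (-((zetaW L q + c) * z))) z := by fun_prop
        exact (s1.fun_div s2 (mul_ne_zero (sigmaW_ne_zero L hz) hσq)).fun_mul s3
      refine Finset.analyticAt_fun_sum _ fun l _ => ?_
      fun_prop
    have hg0 : g =ᶠ[𝓝 (δ * w k)] 0 := by
      have t1 : Tendsto (fun z : ℂ => z / δ) (𝓝 (δ * w k)) (𝓝 (w k)) := by
        have : ContinuousAt (fun z : ℂ => z / δ) (δ * w k) := by fun_prop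
        have h2 := this.tendsto
        rwa [mul_div_cancel_left₀ _ hδ0] at h2
      filter_upwards [t1.eventually hek] with z hz
      rw [Pi.zero_apply, ← hz, hgdef]
      refine Finset.sum_congr rfl fun l _ => ?_
      show e' l * _ = e l * ((δ ^ 2 * L.weierstrassP (δ * (z / δ))) ^ (l.1 : ℕ) *
        (δ * fq L q (zetaW L q + c) (δ * (z / δ))) ^ (l.2 : ℕ))
      rw [mul_div_cancel₀ _ hδ0, mul_pow, mul_pow]
      simp only [he']
      ring
    have hall := hgan.eqOn_zero_of_preconnected_of_eventuallyEq_zero (isPreconnected_compl L)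
      (z₀ := δ * w k) (hev k).self_of_nhds.1 hg0
    have he0 : e' = 0 := fq_indep L hI hq' (zetaW L q + c) e' (fun z hz _ => hall hz)
    ext l
    have h1 := congrFun he0 l
    simp only [he', Pi.zero_apply] at h1
    exact (mul_eq_zero.mp h1).resolve_right (mul_ne_zero (pow_ne_zero _ (pow_ne_zero _ hδ0))
      (pow_ne_zero _ hδ0))

end Pool.Agent.Lib.Ribet4b482e
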