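import Mathlib
import Pool.Agent.Lib.Ribet4b482e.Apply3

open Module Filter Topology Complex

noncomputable section
namespace Pool.Agent.Lib.Ribet4b482e

variable (L : PeriodPair)

/-- Value of the multiplicative coordinate of `kN`-multiples of the Ribet point. -/
lemma fq_value (hI : L.ω₂ = I * L.ω₁) {q κ l : ℂ}
    (hl : l ∈ L.lattice) {N : ℕ} {a : ℤ}
    (hrel : N * (I * q) * κ = 2 * Real.pi * I * a + κ * l - etaW L l * q) (k : ℕ) :
    fq L q κ (k * (N * (I * q) - l)) =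
      sigmaW L ((1 + ((k * N : ℕ) : ℂ) * I) * q) /
        (I * sigmaW L (((k * N : ℕ) : ℂ) * q) * sigmaW L q) := by
  have hkl : -((k : ℂ) * l) ∈ L.lattice := by
    have := neg_mem (L.lattice.smul_mem (k : ℤ) hl)
    simpa using this
  have e1 : (k : ℂ) * (N * (I * q) - l) = (k * N : ℕ) * (I * q) + -((k : ℂ) * l) := by
    push_cast; ring
  have e2 : etaW L (-((k : ℂ) * l)) = -(k * etaW L l) := by
    have h1 : (k : ℂ) * l ∈ L.lattice := by simpa using neg_mem hkl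
    have h2 := etaW_zsmul L (k : ℤ) hl
    rw [etaW_neg L h1]
    have h3 : etaW L ((k : ℂ) * l) = k * etaW L l := by exact_mod_cast h2
    rw [h3]
  rw [e1, fq_add L hkl, e2, fq]
  have e3 : ((k * N : ℕ) : ℂ) * (I * q) + q = (1 + ((k * N : ℕ) : ℂ) * I) * q := by ring
  have e4 : ((k * N : ℕ) : ℂ) * (I * q) = I * (((k * N : ℕ) : ℂ) * q) := by ring
  rw [e3, e4, sigmaW_I_mul L hI]
  have e5 : exp (-(k * etaW L l) * q - κ * -((k : ℂ) * l)) *
      exp (-(κ * (I * (((k * N : ℕ) : ℂ) * q)))) = 1 := by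
    rw [← exp_add, exp_eq_one_iff]
    refine ⟨-(k * a), ?_⟩
    push_cast
    linear_combination (-(k : ℂ)) * hrel
  calc exp (-(k * etaW L l) * q - κ * -((k : ℂ) * l)) *
        (sigmaW L ((1 + ((k * N : ℕ) : ℂ) * I) * q) /
          (I * sigmaW L (((k * N : ℕ) : ℂ) * q) * sigmaW L q) *
          exp (-(κ * (I * (((k * N : ℕ) : ℂ) * q)))))
      = (exp (-(k * etaW L l) * q - κ * -((k : ℂ) * l)) *
        exp (-(κ * (I * (((k * N : ℕ) : ℂ) * q))))) *
        (sigmaW L ((1 + ((k * N : ℕ) : ℂ) * I) * q) /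
          (I * sigmaW L (((k * N : ℕ) : ℂ) * q) * sigmaW L q)) := by ring
    _ = _ := by rw [e5, one_mul]

lemma isAlgebraic_I : IsAlgebraic ℚ (I : ℂ) := by
  refine IsAlgebraic.of_pow (n := 2) (by norm_num) ?_
  rw [I_sq]
  exact (isAlgebraic_one).neg

lemma isAlgebraic_two : IsAlgebraic ℚ (2 : ℂ) := by
  exact_mod_cast isAlgebraic_natCast (R := ℚ) (A := ℂ) 2

lemma isAlgebraic_four : IsAlgebraic ℚ (4 : ℂ) := by
  exact_mod_cast isAlgebraic_natCast (R := ℚ) (A := ℂ) 4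

/-- The third-kind logarithm of the Ribet point is not a rational combination of `2πi` and
the third-kind periods, for any third-kind differential `ξ_c` with `c` algebraic. -/
theorem ribet_log_notMem (hI : L.ω₂ = I * L.ω₁) (hg : IsAlgebraic ℚ L.g₂) {q : ℂ}
    (hq' : ∀ n : ℤ, n ≠ 0 → (n : ℂ) * q ∉ L.lattice) (hP : IsAlgebraic ℚ (L.weierstrassP q))
    {c : ℂ} (hc : IsAlgebraic ℚ c) :
    I * q * (zetaW L q + c) ∉ Submodule.span ℚ {2 * (Real.pi : ℂ) * I,
      (zetaW L q + c) * L.ω₁ - etaW L L.ω₁ * q, (zetaW L q + c) * L.ω₂ - etaW L L.ω₂ * q} := by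
  intro hmem
  have hq0 : q ∉ L.lattice := by simpa using hq' 1 one_ne_zero
  have hσq := sigmaW_ne_zero L hq0
  obtain ⟨a, b₁, b₂, hab⟩ := Submodule.mem_span_triple.mp hmem
  set κ := zetaW L q + c with hκ
  -- clear denominators
  set N : ℕ := a.den * b₁.den * b₂.den with hN
  have hN0 : N ≠ 0 := by
    rw [hN]
    have := a.den_nz
    have := b₁.den_nz
    have := b₂.den_nz
    positivity
  set a' : ℤ := a.num * b₁.den * b₂.den with ha'
  set m₁ : ℤ := b₁.num * a.den * b₂.den with hm₁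
  set m₂ : ℤ := b₂.num * a.den * b₁.den with hm₂
  have hda : ((a.den : ℕ) : ℂ) ≠ 0 := by exact_mod_cast a.den_nz
  have hdb₁ : ((b₁.den : ℕ) : ℂ) ≠ 0 := by exact_mod_cast b₁.den_nz
  have hdb₂ : ((b₂.den : ℕ) : ℂ) ≠ 0 := by exact_mod_cast b₂.den_nz
  have ea : (N : ℂ) * (a : ℂ) = a' := by
    rw [hN, ha', Rat.cast_def a]; push_cast; field_simp
  have eb₁ : (N : ℂ) * (b₁ : ℂ) = m₁ := by
    rw [hN, hm₁, Rat.cast_def b₁]; push_cast; field_simp
  have eb₂ : (N : ℂ) * (b₂ : ℂ) = m₂ := by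
    rw [hN, hm₂, Rat.cast_def b₂]; push_cast; field_simp
  set l : ℂ := m₁ * L.ω₁ + m₂ * L.ω₂ with hldef
  have hl : l ∈ L.lattice := PeriodPair.mem_lattice.mpr ⟨m₁, m₂, rfl⟩
  have hl1 : (m₁ : ℂ) * L.ω₁ ∈ L.lattice := PeriodPair.mem_lattice.mpr ⟨m₁, 0, by simp⟩
  have hl2 : (m₂ : ℂ) * L.ω₂ ∈ L.lattice := PeriodPair.mem_lattice.mpr ⟨0, m₂, by simp⟩
  have hηl : etaW L l = m₁ * etaW L L.ω₁ + m₂ * etaW L L.ω₂ := by
    rw [hldef, etaW_add L hl1 hl2, etaW_zsmul L m₁ L.ω₁_mem_lattice,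
      etaW_zsmul L m₂ L.ω₂_mem_lattice]
  have hrel : N * (I * q) * κ = 2 * Real.pi * I * a' + κ * l - etaW L l * q := by
    simp only [Rat.smul_def] at hab
    rw [hηl, hldef, ← ea, ← eb₁, ← eb₂]
    linear_combination (-(N : ℂ)) * hab
  set z₀ : ℂ := N * (I * q) - l with hz₀
  -- the points `k z₀`
  have hkN : ∀ k : ℕ, k ≠ 0 → k * N ≠ 0 := fun k hk => Nat.mul_ne_zero hk hN0
  have hz : ∀ k : ℕ, k ≠ 0 → (k : ℂ) * z₀ ∉ L.lattice ∧ k * z₀ + q ∉ L.lattice ∧
      k * z₀ - q ∉ L.lattice := by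
    intro k hk
    have hkl : (k : ℂ) * l ∈ L.lattice := by
      have := L.lattice.smul_mem (k : ℤ) hl
      simpa using this
    have aux : ∀ a : ℤ, ((a : ℂ) + ((k * N : ℕ) : ℤ) * I) * q ∉ L.lattice := fun a =>
      zi_mul_notMem L hI hq' (Or.inr (by exact_mod_cast hkN k hk))
    refine ⟨fun h => aux 0 ?_, fun h => aux 1 ?_, fun h => aux (-1) ?_⟩
    all_goals
      have := add_mem h hkl
      convert this using 1
      rw [hz₀]
      push_cast
      ring
  have hper : ∀ k : ℕ, (k : ℂ) * z₀ + k * l = (((0 : ℤ) : ℂ) + ((k * N : ℕ) : ℤ) * I) * q := by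
    intro k
    rw [hz₀]
    push_cast
    ring
  -- the number field
  set U₁ : ℂ := sigmaW L (q + I * q) / sigmaW L q ^ 2 with hU₁
  have hU₁alg : IsAlgebraic ℚ U₁ := by
    refine IsAlgebraic.of_pow (n := 2) (by norm_num) ?_
    have : U₁ ^ 2 = 2 * I * L.weierstrassP q := by
      rw [hU₁, div_pow, sigmaW_one_add_I_mul_sq L hI hq0]
      field_simp
    rw [this]
    exact (isAlgebraic_two.mul isAlgebraic_I).mul hP
  have hP' : IsAlgebraic ℚ (L.derivWeierstrassP q) := by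
    refine IsAlgebraic.of_pow (n := 2) (by norm_num) ?_
    rw [L.derivWeierstrassP_sq q hq0, g₃_eq_zero L hI, sub_zero]
    exact (isAlgebraic_four.mul (hP.pow 3)).sub (hg.mul hP)
  let S : Set ℂ := {I, L.g₂, L.weierstrassP q, L.derivWeierstrassP q, U₁, c}
  have hS : ∀ x ∈ S, IsIntegral ℚ x := by
    intro x hx
    simp only [S, Set.mem_insert_iff, Set.mem_singleton_iff] at hx
    rcases hx with rfl | rfl | rfl | rfl | rfl | rfl
    · exact isAlgebraic_I.isIntegral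
    · exact hg.isIntegral
    · exact hP.isIntegral
    · exact hP'.isIntegral
    · exact hU₁alg.isIntegral
    · exact hc.isIntegral
  let K : IntermediateField ℚ ℂ := IntermediateField.adjoin ℚ S
  have hSfin : Finite S := by
    have : S.Finite := by simp [S]
    exact this
  have hKfd : FiniteDimensional ℚ K := IntermediateField.finiteDimensional_adjoin hS
  have hKnf : NumberField K := { to_charZero := inferInstance, to_finiteDimensional := hKfd }
  have hSK : S ⊆ (K : Set ℂ) := IntermediateField.subset_adjoin ℚ S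
  have mI : I ∈ K := hSK (by simp [S])
  have mg : L.g₂ ∈ K := hSK (by simp [S])
  have mP : L.weierstrassP q ∈ K := hSK (by simp [S])
  have mP' : L.derivWeierstrassP q ∈ K := hSK (by simp [S])
  have mU : U₁ ∈ K := hSK (by simp [S])
  have mc : c ∈ K := hSK (by simp [S])
  have hrange : ∀ y : ℂ, y ∈ K → y ∈ (algebraMap K ℂ).range := fun y hy => ⟨⟨y, hy⟩, rfl⟩
  refine schneider_lang_wp L hI hq' (c := c) (z₀ := z₀) (K := K) (algebraMap K ℂ)
    (hrange _ (div_mem mg (ofNat_mem K 2))) (hrange _ mP) (hrange _ mc) hz ?_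
  intro k hk
  have hkl : (k : ℂ) * l ∈ L.lattice := by
    have := L.lattice.smul_mem (k : ℤ) hl
    simpa using this
  obtain ⟨hk1, hk2, hk3⟩ := hz k hk
  have hPP := zi_mem_field hI hq' K.toSubfield mI mg mP mP' (a := 0) (b := ((k * N : ℕ) : ℤ))
    (Or.inr (by exact_mod_cast hkN k hk))
  rw [← hper k] at hPP
  have p1 : L.weierstrassP (k * z₀ + k * l) = L.weierstrassP (k * z₀) :=
    L.weierstrassP_add_coe _ ⟨_, hkl⟩
  have p2 : L.derivWeierstrassP (k * z₀ + k * l) = L.derivWeierstrassP (k * z₀) :=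
    L.derivWeierstrassP_add_coe _ ⟨_, hkl⟩
  rw [p1, p2] at hPP
  obtain ⟨hPk, hPk'⟩ := hPP
  refine ⟨hrange _ hPk, hrange _ hPk', hrange _ ?_, hrange _ ?_⟩
  · rw [hq_eq_slope L hq0 hk1 hk2 hk3, slopeP]
    exact div_mem (div_mem (sub_mem hPk' mP') (sub_mem hPk mP)) (ofNat_mem K 2)
  · rw [fq_value L hI hl hrel k]
    have hU := (U_mem hI hq' K.toSubfield mI mg mP mP' mU (k * N)).1
    have hV := (V_mem hI hq' K.toSubfield mI mg mP mP' (k * N)).1
    have e : sigmaW L ((1 + ((k * N : ℕ) : ℂ) * I) * q) /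
        (I * sigmaW L (((k * N : ℕ) : ℂ) * q) * sigmaW L q) =
        (sigmaW L ((1 + ((k * N : ℕ) : ℂ) * I) * q) / sigmaW L q ^ (1 + (k * N) ^ 2)) /
        (I * (sigmaW L (((k * N : ℕ) : ℂ) * q) / sigmaW L q ^ ((k * N) ^ 2))) := by
      have n1 : sigmaW L (((k * N : ℕ) : ℂ) * q) ≠ 0 := by
        refine sigmaW_ne_zero L ?_
        have := hq' ((k * N : ℕ) : ℤ) (by exact_mod_cast hkN k hk)
        simpa using this
      rw [pow_add, pow_one]
      field_simp
    rw [e]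
    exact div_mem hU (mul_mem mI hV)

end Pool.Agent.Lib.Ribet4b482e
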